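import Mathlib

/-!
# Cartier divisors, curves, intersection numbers, nef cone, cone of curves, extremal contractions

`k` is a field and `f : X ⟶ Spec k` is an integral `k`-scheme (in the main theorem `k` is
algebraically closed of characteristic zero and `X` is smooth and proper over `k` with an ample
divisor, that is, a smooth projective variety).
-/

open AlgebraicGeometry CategoryTheory

universe u

namespace Pool.Agent.Lib.MP_cc17a8_ag

/-- The homomorphism from the ground field `k` to the ring of global functions on `X`. -/
noncomputable def globalConstants {k : Type u} [Field k] {X : Scheme.{u}} (f : X ⟶ Spec (.of k)) :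
    CommRingCat.of k ⟶ Γ(X, ⊤) :=
  (Scheme.ΓSpecIso (.of k)).inv ≫ f.appTop

/-- The homomorphism from the ground field `k` to the local ring of `X` at `x`. -/
noncomputable def constants {k : Type u} [Field k] {X : Scheme.{u}} (f : X ⟶ Spec (.of k))
    (x : X) : k →+* X.presheaf.stalk x :=
  (globalConstants f ≫ X.presheaf.germ ⊤ x trivial).hom

section LocalRings

variable {X : Scheme.{u}} [IsIntegral X]

/-- The rational function `h` is regular at `x`. -/
def IsRegularAt (x : X) (h : X.functionField) : Prop :=
  ∃ a : X.presheaf.stalk x, algebraMap (X.presheaf.stalk x) X.functionField a = h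

/-- The rational function `h` is a unit of the local ring of `X` at `x`. -/
def IsUnitAt (x : X) (h : X.functionField) : Prop :=
  ∃ a : X.presheaf.stalk x, IsUnit a ∧ algebraMap (X.presheaf.stalk x) X.functionField a = h

end LocalRings

/-- A Cartier divisor on an integral scheme, given by a local equation `eqn x` in the function field
at every point `x`; the local equation at `x` is also a local equation at the points near `x`. -/
structure CartierDivisor (X : Scheme.{u}) [IsIntegral X] where
  /-- the local equation at `x` -/
  eqn : X → X.functionField
  ne_zero : ∀ x, eqn x ≠ 0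
  compat : ∀ x, ∃ U : X.Opens, x ∈ U ∧ ∀ y ∈ U, IsUnitAt y (eqn x / eqn y)

/-- The divisor `A` is ample: every point lies in an affine open subset of the form `X_s` with `s`
a global section of the line bundle `𝒪(nA)`, `0 < n`.  Here a global section of `𝒪(nA)` is a
rational function `s` with `s * (A.eqn y) ^ n` regular at every point `y`, and `X_s` is the set of
points `y` at which `s * (A.eqn y) ^ n` is a unit. -/
def CartierDivisor.IsAmple {X : Scheme.{u}} [IsIntegral X] (A : CartierDivisor X) : Prop :=
  ∀ x : X, ∃ n : ℕ, 0 < n ∧ ∃ s : X.functionField, (∀ y : X, IsRegularAt y (s * A.eqn y ^ n)) ∧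
    ∃ U : X.Opens, IsAffineOpen U ∧ x ∈ U ∧ ∀ y : X, y ∈ U ↔ IsUnitAt y (s * A.eqn y ^ n)

section Degree

/-- The order of vanishing of `x` at a discrete valuation subring `v` of the field `F`. -/
noncomputable def ordAt {F : Type u} [Field F] (v : ValuationSubring F) (x : F) : ℤ :=
  open Classical in
  if _h : IsDiscreteValuationRing v then WithZero.log (Ring.ordFrac v x) else 0

variable {X : Scheme.{u}} {F : Type u} [Field F] {x : X}

/-- Let `g : 𝒪_{X,x} → F` be an `F`-valued point of `X` and let `c` be a specialization of `x`. This
is the value of a germ at `c` at the point `g`. -/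
noncomputable def evalGerm (g : X.presheaf.stalk x →+* F) {c : X} (h : x ⤳ c)
    (s : X.presheaf.stalk c) : F :=
  g (X.presheaf.stalkSpecializes h s)

/-- Let `g : 𝒪_{X,x} → F` be an `F`-valued point of `X`.  The point `c` is the center on `X` of the
valuation ring `v` of `F`: it is a specialization of `x`, elements of `𝒪_{X,c}` have values in
`v` and elements of the maximal ideal of `𝒪_{X,c}` have values in the maximal ideal of `v`. -/
def IsCenter (g : X.presheaf.stalk x →+* F) (v : ValuationSubring F) (c : X) : Prop :=
  ∃ h : x ⤳ c, ∀ s : X.presheaf.stalk c,
    v.valuation (evalGerm g h s) ≤ 1 ∧ (¬ IsUnit s → v.valuation (evalGerm g h s) < 1)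

/-- The center on `X` of the valuation ring `v` (with the value `x` if there is none; if `X` is
proper over `k` and `v` contains `k` then there is exactly one center). -/
noncomputable def center (g : X.presheaf.stalk x →+* F) (v : ValuationSubring F) : X :=
  open Classical in if h : ∃ c, IsCenter g v c then h.choose else x

/-- The value at the `F`-valued point `g` of a rational function `h` which is regular at `x`. -/
noncomputable def evalAt [IsIntegral X] (g : X.presheaf.stalk x →+* F) (h : X.functionField) : F :=
  open Classical in if hh : IsRegularAt x h then g hh.choose else 0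

/-- The degree of a Cartier divisor along an `F`-valued point of `X`: the sum over the
valuation rings `v` in `V` of the order at `v` of a local equation at the center of `v`. The
rational function `D.eqn c / D.eqn x` is a local equation at `c` of a divisor linearly
equivalent to `D` which does not pass through `x`. -/
noncomputable def degree [IsIntegral X] (V : Set (ValuationSubring F))
    (g : X.presheaf.stalk x →+* F) (D : CartierDivisor X) : ℤ :=
  ∑ᶠ v ∈ V, ordAt v (evalAt g (D.eqn (center g v) / D.eqn x))

end Degree

section Curves

variable {k : Type u} [Field k] {X : Scheme.{u}} (f : X ⟶ Spec (.of k))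

/-- A curve in `X`, given by its generic point `pt`, a point whose residue field has
transcendence degree one over `k`. -/
structure Curve where
  /-- the generic point of the curve -/
  pt : X
  trdeg_eq_one :
    letI := ((X.residue pt).hom.comp (constants f pt)).toAlgebra
    Algebra.trdeg k (X.residueField pt) = 1

variable {f}

/-- The places of the function field of the curve `C`, that is, the points of its normalization. -/
def Curve.places (C : Curve f) : Set (ValuationSubring (X.residueField C.pt)) :=
  {v | v ≠ ⊤ ∧ ∀ a : k, X.residue C.pt (constants f C.pt a) ∈ v}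

variable [IsIntegral X]

/-- The intersection number `D · C`: the degree of the pull-back of `D` to the normalization of
the curve `C`. -/
noncomputable def inter (D : CartierDivisor X) (C : Curve f) : ℤ :=
  degree C.places (X.residue C.pt).hom D

variable (f)

/-- The space `N¹(X)_ℝ` of real divisors modulo numerical equivalence, realized as the space of
functions on the set of curves spanned by the functions `C ↦ D · C`. -/
noncomputable def N1 : Submodule ℝ (Curve f → ℝ) :=
  Submodule.span ℝ (Set.range fun (D : CartierDivisor X) (C : Curve f) => (inter D C : ℝ))

/-- The nef cone. -/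
def Nef : Set (N1 f) := {δ | ∀ C : Curve f, 0 ≤ δ.1 C}

/-- The real functions on `N¹(X)_ℝ`. The classes of `1`-cycles are among them, as linear forms. -/
abbrev Forms : Type u := N1 f → ℝ

/-- The class of a curve, as a linear form on `N¹(X)_ℝ`. -/
def curveClass (C : Curve f) : Forms f := fun δ => δ.1 C

/-- The closed cone of curves: the closure (for the topology of pointwise convergence of
linear forms on `N¹(X)_ℝ`) of the set of linear combinations of classes of curves with nonnegative
coefficients. -/
def NEbar : Set (Forms f) :=
  closure {z | ∃ (n : ℕ) (a : Fin n → ℝ) (C : Fin n → Curve f),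
    (∀ i, 0 ≤ a i) ∧ z = ∑ i, a i • curveClass f (C i)}

/-- `R` is an extremal ray of the closed cone of curves. -/
def IsExtremalRay (R : Set (Forms f)) : Prop :=
  (∃ z ∈ NEbar f, z ≠ 0 ∧ R = {y | ∃ t : ℝ, 0 ≤ t ∧ y = t • z}) ∧
    ∀ x ∈ NEbar f, ∀ y ∈ NEbar f, x + y ∈ R → x ∈ R ∧ y ∈ R

end Curves

section Contraction

variable {k : Type u} [Field k]

/-- The dimension of the integral `k`-scheme `X` (of finite type), the transcendence degree over
`k` of its function field. -/
noncomputable def dimension {X : Scheme.{u}} [IsIntegral X] (f : X ⟶ Spec (.of k)) : Cardinal :=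
  letI := (constants f (genericPoint X)).toAlgebra
  Algebra.trdeg k X.functionField

/-- The homomorphism of function fields defined by a dominant morphism of integral schemes. -/
noncomputable def functionFieldMap {X Y : Scheme.{u}} [IsIntegral X] [IsIntegral Y] (φ : X ⟶ Y)
    (hφ : φ (genericPoint X) = genericPoint Y) : Y.functionField →+* X.functionField :=
  (Y.presheaf.stalkSpecializes (specializes_of_eq hφ) ≫ φ.stalkMap (genericPoint X)).hom

/-- The surjective `k`-morphism `φ : X ⟶ Y` is a contraction of the extremal ray `R`:
it contracts (to a closed point of `Y`) exactly the curves whose class lies in `R`. -/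
structure IsContraction {X Y : Scheme.{u}} [IsIntegral X] (f : X ⟶ Spec (.of k))
    (g : Y ⟶ Spec (.of k)) (R : Set (Forms f)) (φ : X ⟶ Y) : Prop where
  comp_eq : φ ≫ g = f
  surjective : Function.Surjective φ
  isClosed_iff : ∀ C : Curve f, IsClosed {φ C.pt} ↔ curveClass f C ∈ R

/-- The extremal ray `R` has a contraction onto a projective variety `Y` with `dim Y < dim X`. -/
def HasFibreContraction {X : Scheme.{u}} [IsIntegral X] (f : X ⟶ Spec (.of k))
    (R : Set (Forms f)) : Prop :=
  ∃ (Y : Scheme.{u}) (_ : IsIntegral Y) (g : Y ⟶ Spec (.of k)) (φ : X ⟶ Y),
    IsProper g ∧ (∃ H : CartierDivisor Y, H.IsAmple) ∧ IsContraction f g R φ ∧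
      dimension g < dimension f

end Contraction

/-- A subset of a real vector space `V` is a full-dimensional simplicial cone: it is the set of
linear combinations with nonnegative coefficients of the vectors of a (finite) basis of `V`. -/
def IsSimplicialCone {V : Type u} [AddCommGroup V] [Module ℝ V] (S : Set V) : Prop :=
  ∃ (n : ℕ) (b : Module.Basis (Fin n) ℝ V), S = {δ | ∀ i, 0 ≤ b.repr δ i}

end Pool.Agent.Lib.MP_cc17a8_ag
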