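import Mathlib
import Pool.Agent.Lib.MP_cc17a8_ag.Defs

/-!
# Orders of vanishing at discrete valuation subrings of a field
-/

open scoped nonZeroDivisors

namespace Pool.Agent.Lib.MP_cc17a8_ag

universe u

section
variable {F : Type u} [Field F] (v : ValuationSubring F) [IsDiscreteValuationRing v]

theorem ordAt_eq (x : F) : ordAt v x = WithZero.log (Ring.ordFrac v x) := dif_pos ‹_›

theorem ordAt_mul {x y : F} (hx : x ≠ 0) (hy : y ≠ 0) : ordAt v (x * y) = ordAt v x + ordAt v y := by
  rw [ordAt_eq, ordAt_eq, ordAt_eq, map_mul, WithZero.log_mul]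
  · simpa using hx
  · simpa using hy

theorem ordAt_one : ordAt v 1 = 0 := by
  rw [ordAt_eq]; simp

theorem ordAt_inv (x : F) : ordAt v x⁻¹ = - ordAt v x := by
  rw [ordAt_eq, ordAt_eq, map_inv₀, WithZero.log_inv]

theorem ordAt_nonneg {x : F} (hx : x ∈ v) : 0 ≤ ordAt v x := by
  by_cases h0 : x = 0
  · rw [ordAt_eq, h0]; simp
  rw [ordAt_eq]
  have h00 : (⟨x, hx⟩ : v) ≠ 0 := by
    intro h; exact h0 (congrArg Subtype.val h)
  have h := Ring.ordFrac_ge_one_of_ne_zero (R := v) (K := F) (x := ⟨x, hx⟩) h00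
  have h1 : algebraMap v F ⟨x, hx⟩ = x := rfl
  rw [h1] at h
  have := WithZero.log_le_log (by simp) (by simpa using h0) |>.mpr h
  simpa using this

theorem ordAt_eq_zero {x : F} (hx : x ∈ v) (hx' : x⁻¹ ∈ v) : ordAt v x = 0 := by
  apply le_antisymm _ (ordAt_nonneg v hx)
  have := ordAt_nonneg v hx'
  rw [ordAt_inv] at this
  linarith

theorem ordAt_eq_toNat {x : F} (hx : x ∈ v) (h0 : x ≠ 0) :
    ordAt v x = (Ring.ord v ⟨x, hx⟩).toNat := by
  have h00 : (⟨x, hx⟩ : v) ≠ 0 := by
    intro h; exact h0 (congrArg Subtype.val h)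
  have h1 : algebraMap v F ⟨x, hx⟩ = x := rfl
  have h2 := Ring.ordFrac_eq_ord (K := F) v h00
  rw [h1] at h2
  rw [ordAt_eq, h2]
  obtain ⟨m, hm⟩ := ENat.ne_top_iff_exists.mp (Ring.ord_ne_top (R := v) (a := ⟨x, hx⟩) (by simpa using h00))
  rw [Ring.ordMonoidWithZeroHom_eq_coe _ (by simpa using h00) hm.symm, ← hm]
  change (WithZero.exp (m : ℤ)).log = _
  rw [WithZero.log_exp]; simp

theorem ordAt_pos {x : F} (hx : x ∈ v) (h0 : x ≠ 0) (hx' : x⁻¹ ∉ v) : 0 < ordAt v x := by
  rw [ordAt_eq_toNat v hx h0]
  have h00 : (⟨x, hx⟩ : v) ≠ 0 := by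
    intro h; exact h0 (congrArg Subtype.val h)
  have h1 : Ring.ord v ⟨x, hx⟩ ≠ ⊤ := Ring.ord_ne_top (R := v) (a := ⟨x, hx⟩) (by simpa using h00)
  have h2 : Ring.ord v ⟨x, hx⟩ ≠ 0 := by
    rw [Ring.ord_eq_addVal]
    intro h
    rw [IsDiscreteValuationRing.addVal_eq_zero_iff] at h
    obtain ⟨u, hu⟩ := h
    apply hx'
    have h3 : ((u⁻¹ : vˣ) : v) * u = 1 := by simp
    have h4 : (((u⁻¹ : vˣ) : v) : F) * x = 1 := by
      have := congrArg Subtype.val h3
      rw [hu] at this
      exact this
    have h5 : x⁻¹ = (((u⁻¹ : vˣ) : v) : F) := by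
      rw [eq_comm]; exact eq_inv_of_mul_eq_one_left h4
    rw [h5]; exact SetLike.coe_mem _
  have : (Ring.ord v ⟨x, hx⟩).toNat ≠ 0 := by
    rw [Ne, ENat.toNat_eq_zero]
    push Not
    exact ⟨h2, h1⟩
  omega

end


/-! ### Places dominating a Dedekind subring -/

section Dedekind

variable {S F : Type u} [CommRing S] [Field F] [Algebra S F]

/-- The algebra structure on a valuation subring containing the image of `S`. -/
noncomputable def algOf (v : ValuationSubring F) (hS : ∀ s : S, algebraMap S F s ∈ v) :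
    S →+* v := (algebraMap S F).codRestrict v.toSubring hS

/-- The center of `v` on `S`. -/
noncomputable def cen (v : ValuationSubring F) (hS : ∀ s : S, algebraMap S F s ∈ v) : Ideal S :=
  (IsLocalRing.maximalIdeal v).comap (algOf v hS)

instance (v : ValuationSubring F) (hS : ∀ s : S, algebraMap S F s ∈ v) : (cen v hS).IsPrime :=
  Ideal.comap_isPrime _ _

theorem mem_cen_iff [IsDomain S] [IsFractionRing S F] (v : ValuationSubring F)
    (hS : ∀ s : S, algebraMap S F s ∈ v) (s : S) :
    s ∈ cen v hS ↔ s = 0 ∨ (algebraMap S F s)⁻¹ ∉ v := by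
  rw [cen, Ideal.mem_comap, IsLocalRing.mem_maximalIdeal, mem_nonunits_iff]
  constructor
  · intro h
    by_cases h0 : s = 0
    · exact Or.inl h0
    right
    intro hinv
    apply h
    have h1 : algebraMap S F s ≠ 0 := by
      rw [Ne, IsFractionRing.to_map_eq_zero_iff]; exact h0
    refine IsUnit.of_mul_eq_one (⟨(algebraMap S F s)⁻¹, hinv⟩ : v) ?_
    apply Subtype.ext
    exact mul_inv_cancel₀ h1
  · rintro (h | h) hu
    · rw [h, map_zero] at hu
      exact not_isUnit_zero hu
    · apply h
      obtain ⟨u, hu⟩ := hu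
      have h3 : ((u⁻¹ : vˣ) : v) * u = 1 := by simp
      have h4 : (((u⁻¹ : vˣ) : v) : F) * algebraMap S F s = 1 := by
        have := congrArg Subtype.val h3
        rw [hu] at this
        exact this
      have h5 : (algebraMap S F s)⁻¹ = (((u⁻¹ : vˣ) : v) : F) := by
        rw [eq_comm]; exact eq_inv_of_mul_eq_one_left h4
      rw [h5]; exact SetLike.coe_mem _

theorem isLocalization_of_place [IsDedekindDomain S] [IsFractionRing S F] (v : ValuationSubring F)
    (hv : v ≠ ⊤) (hS : ∀ s : S, algebraMap S F s ∈ v) :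
    cen v hS ≠ ⊥ ∧ @IsLocalization.AtPrime _ _ v _ (algOf v hS).toAlgebra (cen v hS) _ := by
  have hne : cen v hS ≠ ⊥ := by
    intro hbot
    apply hv
    rw [eq_top_iff]
    intro x _
    obtain ⟨a, b, hb, rfl⟩ := IsFractionRing.div_surjective (A := S) x
    rw [div_eq_mul_inv]
    apply v.mul_mem _ _ (hS a)
    have hb0 : b ≠ 0 := nonZeroDivisors.ne_zero hb
    have : b ∉ cen v hS := by rw [hbot]; simpa using hb0
    rw [mem_cen_iff] at this
    push Not at this
    exact this.2
  refine ⟨hne, ?_⟩
  let _ : Algebra S v := (algOf v hS).toAlgebra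
  have hmap : ∀ s : S, algebraMap S v s = algOf v hS s := fun _ => rfl
  have hval : ∀ s : S, ((algebraMap S v s : v) : F) = algebraMap S F s := fun _ => rfl
  let T := Localization.AtPrime (cen v hS)
  have hT : IsDiscreteValuationRing T :=
    IsLocalization.AtPrime.isDiscreteValuationRing_of_dedekind_domain S hne T
  -- total comparability
  have total : ∀ a b : S, ∃ c s : S, s ∉ cen v hS ∧ (a * s = b * c ∨ b * s = a * c) := by
    intro a b
    have htot := ValuationRing.dvd_total (algebraMap S T b) (algebraMap S T a)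
    have hinj : Function.Injective (algebraMap S T) :=
      IsLocalization.injective T (cen v hS).primeCompl_le_nonZeroDivisors
    rcases htot with ⟨c, hc⟩ | ⟨c, hc⟩
    · obtain ⟨⟨c', s⟩, hcs⟩ := IsLocalization.surj (cen v hS).primeCompl c
      refine ⟨c', s, s.2, Or.inl ?_⟩
      apply hinj
      rw [map_mul, map_mul, hc, mul_assoc]
      congr 1
    · obtain ⟨⟨c', s⟩, hcs⟩ := IsLocalization.surj (cen v hS).primeCompl c
      refine ⟨c', s, s.2, Or.inr ?_⟩
      apply hinj
      rw [map_mul, map_mul, hc, mul_assoc]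
      congr 1
  refine ⟨?_, ?_, ?_⟩
  · rintro ⟨y, hy⟩
    by_contra hcon
    apply hy
    rw [SetLike.mem_coe, cen, Ideal.mem_comap, IsLocalRing.mem_maximalIdeal]
    exact hcon
  · intro z
    obtain ⟨a, b, hb, hab⟩ := IsFractionRing.div_surjective (A := S) (z : F)
    have hb0 : algebraMap S F b ≠ 0 := by
      rw [Ne, IsFractionRing.to_map_eq_zero_iff]; exact nonZeroDivisors.ne_zero hb
    obtain ⟨c, s, hs, h | h⟩ := total a b
    · refine ⟨(c, ⟨s, hs⟩), ?_⟩
      apply Subtype.ext
      change (z : F) * algebraMap S F s = algebraMap S F c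
      rw [← hab, div_mul_eq_mul_div, div_eq_iff hb0, ← map_mul, ← map_mul, h, mul_comm]
    · -- x⁻¹ = c / s
      by_cases ha : a = 0
      · refine ⟨(0, ⟨1, fun h1 => ?_⟩), ?_⟩
        · exact (inferInstance : (cen v hS).IsPrime).ne_top ((Ideal.eq_top_iff_one _).mpr h1)
        · apply Subtype.ext
          change (z : F) * algebraMap S F 1 = algebraMap S F 0
          rw [← hab, ha]; simp
      have ha0 : algebraMap S F a ≠ 0 := by
        rw [Ne, IsFractionRing.to_map_eq_zero_iff]; exact ha
      have hs0 : s ≠ 0 := fun h => hs (h ▸ Ideal.zero_mem _)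
      have hs00 : algebraMap S F s ≠ 0 := by
        rw [Ne, IsFractionRing.to_map_eq_zero_iff]; exact hs0
      by_cases hc : c ∈ cen v hS
      · exfalso
        rw [mem_cen_iff] at hc hs
        push Not at hs
        have hb00 : b ≠ 0 := nonZeroDivisors.ne_zero hb
        have hc0 : c ≠ 0 := by
          intro h0; rw [h0, mul_zero] at h
          exact (mul_ne_zero hb00 hs0) h
        have hc1 := hc.resolve_left hc0
        apply hc1
        have hc00 : algebraMap S F c ≠ 0 := by
          rw [Ne, IsFractionRing.to_map_eq_zero_iff]; exact hc0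
        -- 1/c = (a/b) * (1/s)
        have : (algebraMap S F c)⁻¹ = (z : F) * (algebraMap S F s)⁻¹ := by
          rw [← hab]
          have h' := congrArg (algebraMap S F) h
          rw [map_mul, map_mul] at h'
          field_simp
          rw [h', mul_comm]
        rw [this]
        exact v.mul_mem _ _ z.2 hs.2
      · refine ⟨(s, ⟨c, hc⟩), ?_⟩
        apply Subtype.ext
        change (z : F) * algebraMap S F c = algebraMap S F s
        rw [← hab, div_mul_eq_mul_div, div_eq_iff hb0, ← map_mul, ← map_mul, ← h, mul_comm]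
  · intro x y hxy
    refine ⟨1, ?_⟩
    have := congrArg Subtype.val hxy
    rw [hval, hval] at this
    rw [IsFractionRing.injective S F this]

end Dedekind


/-! ### Function fields of one variable -/

/-- `F` is an algebraic function field of one variable over `k`. -/
structure IsFunctionField (k F : Type u) [Field k] [Field F] [Algebra k F] : Prop where
  trdeg_eq : Algebra.trdeg k F = 1
  ess : Algebra.EssFiniteType k F

section FF

variable {k F : Type u} [Field k] [Field F] [Algebra k F]

open IntermediateField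

theorem IsFunctionField.finiteDimensional (h : IsFunctionField k F) {f : F}
    (hf : Transcendental k f) : FiniteDimensional k⟮f⟯ F := by
  have h1 : AlgebraicIndependent k (fun _ : Unit => f) := algebraicIndependent_unique_type_iff.mpr hf
  have h2 : IsTranscendenceBasis k (fun _ : Unit => f) :=
    h1.isTranscendenceBasis_of_lift_trdeg_le_of_finite (by
      rw [h.trdeg_eq]; simp)
  have h3 := h2.isAlgebraic_field
  have h4 : Set.range (fun _ : Unit => f) = {f} := by ext; simp [eq_comm]
  rw [h4] at h3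
  have := h.ess
  have h5 : Algebra.EssFiniteType k⟮f⟯ F := Algebra.EssFiniteType.of_comp k k⟮f⟯ F
  obtain ⟨s, hs⟩ := IntermediateField.fg_top k⟮f⟯ F
  have h6 : FiniteDimensional k⟮f⟯ (adjoin k⟮f⟯ (s : Set F)) :=
    IntermediateField.finiteDimensional_adjoin fun x _ => (Algebra.IsIntegral.isIntegral x)
  rw [hs] at h6
  exact Module.Finite.equiv (IntermediateField.topEquiv (F := k⟮f⟯) (E := F)).toLinearEquiv

end FF

end Pool.Agent.Lib.MP_cc17a8_ag
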