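import Mathlib
import Pool.Agent.Lib.MP_cc17a8_ag.PlacesBasic

open scoped nonZeroDivisors

namespace Pool.Agent.Lib.MP_cc17a8_ag

universe u

theorem ord_ringEquiv {R R' : Type*} [CommRing R] [CommRing R'] (e : R ≃+* R') (x : R) :
    Ring.ord R x = Ring.ord R' (e x) := by
  let _ : Algebra R R' := e.toRingHom.toAlgebra
  have hmap : ∀ r : R, algebraMap R R' r = e r := fun _ => rfl
  rw [Ring.ord, Ring.ord]
  have h1 : Module.length R (R' ⧸ Ideal.span {e x}) = Module.length R' (R' ⧸ Ideal.span {e x}) :=
    Module.length_eq_of_surjective e.surjective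
  rw [← h1]
  let el : R ≃ₐ[R] R' := AlgEquiv.ofRingEquiv (f := e) (fun r => rfl)
  refine LinearEquiv.length_eq (Ideal.quotientEquivAlg _ _ el ?_).toLinearEquiv
  rw [Ideal.map_span, Set.image_singleton]
  rfl

section

variable {A S F : Type u} [CommRing A] [IsDomain A] [CommRing S] [IsDedekindDomain S] [Field F]
  [Algebra A S] [Algebra S F] [Algebra A F] [IsScalarTower A S F] [IsFractionRing S F]
  [Module.IsTorsionFree A S]

theorem cen_injective {v w : ValuationSubring F} (hv : v ≠ ⊤) 
    (hvS : ∀ s : S, algebraMap S F s ∈ v) (hwS : ∀ s : S, algebraMap S F s ∈ w)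
    (h : cen v hvS = cen w hwS) : v ≤ w := by
  obtain ⟨h1, h2⟩ := isLocalization_of_place v hv hvS
  let _ : Algebra S v := (algOf v hvS).toAlgebra
  intro x hx
  obtain ⟨⟨a, s⟩, has⟩ := IsLocalization.surj (cen v hvS).primeCompl (⟨x, hx⟩ : v)
  have h3 : x * algebraMap S F s = algebraMap S F a := congrArg Subtype.val has
  have hs : (s : S) ∉ cen w hwS := by rw [← h]; exact s.2
  rw [mem_cen_iff] at hs
  push Not at hs
  have hs00 : algebraMap S F s ≠ 0 := by
    rw [Ne, IsFractionRing.to_map_eq_zero_iff]; exact hs.1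
  have h4 : x = algebraMap S F a * (algebraMap S F s)⁻¹ := by
    rw [← h3]; field_simp
  rw [h4]
  exact w.mul_mem _ _ (hwS a) hs.2

omit [IsDedekindDomain S] in
theorem exists_cen_eq [IsDomain S] (q : Ideal S) [q.IsPrime] :
    ∃ (v : ValuationSubring F) (hS : ∀ s : S, algebraMap S F s ∈ v), cen v hS = q := by
  let T := Localization.AtPrime q
  have hunit : ∀ y : q.primeCompl, IsUnit (algebraMap S F y) := by
    intro y
    rw [isUnit_iff_ne_zero, Ne, IsFractionRing.to_map_eq_zero_iff]
    rintro h0
    apply y.2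
    rw [h0]; exact Ideal.zero_mem _
  let g : T →+* F := IsLocalization.lift (M := q.primeCompl) hunit
  obtain ⟨v, hv, hloc⟩ := IsLocalRing.exists_factor_valuationRing g
  have hg : ∀ s : S, g (algebraMap S T s) = algebraMap S F s := fun s =>
    IsLocalization.lift_eq hunit s
  refine ⟨v, fun s => by rw [← hg]; exact hv _, ?_⟩
  ext s
  rw [cen, Ideal.mem_comap]
  have h1 : algOf v (fun s => by rw [← hg]; exact hv _) s
      = g.codRestrict v.toSubring hv (algebraMap S T s) := by
    apply Subtype.ext
    exact (hg s).symm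
  rw [h1, IsLocalRing.mem_maximalIdeal, mem_nonunits_iff]
  have h2 : IsUnit (g.codRestrict v.toSubring hv (algebraMap S T s)) ↔ IsUnit (algebraMap S T s) :=
    isUnit_map_iff _ _
  rw [h2, ← mem_nonunits_iff, ← IsLocalRing.mem_maximalIdeal,
    IsLocalization.AtPrime.to_map_mem_maximal_iff T q]

theorem isDVR_of_place {v : ValuationSubring F} (hv : v ≠ ⊤)
    (hvS : ∀ s : S, algebraMap S F s ∈ v) : IsDiscreteValuationRing v := by
  obtain ⟨h1, h2⟩ := isLocalization_of_place v hv hvS
  let _ : Algebra S v := (algOf v hvS).toAlgebra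
  exact IsLocalization.AtPrime.isDiscreteValuationRing_of_dedekind_domain S h1 v

theorem ordAt_eq_ramificationIdx {v : ValuationSubring F} (hv : v ≠ ⊤)
    (hvS : ∀ s : S, algebraMap S F s ∈ v) (f0 : A) (hf0 : f0 ≠ 0)
    (hp : (cen v hvS).LiesOver (Ideal.span {f0})) :
    ordAt v (algebraMap A F f0) = (cen v hvS).ramificationIdx A := by
  have := isDVR_of_place hv hvS
  obtain ⟨h1, h2⟩ := isLocalization_of_place v hv hvS
  let _ : Algebra S v := (algOf v hvS).toAlgebra
  have hf : algebraMap A F f0 = algebraMap S F (algebraMap A S f0) :=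
    IsScalarTower.algebraMap_apply A S F f0
  have hf0S : algebraMap A S f0 ≠ 0 := by
    intro h
    apply hf0
    exact (FaithfulSMul.algebraMap_injective A S) (by rw [h, map_zero])
  have hfF : algebraMap A F f0 ≠ 0 := by
    rw [hf, Ne, IsFractionRing.to_map_eq_zero_iff]; exact hf0S
  have hmem : algebraMap A F f0 ∈ v := by rw [hf]; exact hvS _
  rw [ordAt_eq_toNat v hmem hfF, Ideal.ramificationIdx_eq (Ideal.span {f0}) (cen v hvS)]
  congr 2
  rw [Ideal.map_span, Set.image_singleton]
  let e := IsLocalization.algEquiv (cen v hvS).primeCompl v (Localization.AtPrime (cen v hvS))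
  rw [ord_ringEquiv e.toRingEquiv]
  change Ring.ord _ _ = Ring.ord _ _
  congr 1
  have h3 : (⟨algebraMap A F f0, hmem⟩ : v) = algebraMap S v (algebraMap A S f0) :=
    Subtype.ext hf
  rw [h3]
  change e _ = _
  rw [e.commutes, ← IsScalarTower.algebraMap_apply A S]


/-- Zeros of `f`: the number of zeros with multiplicity is the degree. -/
theorem sum_zeros [Module.Finite A S] [Module.Flat A S] (f0 : A) (hf0 : f0 ≠ 0)
    (hmax : (Ideal.span {f0}).IsMaximal)
    (hin : ∀ q ∈ (Ideal.span {f0}).primesOver S, q.inertiaDeg A = 1) :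
    {v : ValuationSubring F | (∀ s : S, algebraMap S F s ∈ v) ∧ (algebraMap A F f0)⁻¹ ∉ v}.Finite ∧
    ∑ᶠ v ∈ {v : ValuationSubring F |
        (∀ s : S, algebraMap S F s ∈ v) ∧ (algebraMap A F f0)⁻¹ ∉ v},
      ordAt v (algebraMap A F f0) = Module.finrank A S := by
  classical
  set p : Ideal A := Ideal.span {f0} with hp
  set Z : Set (ValuationSubring F) := {v : ValuationSubring F |
    (∀ s : S, algebraMap S F s ∈ v) ∧ (algebraMap A F f0)⁻¹ ∉ v} with hZ
  have hfF : algebraMap A F f0 = algebraMap S F (algebraMap A S f0) :=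
    IsScalarTower.algebraMap_apply A S F f0
  have hZtop : ∀ v ∈ Z, v ≠ ⊤ := by
    rintro v ⟨-, hv⟩ rfl
    exact hv (ValuationSubring.mem_top _)
  have hover : ∀ v (hv : v ∈ Z), (cen v hv.1).LiesOver p := by
    intro v hv
    constructor
    have h1 : p ≤ (cen v hv.1).under A := by
      rw [hp, Ideal.span_le, Set.singleton_subset_iff, SetLike.mem_coe, Ideal.under_def,
        Ideal.mem_comap, mem_cen_iff]
      right
      rw [← hfF]; exact hv.2
    exact hmax.eq_of_le (Ideal.IsPrime.ne_top inferInstance) h1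
  let e : Z → p.primesOver S := fun v => ⟨cen v.1 v.2.1, inferInstance, hover v.1 v.2⟩
  have he : Function.Bijective e := by
    constructor
    · intro v w hvw
      have h := congrArg Subtype.val hvw
      apply Subtype.ext
      exact le_antisymm (cen_injective (hZtop _ v.2) v.2.1 w.2.1 h)
        (cen_injective (hZtop _ w.2) w.2.1 v.2.1 h.symm)
    · rintro ⟨q, hq, hqp⟩
      obtain ⟨v, hS, hv⟩ := exists_cen_eq (F := F) q
      have hvZ : v ∈ Z := by
        refine ⟨hS, ?_⟩
        have h1 : algebraMap A S f0 ∈ cen v hS := by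
          rw [hv]
          have : f0 ∈ q.under A := by
            rw [← hqp.over]; exact Ideal.subset_span rfl
          exact this
        rw [mem_cen_iff] at h1
        rw [hfF]
        apply h1.resolve_left
        intro h
        apply hf0
        exact (FaithfulSMul.algebraMap_injective A S) (by rw [h, map_zero])
      exact ⟨⟨v, hvZ⟩, Subtype.ext hv⟩
  have hfin : Finite (p.primesOver S) := Algebra.QuasiFinite.finite_primesOver p
  have hZfin : Finite Z := Finite.of_injective e he.1
  refine ⟨hZfin, ?_⟩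
  rw [← finsum_set_coe_eq_finsum_mem (s := Z)]
  let _ : Fintype (p.primesOver S) := Fintype.ofFinite _
  rw [← Ideal.sum_ramification_inertia_eq_finrank p S, Nat.cast_sum, ← finsum_eq_sum_of_fintype]
  refine finsum_eq_of_bijective e he ?_
  intro v
  rw [hin _ (e v).2, mul_one]
  exact ordAt_eq_ramificationIdx (hZtop _ v.2) v.2.1 f0 hf0 (hover _ v.2)

end

end Pool.Agent.Lib.MP_cc17a8_ag
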