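import Mathlib
import Pool.Agent.Lib.MP_cc17a8_ag.Defs

open AlgebraicGeometry CategoryTheory

universe u

namespace Pool.Agent.Lib.MP_cc17a8_ag

section

variable {X : Scheme.{u}} {F : Type u} [Field F] {x : X}

/-- From a center one gets a morphism from `Spec v`. -/
theorem IsCenter.exists_lift {g : X.presheaf.stalk x →+* F} {v : ValuationSubring F} {c : X}
    (h : IsCenter g v c) :
    ∃ l : Spec (.of v) ⟶ X, l (IsLocalRing.closedPoint v) = c ∧
      Spec.map (CommRingCat.ofHom (algebraMap v F)) ≫ l =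
        Spec.map (CommRingCat.ofHom g) ≫ X.fromSpecStalk x := by
  obtain ⟨hs, h⟩ := h
  let g' : X.presheaf.stalk c →+* F := g.comp (X.presheaf.stalkSpecializes hs).hom
  have hg' : ∀ s, g' s ∈ v := by
    intro s
    have := (h s).1
    rwa [ValuationSubring.valuation_le_one_iff] at this
  let j : X.presheaf.stalk c →+* v := g'.codRestrict v.toSubring hg'
  have hj : IsLocalHom j := by
    constructor
    intro s hs'
    by_contra hcon
    have h1 := (h s).2 hcon
    rw [ValuationSubring.valuation_eq_one_iff] at hs'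
    have h2 : ((j s : v) : F) = g (X.presheaf.stalkSpecializes hs s) := rfl
    rw [h2] at hs'
    exact absurd hs' h1.ne
  refine ⟨Spec.map (CommRingCat.ofHom j) ≫ X.fromSpecStalk c, ?_, ?_⟩
  · rw [Scheme.Hom.comp_apply]
    have : Spec.map (CommRingCat.ofHom j) (IsLocalRing.closedPoint v) =
        IsLocalRing.closedPoint (X.presheaf.stalk c) := IsLocalRing.comap_closedPoint j
    rw [this]
    exact Scheme.fromSpecStalk_closedPoint
  · rw [← Scheme.SpecMap_stalkSpecializes_fromSpecStalk hs, ← Category.assoc, ← Category.assoc,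
      ← Spec.map_comp, ← Spec.map_comp]
    rfl

theorem isCenter_of_lift {g : X.presheaf.stalk x →+* F} [IsLocalHom g] {v : ValuationSubring F}
    (l : Spec (.of v) ⟶ X)
    (hl : Spec.map (CommRingCat.ofHom (algebraMap v F)) ≫ l =
        Spec.map (CommRingCat.ofHom g) ≫ X.fromSpecStalk x) :
    IsCenter g v (l (IsLocalRing.closedPoint v)) := by
  set c := l (IsLocalRing.closedPoint v) with hc
  have hx : (Spec.map (CommRingCat.ofHom (algebraMap v F)) ≫ l) (IsLocalRing.closedPoint F) = x := by
    rw [hl, Scheme.Hom.comp_apply]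
    have : Spec.map (CommRingCat.ofHom g) (IsLocalRing.closedPoint F) =
        IsLocalRing.closedPoint (X.presheaf.stalk x) := IsLocalRing.comap_closedPoint g
    rw [this]
    exact Scheme.fromSpecStalk_closedPoint
  have hsp : x ⤳ c := by
    rw [← hx, Scheme.Hom.comp_apply, hc]
    exact (IsLocalRing.specializes_closedPoint _).map l.continuous
  refine ⟨hsp, ?_⟩
  let j := Scheme.stalkClosedPointTo l
  have hj : IsLocalHom j.hom := Scheme.isLocalHom_stalkClosedPointTo' l
  have hlj : Spec.map j ≫ X.fromSpecStalk c = l := Scheme.Spec_stalkClosedPointTo_fromSpecStalk l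
  have key : j ≫ CommRingCat.ofHom (algebraMap v F) =
      X.presheaf.stalkSpecializes hsp ≫ CommRingCat.ofHom g := by
    rw [← Spec.map_inj, ← cancel_mono (X.fromSpecStalk c), Spec.map_comp, Spec.map_comp,
      Category.assoc, Category.assoc, hlj, Scheme.SpecMap_stalkSpecializes_fromSpecStalk, hl]
    rfl
  have key' : ∀ s, ((j s : v) : F) = g (X.presheaf.stalkSpecializes hsp s) := by
    intro s
    exact congrArg (fun t => t.hom s) key
  intro s
  rw [evalGerm, ← key']
  refine ⟨v.valuation_le_one _, fun hs => ?_⟩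
  have : ¬ IsUnit (j s) := fun h => hs (hj.map_nonunit s h)
  rw [ValuationSubring.valuation_eq_one_iff] at this
  exact lt_of_le_of_ne (v.valuation_le_one _) this

variable {k : Type u} [Field k]

theorem isCenter_iff_lift {g : X.presheaf.stalk x →+* F} [IsLocalHom g] {v : ValuationSubring F}
    {c : X} :
    IsCenter g v c ↔ ∃ l : Spec (.of v) ⟶ X, l (IsLocalRing.closedPoint v) = c ∧
      Spec.map (CommRingCat.ofHom (algebraMap v F)) ≫ l =
        Spec.map (CommRingCat.ofHom g) ≫ X.fromSpecStalk x := by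
  constructor
  · exact IsCenter.exists_lift
  · rintro ⟨l, rfl, hl⟩
    exact isCenter_of_lift l hl

theorem comp_fromSpecStalk (f : X ⟶ Spec (.of k)) (x : X) :
    X.fromSpecStalk x ≫ f = Spec.map (CommRingCat.ofHom (constants f x)) := by
  have h1 : f = X.toSpecΓ ≫ Spec.map f.appTop ≫ Spec.map (Scheme.ΓSpecIso (.of k)).inv := by
    rw [← Scheme.toSpecΓ_naturality_assoc, ← SpecMap_ΓSpecIso_hom, ← Spec.map_comp]
    simp
  conv_lhs => rw [h1]
  rw [Scheme.fromSpecStalk_toSpecΓ_assoc, ← Spec.map_comp, ← Spec.map_comp]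
  rfl

theorem exists_isCenter (f : X ⟶ Spec (.of k)) [IsProper f] (g : X.presheaf.stalk x →+* F)
    [IsLocalHom g] {v : ValuationSubring F} (hv : ∀ a, g (constants f x a) ∈ v) :
    ∃ c, IsCenter g v c := by
  have hval : ValuativeCriterion f := by
    have h : @IsProper _ _ f := inferInstance
    rw [IsProper.eq_valuativeCriterion] at h
    exact h.1.1.1
  let k' : k →+* v := (g.comp (constants f x)).codRestrict v.toSubring hv
  have hsq : CommSq (Spec.map (CommRingCat.ofHom g) ≫ X.fromSpecStalk x)
      (Spec.map (CommRingCat.ofHom (algebraMap v F))) f (Spec.map (CommRingCat.ofHom k')) := by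
    constructor
    rw [Category.assoc, comp_fromSpecStalk, ← Spec.map_comp, ← Spec.map_comp]
    rfl
  obtain ⟨l, hl1, hl2⟩ := (hval.existence ⟨v, F, _, _, hsq⟩).exists_lift
  exact ⟨_, isCenter_of_lift l hl1⟩

theorem IsCenter.unique (f : X ⟶ Spec (.of k)) [IsSeparated f] {g : X.presheaf.stalk x →+* F}
    [IsLocalHom g] {v : ValuationSubring F}
    {c c' : X} (hc : IsCenter g v c) (hc' : IsCenter g v c') : c = c' := by
  obtain ⟨l, hl, hl2⟩ := hc.exists_lift
  obtain ⟨l', hl', hl2'⟩ := hc'.exists_lift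
  have hval : ValuativeCriterion.Uniqueness f := IsSeparated.valuativeCriterion f
  have hk : l ≫ f = l' ≫ f := by
    obtain ⟨a, ha⟩ := Spec.map_surjective (l ≫ f)
    obtain ⟨b, hb⟩ := Spec.map_surjective (l' ≫ f)
    rw [← ha, ← hb]
    have h1 : Spec.map (CommRingCat.ofHom (algebraMap v F)) ≫ Spec.map a =
        Spec.map (CommRingCat.ofHom (algebraMap v F)) ≫ Spec.map b := by
      rw [ha, hb, ← Category.assoc, ← Category.assoc, hl2, hl2']
    rw [← Spec.map_comp, ← Spec.map_comp, Spec.map_inj] at h1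
    rw [Spec.map_inj]
    ext t
    have h2 := congrArg (fun r => r.hom t) h1
    exact h2
  have hsq : CommSq (Spec.map (CommRingCat.ofHom g) ≫ X.fromSpecStalk x)
      (Spec.map (CommRingCat.ofHom (algebraMap v F))) f (l ≫ f) := by
    constructor
    rw [← hl2, Category.assoc]
  have := hval ⟨v, F, _, _, hsq⟩
  have h3 := this.elim ⟨l, hl2, rfl⟩ ⟨l', hl2', hk.symm⟩
  have h4 : l = l' := congrArg (fun t => t.l) h3
  rw [← hl, ← hl', h4]

theorem isCenter_center (f : X ⟶ Spec (.of k)) [IsProper f] (g : X.presheaf.stalk x →+* F)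
    [IsLocalHom g] {v : ValuationSubring F} (hv : ∀ a, g (constants f x a) ∈ v) :
    IsCenter g v (center g v) := by
  have h := exists_isCenter f g hv
  rw [center, dif_pos h]
  exact h.choose_spec

theorem IsCenter.center_eq (f : X ⟶ Spec (.of k)) [IsSeparated f] {g : X.presheaf.stalk x →+* F}
    [IsLocalHom g] {v : ValuationSubring F} {c : X} (hc : IsCenter g v c) : center g v = c := by
  have h : ∃ c, IsCenter g v c := ⟨c, hc⟩
  rw [center, dif_pos h]
  exact IsCenter.unique f h.choose_spec hc

theorem isCenter_self (g : X.presheaf.stalk x →+* F) [IsLocalHom g] {v : ValuationSubring F}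
    (hv : ∀ s, g s ∈ v) : IsCenter g v x := by
  refine ⟨specializes_rfl, fun s => ?_⟩
  rw [ValuationSubring.valuation_le_one_iff, evalGerm, TopCat.Presheaf.stalkSpecializes_refl]
  refine ⟨hv _, fun hs => ?_⟩
  have : g s = 0 := by
    by_contra h
    exact hs (isUnit_of_map_unit g s (isUnit_iff_ne_zero.mpr h))
  change v.valuation (g s) < 1
  rw [this, map_zero]
  exact zero_lt_one

instance isLocalHom_comp_stalkMap {Y : Scheme.{u}} (φ : X ⟶ Y) (g : X.presheaf.stalk x →+* F)
    [IsLocalHom g] : IsLocalHom (g.comp (φ.stalkMap x).hom) :=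
  RingHom.isLocalHom_comp _ _

theorem IsCenter.map {Y : Scheme.{u}} (φ : X ⟶ Y) {g : X.presheaf.stalk x →+* F} [IsLocalHom g]
    {v : ValuationSubring F} {c : X} (h : IsCenter g v c) :
    IsCenter (g.comp (φ.stalkMap x).hom) v (φ c) := by
  obtain ⟨l, hl, hl2⟩ := h.exists_lift
  have : φ c = (l ≫ φ) (IsLocalRing.closedPoint v) := by
    rw [Scheme.Hom.comp_apply, hl]
  rw [this]
  apply isCenter_of_lift
  rw [← Category.assoc, hl2, Category.assoc, ← Scheme.SpecMap_stalkMap_fromSpecStalk,
    ← Category.assoc, ← Spec.map_comp]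
  rfl

end

end Pool.Agent.Lib.MP_cc17a8_ag
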