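import Mathlib
import Pool.Agent.Lib.MP_cc17a8_ag.PlacesDedekind

open scoped nonZeroDivisors

namespace Pool.Agent.Lib.MP_cc17a8_ag

universe u

section FF

variable {k F : Type u} [Field k] [Field F] [Algebra k F]

open IntermediateField algebraAdjoinAdjoin Polynomial

/-- A place of `F / k`: a valuation subring of `F` containing `k`, different from `F`. -/
def IsPlace (k : Type u) {F : Type u} [Field k] [Field F] [Algebra k F] (v : ValuationSubring F) :
    Prop :=
  (∀ a : k, algebraMap k F a ∈ v) ∧ v ≠ ⊤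

theorem transcendental_of_not_mem_inv [IsAlgClosed k] {v : ValuationSubring F}
    (hv : ∀ a : k, algebraMap k F a ∈ v) {f : F} (hf : f⁻¹ ∉ v) : Transcendental k f := by
  intro h
  have h1 : FiniteDimensional k k⟮f⟯ := IntermediateField.adjoin.finiteDimensional h.isIntegral
  have h2 : k⟮f⟯ = ⊥ := IntermediateField.eq_bot_of_isAlgClosed_of_isAlgebraic _
  have h3 : f ∈ k⟮f⟯ := IntermediateField.mem_adjoin_simple_self k f
  rw [h2, IntermediateField.mem_bot] at h3
  obtain ⟨a, ha⟩ := h3
  apply hf
  rw [← ha, ← map_inv₀]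
  exact hv _

theorem zeros_of_transcendental [CharZero k] [IsAlgClosed k] (hF : IsFunctionField k F) {f : F}
    (hf : Transcendental k f) :
    {v : ValuationSubring F | (∀ a : k, algebraMap k F a ∈ v) ∧ f ∈ v ∧ f⁻¹ ∉ v}.Finite ∧
    (∀ v ∈ {v : ValuationSubring F | (∀ a : k, algebraMap k F a ∈ v) ∧ f ∈ v ∧ f⁻¹ ∉ v},
      IsDiscreteValuationRing v) ∧
    ∑ᶠ v ∈ {v : ValuationSubring F | (∀ a : k, algebraMap k F a ∈ v) ∧ f ∈ v ∧ f⁻¹ ∉ v},
      ordAt v f = Module.finrank k⟮f⟯ F := by
  have hfd : FiniteDimensional k⟮f⟯ F := hF.finiteDimensional hf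
  have hcz : CharZero k⟮f⟯ := charZero_of_injective_algebraMap (algebraMap k k⟮f⟯).injective
  let A := Algebra.adjoin k {f}
  let eA : k[X] ≃ₐ[k] A := Polynomial.algEquivOfTranscendental k f hf
  have heA : ∀ P : k[X], ((eA P : A) : F) = aeval f P := by
    intro P
    have h := Polynomial.algEquivOfTranscendental_apply (R := k) f hf P
    change ((Polynomial.algEquivOfTranscendental k f hf P : A) : F) = _
    rw [h]
    exact Polynomial.aeval_subalgebra_coe P A _
  let f0 : A := ⟨f, Algebra.self_mem_adjoin_singleton k f⟩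
  have heAX : eA X = f0 := by
    apply Subtype.ext
    rw [heA]; simp [f0]
  have hPID : IsPrincipalIdealRing A := 
    IsPrincipalIdealRing.of_surjective eA.toRingEquiv eA.surjective
  let S := integralClosure A F
  have hDed : IsDedekindDomain S := IsIntegralClosure.isDedekindDomain A k⟮f⟯ F S
  have hfin : Module.Finite A S := IsIntegralClosure.finite A k⟮f⟯ F S
  have hrank : Module.finrank A S = Module.finrank k⟮f⟯ F := IsIntegralClosure.rank A k⟮f⟯ F S
  have hfrac : IsFractionRing S F := IsIntegralClosure.isFractionRing_of_finite_extension A k⟮f⟯ F S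
  have hfree : Module.Free A S := IsIntegralClosure.module_free A k⟮f⟯ F S
  have htf : Module.IsTorsionFree A S := inferInstance
  have hf00 : f ≠ 0 := by
    rintro rfl
    exact hf (isAlgebraic_zero)
  have hf0 : f0 ≠ 0 := fun h => hf00 (congrArg Subtype.val h)
  have hspan : Ideal.span {f0} = Ideal.map eA.toRingEquiv (Ideal.span {(X : k[X])}) := by
    rw [Ideal.map_span, Set.image_singleton]
    congr 2
    exact heAX.symm
  have hXmax : (Ideal.span {(X : k[X])}).IsMaximal :=
    PrincipalIdealRing.isMaximal_of_irreducible Polynomial.irreducible_X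
  have hmax : (Ideal.span {f0}).IsMaximal := by
    rw [hspan]
    exact Ideal.map_isMaximal_of_equiv eA.toRingEquiv
  have hksurj : Function.Surjective (algebraMap k (A ⧸ Ideal.span {f0})) := by
    intro y
    obtain ⟨y, rfl⟩ := Ideal.Quotient.mk_surjective y
    obtain ⟨P, rfl⟩ := eA.surjective y
    refine ⟨P.coeff 0, ?_⟩
    rw [IsScalarTower.algebraMap_apply k A (A ⧸ Ideal.span {f0}), Ideal.Quotient.algebraMap_eq,
      Ideal.Quotient.eq, hspan, ← eA.commutes]
    change eA _ - eA P ∈ _
    rw [← map_sub]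
    refine Ideal.mem_map_of_mem eA.toRingEquiv (I := Ideal.span {(X : k[X])}) ?_
    rw [Ideal.mem_span_singleton, X_dvd_iff]
    simp
  have hin : ∀ q ∈ (Ideal.span {f0}).primesOver S, q.inertiaDeg A = 1 := by
    rintro q ⟨hq, hqo⟩
    have hqm : q.IsMaximal := Ideal.IsMaximal.of_liesOver_isMaximal q (Ideal.span {f0})
    rw [Ideal.inertiaDeg_eq_of_isMaximal (Ideal.span {f0}) q]
    let _ : Field (A ⧸ Ideal.span {f0}) := Ideal.Quotient.field _
    let _ : Field (S ⧸ q) := Ideal.Quotient.field _
    have hac : IsAlgClosed (A ⧸ Ideal.span {f0}) := 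
      IsAlgClosed.of_ringEquiv k _ (RingEquiv.ofBijective (algebraMap k (A ⧸ Ideal.span {f0}))
        ⟨(algebraMap k (A ⧸ Ideal.span {f0})).injective, hksurj⟩)
    have hbij : Function.Bijective (algebraMap (A ⧸ Ideal.span {f0}) (S ⧸ q)) :=
      IsAlgClosed.algebraMap_bijective_of_isIntegral
    rw [← (AlgEquiv.ofBijective (Algebra.ofId (A ⧸ Ideal.span {f0}) (S ⧸ q)) hbij).toLinearEquiv.finrank_eq]
    exact Module.finrank_self _
  have key := sum_zeros (F := F) (A := A) (S := S) f0 hf0 hmax hin
  have hfF : algebraMap A F f0 = f := rfl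
  have hset : {v : ValuationSubring F | (∀ s : S, algebraMap S F s ∈ v) ∧ (algebraMap A F f0)⁻¹ ∉ v}
      = {v : ValuationSubring F | (∀ a : k, algebraMap k F a ∈ v) ∧ f ∈ v ∧ f⁻¹ ∉ v} := by
    ext v
    rw [hfF]
    constructor
    · rintro ⟨h1, h2⟩
      refine ⟨fun a => ?_, ?_, h2⟩
      · have := h1 (algebraMap k S a)
        exact this
      · have := h1 (algebraMap A S f0)
        exact this
    · rintro ⟨h1, h2, h3⟩
      refine ⟨?_, h3⟩
      have hA : ∀ a : A, (a : F) ∈ v := by
        intro a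
        let vs : Subalgebra k F := { v.toSubring with algebraMap_mem' := h1 }
        have : Algebra.adjoin k {f} ≤ vs := by
          rw [Algebra.adjoin_le_iff, Set.singleton_subset_iff]
          exact h2
        exact this a.2
      intro s
      have hs : IsIntegral A (s : F) := s.2
      let _ : Algebra A v := (RingHom.codRestrict (algebraMap A F) v.toSubring hA).toAlgebra
      have : IsScalarTower A v F := IsScalarTower.of_algebraMap_eq fun _ => rfl
      have hs' : IsIntegral v (s : F) := hs.tower_top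
      obtain ⟨y, hy⟩ := IsIntegrallyClosed.isIntegral_iff.mp hs'
      have : algebraMap S F s = (y : F) := hy.symm
      rw [this]; exact y.2
  rw [hset] at key
  refine ⟨key.1, ?_, ?_⟩
  · intro v hv
    have hv' := hv
    rw [← hset] at hv'
    refine isDVR_of_place (S := S) ?_ hv'.1
    rintro rfl
    exact hv'.2 (ValuationSubring.mem_top _)
  · rw [← hrank, ← key.2, hfF]

variable [CharZero k] [IsAlgClosed k]

theorem IsFunctionField.isDVR (hF : IsFunctionField k F) {v : ValuationSubring F}
    (hv : IsPlace k v) : IsDiscreteValuationRing v := by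
  have h : ∃ x, x ∉ v := by
    by_contra h
    push Not at h
    exact hv.2 (eq_top_iff.mpr fun x _ => h x)
  obtain ⟨x, hx⟩ := h
  have hx' : (x⁻¹)⁻¹ ∉ v := by rwa [inv_inv]
  have htr := transcendental_of_not_mem_inv hv.1 hx'
  refine (zeros_of_transcendental hF htr).2.1 v ⟨hv.1, ?_, hx'⟩
  exact (v.mem_or_inv_mem x).resolve_left hx

/-- The zeros of `f`. -/
def zeroSet (k : Type u) {F : Type u} [Field k] [Field F] [Algebra k F] (f : F) :
    Set (ValuationSubring F) :=
  {v : ValuationSubring F | (∀ a : k, algebraMap k F a ∈ v) ∧ f ∈ v ∧ f⁻¹ ∉ v}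

theorem IsFunctionField.ordAt_eq_zero_or (hF : IsFunctionField k F) {v : ValuationSubring F}
    (hv : IsPlace k v) (x : F) : ordAt v x = 0 ∨ v ∈ zeroSet k x ∨ v ∈ zeroSet k x⁻¹ := by
  have := hF.isDVR hv
  by_cases h1 : x ∈ v
  · by_cases h2 : x⁻¹ ∈ v
    · left
      exact ordAt_eq_zero v h1 h2
    · right; left
      exact ⟨hv.1, h1, h2⟩
  · right; right
    refine ⟨hv.1, (v.mem_or_inv_mem x).resolve_left h1, by rwa [inv_inv]⟩

omit [CharZero k] in
theorem ordAt_eq_zero_of_algebraic {v : ValuationSubring F} (hv : ∀ a : k, algebraMap k F a ∈ v)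
    {x : F} (hx : ¬ Transcendental k x) : ordAt v x = 0 := by
  by_cases h : IsDiscreteValuationRing v
  · have h1 : x⁻¹ ∈ v := by
      by_contra h1
      exact hx (transcendental_of_not_mem_inv hv h1)
    have h2 : x ∈ v := by
      by_contra h2
      have h3 : (x⁻¹)⁻¹ ∉ v := by rwa [inv_inv]
      have h4 := transcendental_of_not_mem_inv hv h3
      apply hx
      intro h5
      exact h4 h5.inv
    exact ordAt_eq_zero v h2 h1
  · rw [ordAt, dif_neg h]

theorem IsFunctionField.finite_support (hF : IsFunctionField k F) (x : F) :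
    {v : ValuationSubring F | IsPlace k v ∧ ordAt v x ≠ 0}.Finite := by
  by_cases hx : Transcendental k x
  · have hx' : Transcendental k x⁻¹ := by
      intro h
      apply hx
      have := h.inv
      rwa [inv_inv] at this
    refine ((zeros_of_transcendental hF hx).1.union (zeros_of_transcendental hF hx').1).subset ?_
    rintro v ⟨hv, h⟩
    exact (hF.ordAt_eq_zero_or hv x).resolve_left h
  · convert Set.finite_empty
    ext v
    simp only [Set.mem_ofPred_eq, Set.mem_empty_iff_false, iff_false]
    rintro ⟨hv, h⟩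
    exact h (ordAt_eq_zero_of_algebraic hv.1 hx)

omit [CharZero k] [IsAlgClosed k] in
theorem isPlace_of_mem_zeroSet {v : ValuationSubring F} {x : F} (h : v ∈ zeroSet k x) :
    IsPlace k v := by
  refine ⟨h.1, ?_⟩
  rintro rfl
  exact h.2.2 (ValuationSubring.mem_top _)

/-- The product formula. -/
theorem IsFunctionField.sum_ordAt (hF : IsFunctionField k F) (x : F) :
    ∑ᶠ v ∈ {v : ValuationSubring F | IsPlace k v}, ordAt v x = 0 := by
  by_cases hx : Transcendental k x
  · have hx' : Transcendental k x⁻¹ := by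
      intro h
      apply hx
      have := h.inv
      rwa [inv_inv] at this
    have hz := zeros_of_transcendental hF hx
    have hp := zeros_of_transcendental hF hx'
    change (zeroSet k x).Finite ∧ (∀ v ∈ zeroSet k x, _) ∧ ∑ᶠ v ∈ zeroSet k x, ordAt v x = _ at hz
    change (zeroSet k x⁻¹).Finite ∧ (∀ v ∈ zeroSet k x⁻¹, _) ∧
      ∑ᶠ v ∈ zeroSet k x⁻¹, ordAt v x⁻¹ = _ at hp
    have h1 : ∑ᶠ v ∈ {v : ValuationSubring F | IsPlace k v}, ordAt v x =
        ∑ᶠ v ∈ zeroSet k x ∪ zeroSet k x⁻¹, ordAt v x := by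
      apply finsum_mem_inter_support_eq'
      intro v hv
      rw [Function.mem_support] at hv
      constructor
      · intro h
        exact (hF.ordAt_eq_zero_or h x).resolve_left hv
      · rintro (h | h)
        · exact isPlace_of_mem_zeroSet h
        · exact isPlace_of_mem_zeroSet h
    have h2 : Disjoint (zeroSet k x) (zeroSet k x⁻¹) := by
      rw [Set.disjoint_left]
      rintro v ⟨-, h, h'⟩ ⟨-, h'', -⟩
      exact h' h''
    rw [h1, finsum_mem_union h2 hz.1 hp.1]
    have h3 : ∑ᶠ v ∈ zeroSet k x⁻¹, ordAt v x = - ∑ᶠ v ∈ zeroSet k x⁻¹, ordAt v x⁻¹ := by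
      rw [← finsum_mem_neg_distrib _ hp.1]
      apply finsum_mem_congr rfl
      intro v hv
      have := hp.2.1 v hv
      rw [ordAt_inv, neg_neg]
    have h4 : k⟮x⟯ = k⟮x⁻¹⟯ := by
      apply le_antisymm
      · rw [IntermediateField.adjoin_simple_le_iff]
        have := inv_mem (IntermediateField.mem_adjoin_simple_self k x⁻¹)
        rwa [inv_inv] at this
      · rw [IntermediateField.adjoin_simple_le_iff]
        exact inv_mem (IntermediateField.mem_adjoin_simple_self k x)
    have h5 := hz.2.2
    have h6 := hp.2.2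
    rw [h3]
    rw [h5, h6, h4]
    simp
  · rw [finsum_mem_eq_zero_of_forall_eq_zero]
    intro v hv
    exact ordAt_eq_zero_of_algebraic hv.1 hx

theorem IsFunctionField.exists_zero (hF : IsFunctionField k F) {x : F} (hx : Transcendental k x) :
    ∃ v : ValuationSubring F, IsPlace k v ∧ x ∈ v ∧ x⁻¹ ∉ v := by
  have hz := zeros_of_transcendental hF hx
  have hfd : FiniteDimensional k⟮x⟯ F := hF.finiteDimensional hx
  by_contra h
  push Not at h
  have h1 : {v : ValuationSubring F | (∀ a : k, algebraMap k F a ∈ v) ∧ x ∈ v ∧ x⁻¹ ∉ v} = ∅ := by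
    ext v
    simp only [Set.mem_ofPred_eq, Set.mem_empty_iff_false, iff_false]
    intro hv
    exact hv.2.2 (h v (isPlace_of_mem_zeroSet hv) hv.2.1)
  have h2 := hz.2.2
  rw [h1, finsum_mem_empty] at h2
  have h3 : 0 < Module.finrank k⟮x⟯ F := Module.finrank_pos
  omega

end FF

end Pool.Agent.Lib.MP_cc17a8_ag
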