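import Mathlib
import Pool.Agent.Lib.MP_cc17a8_ag.Centers
import Pool.Agent.Lib.MP_cc17a8_ag.PlacesFF

open AlgebraicGeometry CategoryTheory

universe u

namespace Pool.Agent.Lib.MP_cc17a8_ag

section

variable {X : Scheme.{u}} [IsIntegral X]

theorem algebraMap_stalkSpecializes {x c : X} (h : x ⤳ c) (a : X.presheaf.stalk c) :
    algebraMap (X.presheaf.stalk x) X.functionField (X.presheaf.stalkSpecializes h a) =
      algebraMap (X.presheaf.stalk c) X.functionField a := by
  have := TopCat.Presheaf.stalkSpecializes_comp X.presheaf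
    ((genericPoint_spec X).specializes (Set.mem_univ x)) h
  exact congrArg (fun t => t.hom a) this

theorem IsRegularAt.specializes {x c : X} (h : x ⤳ c) {r : X.functionField}
    (hr : IsRegularAt c r) : IsRegularAt x r := by
  obtain ⟨a, rfl⟩ := hr
  exact ⟨_, algebraMap_stalkSpecializes h a⟩

theorem IsUnitAt.specializes {x c : X} (h : x ⤳ c) {r : X.functionField}
    (hr : IsUnitAt c r) : IsUnitAt x r := by
  obtain ⟨a, ha, rfl⟩ := hr
  exact ⟨_, ha.map (X.presheaf.stalkSpecializes h).hom, algebraMap_stalkSpecializes h a⟩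

theorem IsUnitAt.isRegularAt {x : X} {r : X.functionField} (hr : IsUnitAt x r) :
    IsRegularAt x r := by
  obtain ⟨a, ha, rfl⟩ := hr
  exact ⟨_, rfl⟩

theorem stalk_injective (x : X) :
    Function.Injective (algebraMap (X.presheaf.stalk x) X.functionField) :=
  IsFractionRing.injective _ _

theorem IsUnitAt.ne_zero {x : X} {r : X.functionField} (hr : IsUnitAt x r) : r ≠ 0 := by
  obtain ⟨a, ha, rfl⟩ := hr
  exact (ha.map (algebraMap (X.presheaf.stalk x) X.functionField)).ne_zero

theorem IsUnitAt.mul {x : X} {r s : X.functionField} (hr : IsUnitAt x r) (hs : IsUnitAt x s) :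
    IsUnitAt x (r * s) := by
  obtain ⟨a, ha, rfl⟩ := hr
  obtain ⟨b, hb, rfl⟩ := hs
  exact ⟨a * b, ha.mul hb, map_mul _ _ _⟩

theorem IsUnitAt.inv {x : X} {r : X.functionField} (hr : IsUnitAt x r) :
    IsUnitAt x r⁻¹ := by
  obtain ⟨a, ha, rfl⟩ := hr
  obtain ⟨u, rfl⟩ := ha
  refine ⟨((u⁻¹ : _ˣ) : X.presheaf.stalk x), Units.isUnit _, ?_⟩
  apply eq_inv_of_mul_eq_one_left
  rw [← map_mul]
  simp

theorem isUnitAt_one (x : X) : IsUnitAt x (1 : X.functionField) := ⟨1, isUnit_one, map_one _⟩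

theorem IsUnitAt.div {x : X} {r s : X.functionField} (hr : IsUnitAt x r) (hs : IsUnitAt x s) :
    IsUnitAt x (r / s) := by
  rw [div_eq_mul_inv]; exact hr.mul hs.inv

theorem IsUnitAt.pow {x : X} {r : X.functionField} (hr : IsUnitAt x r) (n : ℕ) :
    IsUnitAt x (r ^ n) := by
  obtain ⟨a, ha, rfl⟩ := hr
  exact ⟨a ^ n, ha.pow n, map_pow _ _ _⟩

theorem IsRegularAt.mul {x : X} {r s : X.functionField} (hr : IsRegularAt x r)
    (hs : IsRegularAt x s) : IsRegularAt x (r * s) := by
  obtain ⟨a, rfl⟩ := hr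
  obtain ⟨b, rfl⟩ := hs
  exact ⟨a * b, map_mul _ _ _⟩

theorem IsRegularAt.pow {x : X} {r : X.functionField} (hr : IsRegularAt x r) (n : ℕ) :
    IsRegularAt x (r ^ n) := by
  obtain ⟨a, rfl⟩ := hr
  exact ⟨a ^ n, map_pow _ _ _⟩

theorem isUnitAt_iff {x : X} {r : X.functionField} :
    IsUnitAt x r ↔ r ≠ 0 ∧ IsRegularAt x r ∧ IsRegularAt x r⁻¹ := by
  constructor
  · intro h
    exact ⟨h.ne_zero, h.isRegularAt, h.inv.isRegularAt⟩
  · rintro ⟨h0, ⟨a, rfl⟩, ⟨b, hb⟩⟩
    refine ⟨a, ?_, rfl⟩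
    refine IsUnit.of_mul_eq_one b ?_
    apply stalk_injective x
    rw [map_mul, hb, map_one, mul_inv_cancel₀ h0]

theorem algebraMap_genericPoint (r : X.functionField) :
    @algebraMap (X.presheaf.stalk (genericPoint X)) X.functionField _ _
      (stalkFunctionFieldAlgebra X (genericPoint X)) r = r := by
  have := TopCat.Presheaf.stalkSpecializes_refl X.presheaf (genericPoint X)
  exact congrArg (fun t => t.hom r) this

theorem isUnitAt_genericPoint {r : X.functionField} (hr : r ≠ 0) :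
    IsUnitAt (genericPoint X) r :=
  ⟨r, isUnit_iff_ne_zero.mpr hr, algebraMap_genericPoint r⟩

variable {F : Type u} [Field F] {x : X} (g : X.presheaf.stalk x →+* F)

theorem evalAt_algebraMap (a : X.presheaf.stalk x) :
    evalAt g (algebraMap (X.presheaf.stalk x) X.functionField a) = g a := by
  have h : IsRegularAt x (algebraMap (X.presheaf.stalk x) X.functionField a) := ⟨a, rfl⟩
  rw [evalAt, dif_pos h]
  congr 1
  exact stalk_injective x h.choose_spec

theorem evalAt_mul {r s : X.functionField} (hr : IsRegularAt x r) (hs : IsRegularAt x s) :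
    evalAt g (r * s) = evalAt g r * evalAt g s := by
  obtain ⟨a, rfl⟩ := hr
  obtain ⟨b, rfl⟩ := hs
  rw [← map_mul, evalAt_algebraMap, evalAt_algebraMap, evalAt_algebraMap, map_mul]

theorem evalAt_one : evalAt g (1 : X.functionField) = 1 := by
  rw [← map_one (algebraMap (X.presheaf.stalk x) X.functionField), evalAt_algebraMap, map_one]

theorem evalAt_pow {r : X.functionField} (hr : IsRegularAt x r) (n : ℕ) :
    evalAt g (r ^ n) = evalAt g r ^ n := by
  obtain ⟨a, rfl⟩ := hr
  rw [← map_pow, evalAt_algebraMap, evalAt_algebraMap, map_pow]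

theorem evalAt_ne_zero {r : X.functionField} (hr : IsUnitAt x r) : evalAt g r ≠ 0 := by
  obtain ⟨a, ha, rfl⟩ := hr
  rw [evalAt_algebraMap]
  exact (ha.map g).ne_zero

theorem evalAt_inv {r : X.functionField} (hr : IsUnitAt x r) :
    evalAt g r⁻¹ = (evalAt g r)⁻¹ := by
  apply eq_inv_of_mul_eq_one_left
  rw [← evalAt_mul g hr.inv.isRegularAt hr.isRegularAt, inv_mul_cancel₀ hr.ne_zero, evalAt_one]

theorem evalAt_div {r s : X.functionField} (hr : IsRegularAt x r) (hs : IsUnitAt x s) :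
    evalAt g (r / s) = evalAt g r / evalAt g s := by
  rw [div_eq_mul_inv, evalAt_mul g hr hs.inv.isRegularAt, evalAt_inv g hs, div_eq_mul_inv]

variable {g}

theorem IsCenter.mem {v : ValuationSubring F} {c : X} (hc : IsCenter g v c) {r : X.functionField}
    (hr : IsRegularAt c r) : evalAt g r ∈ v := by
  obtain ⟨h, hs⟩ := hc
  obtain ⟨a, rfl⟩ := hr
  rw [← algebraMap_stalkSpecializes h, evalAt_algebraMap, ← ValuationSubring.valuation_le_one_iff]
  exact (hs a).1

theorem IsCenter.inv_notMem {v : ValuationSubring F} {c : X} (hc : IsCenter g v c)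
    {r : X.functionField} (hr : IsRegularAt c r) (hr' : ¬ IsUnitAt c r) (h0 : evalAt g r ≠ 0) :
    (evalAt g r)⁻¹ ∉ v := by
  obtain ⟨h, hs⟩ := hc
  obtain ⟨a, rfl⟩ := hr
  rw [← algebraMap_stalkSpecializes h, evalAt_algebraMap] at h0 ⊢
  have ha : ¬ IsUnit a := fun ha => hr' ⟨a, ha, rfl⟩
  have h1 := (hs a).2 ha
  rw [← ValuationSubring.valuation_le_one_iff, map_inv₀, not_le]
  rw [one_lt_inv₀]
  · exact h1
  · exact zero_lt_iff.mpr ((Valuation.ne_zero_iff _).mpr h0)

end

end Pool.Agent.Lib.MP_cc17a8_ag
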