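import Mathlib
import Pool.Agent.Lib.MP_cc17a8_ag.Eval

open AlgebraicGeometry CategoryTheory

universe u

namespace Pool.Agent.Lib.MP_cc17a8_ag

section Group

variable {X : Scheme.{u}} [IsIntegral X]

theorem CartierDivisor.ext' {D E : CartierDivisor X} (h : ∀ x, D.eqn x = E.eqn x) : D = E := by
  obtain ⟨e, _, _⟩ := D
  obtain ⟨e', _, _⟩ := E
  have : e = e' := funext h
  subst this
  rfl

noncomputable instance : Add (CartierDivisor X) where
  add D E :=
    { eqn := fun x => D.eqn x * E.eqn x
      ne_zero := fun x => mul_ne_zero (D.ne_zero x) (E.ne_zero x)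
      compat := by
        intro x
        obtain ⟨U, hxU, hU⟩ := D.compat x
        obtain ⟨V, hxV, hV⟩ := E.compat x
        refine ⟨U ⊓ V, ⟨hxU, hxV⟩, fun y hy => ?_⟩
        rw [mul_div_mul_comm]
        exact (hU y hy.1).mul (hV y hy.2) }

noncomputable instance : Zero (CartierDivisor X) where
  zero :=
    { eqn := fun _ => 1
      ne_zero := fun _ => one_ne_zero
      compat := fun x => ⟨⊤, trivial, fun y _ => by rw [div_one]; exact isUnitAt_one y⟩ }

noncomputable instance : Neg (CartierDivisor X) where
  neg D :=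
    { eqn := fun x => (D.eqn x)⁻¹
      ne_zero := fun x => inv_ne_zero (D.ne_zero x)
      compat := by
        intro x
        obtain ⟨U, hxU, hU⟩ := D.compat x
        refine ⟨U, hxU, fun y hy => ?_⟩
        have := (hU y hy).inv
        rwa [inv_div, ← inv_div_inv] at this }

theorem CartierDivisor.add_eqn (D E : CartierDivisor X) (x : X) :
    (D + E).eqn x = D.eqn x * E.eqn x := rfl

theorem CartierDivisor.zero_eqn (x : X) : (0 : CartierDivisor X).eqn x = 1 := rfl

theorem CartierDivisor.neg_eqn (D : CartierDivisor X) (x : X) :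
    (-D).eqn x = (D.eqn x)⁻¹ := rfl

noncomputable instance : AddCommGroup (CartierDivisor X) where
  add_assoc D E F := CartierDivisor.ext' fun x => mul_assoc _ _ _
  zero_add D := CartierDivisor.ext' fun x => one_mul _
  add_zero D := CartierDivisor.ext' fun x => mul_one _
  nsmul := nsmulRec
  zsmul := zsmulRec
  neg_add_cancel D := CartierDivisor.ext' fun x => inv_mul_cancel₀ (D.ne_zero x)
  add_comm D E := CartierDivisor.ext' fun x => mul_comm _ _

theorem CartierDivisor.nsmul_eqn (D : CartierDivisor X) (n : ℕ) (x : X) :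
    (n • D).eqn x = D.eqn x ^ n := by
  induction n with
  | zero => rw [zero_smul, pow_zero]; rfl
  | succ n ih => rw [succ_nsmul, CartierDivisor.add_eqn, ih, pow_succ]

end Group

theorem CartierDivisor.isUnitAt_div {X : Scheme.{u}} [IsIntegral X] (D : CartierDivisor X)
    {x c : X} (h : x ⤳ c) : IsUnitAt x (D.eqn c / D.eqn x) := by
  obtain ⟨U, hU, hU'⟩ := D.compat c
  exact hU' x (h.mem_open U.2 hU)

section

variable {k L F : Type u} [Field k] [Field L] [Field F] [Algebra L F] [CharZero L] [IsAlgClosed L]
  {X : Scheme.{u}} [IsIntegral X] (f : X ⟶ Spec (.of k)) [IsProper f] {x : X}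
  (g : X.presheaf.stalk x →+* F) [IsLocalHom g]

/-- `F` is a function field of one variable over `L` and the point `g` is defined over `k ⊂ L`. -/
structure GoodPoint (L : Type u) [Field L] [Algebra L F] : Prop where
  ff : IsFunctionField L F
  const : ∀ a : k, g (constants f x a) ∈ (algebraMap L F).range

variable {f g}

omit [CharZero L] [IsAlgClosed L] [IsIntegral X] in
theorem GoodPoint.isCenter (hg : GoodPoint f g L) {v : ValuationSubring F} (hv : IsPlace L v) :
    IsCenter g v (center g v) := by
  apply isCenter_center f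
  intro a
  obtain ⟨b, hb⟩ := hg.const a
  rw [← hb]
  exact hv.1 b

theorem GoodPoint.finite_support_term (hg : GoodPoint f g L) (D : CartierDivisor X) :
    {v : ValuationSubring F | IsPlace L v ∧
      ordAt v (evalAt g (D.eqn (center g v) / D.eqn x)) ≠ 0}.Finite := by
  choose U hxU hU using D.compat
  have hc : CompactSpace X := by
    have : QuasiCompact f := inferInstance
    exact QuasiCompact.compactSpace_of_compactSpace f
  obtain ⟨t, ht⟩ := hc.elim_nhds_subcover (fun y => (U y : Set X))
    (fun y => (U y).2.mem_nhds (hxU y))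
  have h1 : {v : ValuationSubring F | IsPlace L v ∧
      ordAt v (evalAt g (D.eqn (center g v) / D.eqn x)) ≠ 0} ⊆
      ⋃ y ∈ t, {v : ValuationSubring F | IsPlace L v ∧ ordAt v (evalAt g (D.eqn y / D.eqn x)) ≠ 0} := by
    rintro v ⟨hv, hne⟩
    have hcen := hg.isCenter hv
    have := hg.ff.isDVR hv
    have h2 : center g v ∈ ⋃ y ∈ t, (U y : Set X) := by rw [ht]; trivial
    rw [Set.mem_iUnion₂] at h2 ⊢
    obtain ⟨y, hyt, hy⟩ := h2
    refine ⟨y, hyt, hv, ?_⟩
    intro h3
    apply hne
    obtain ⟨hsp, -⟩ := id hcen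
    have hxy : IsUnitAt x (D.eqn y / D.eqn x) := hU y x (hsp.mem_open (U y).2 hy)
    have hcy : IsUnitAt (center g v) (D.eqn y / D.eqn (center g v)) := hU y _ hy
    have h4 : D.eqn (center g v) / D.eqn x =
        (D.eqn y / D.eqn (center g v))⁻¹ * (D.eqn y / D.eqn x) := by
      have h1 := D.ne_zero y
      have h2 := D.ne_zero (center g v)
      have h3 := D.ne_zero x
      field_simp
    rw [h4, evalAt_mul g (hcy.inv.specializes hsp).isRegularAt hxy.isRegularAt,
      ordAt_mul v (evalAt_ne_zero g (hcy.inv.specializes hsp)) (evalAt_ne_zero g hxy), h3, add_zero]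
    apply ordAt_eq_zero
    · exact hcen.mem hcy.inv.isRegularAt
    · rw [← evalAt_inv g (hcy.inv.specializes hsp), inv_inv]
      exact hcen.mem hcy.isRegularAt
  refine Set.Finite.subset ?_ h1
  exact Set.Finite.biUnion t.finite_toSet fun y _ => hg.ff.finite_support _

/-- The terms of the degree computed with a rational section not vanishing at `x`. -/
theorem GoodPoint.ordAt_section (hg : GoodPoint f g L) (D : CartierDivisor X) {s : X.functionField}
    (hs : IsUnitAt x (s * D.eqn x)) {v : ValuationSubring F} (hv : IsPlace L v) :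
    ordAt v (evalAt g (s * D.eqn (center g v))) =
      ordAt v (evalAt g (s * D.eqn x)) + ordAt v (evalAt g (D.eqn (center g v) / D.eqn x)) := by
  have hcen := hg.isCenter hv
  have := hg.ff.isDVR hv
  obtain ⟨hsp, -⟩ := id hcen
  have h1 : s * D.eqn (center g v) = (s * D.eqn x) * (D.eqn (center g v) / D.eqn x) := by
    have := D.ne_zero x
    field_simp
  have h2 := D.isUnitAt_div hsp
  rw [h1, evalAt_mul g hs.isRegularAt h2.isRegularAt,
    ordAt_mul v (evalAt_ne_zero g hs) (evalAt_ne_zero g h2)]

theorem GoodPoint.finite_support_section (hg : GoodPoint f g L) (D : CartierDivisor X)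
    {s : X.functionField} (hs : IsUnitAt x (s * D.eqn x)) :
    {v : ValuationSubring F | IsPlace L v ∧
      ordAt v (evalAt g (s * D.eqn (center g v))) ≠ 0}.Finite := by
  refine ((hg.ff.finite_support (evalAt g (s * D.eqn x))).union
    (hg.finite_support_term D)).subset ?_
  rintro v ⟨hv, hne⟩
  rw [hg.ordAt_section D hs hv] at hne
  by_contra hcon
  simp only [Set.mem_union, Set.mem_ofPred_eq, not_or, not_and, not_not] at hcon
  apply hne
  rw [hcon.1 hv, hcon.2 hv, add_zero]

/-- The degree can be computed with any rational section not vanishing at `x`. -/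
theorem GoodPoint.degree_eq (hg : GoodPoint f g L) (D : CartierDivisor X)
    {s : X.functionField} (hs : IsUnitAt x (s * D.eqn x)) :
    degree {v | IsPlace L v} g D =
      ∑ᶠ v ∈ {v | IsPlace L v}, ordAt v (evalAt g (s * D.eqn (center g v))) := by
  have h1 : ∑ᶠ v ∈ {v | IsPlace L v}, ordAt v (evalAt g (s * D.eqn (center g v))) =
      ∑ᶠ v ∈ {v | IsPlace L v}, (ordAt v (evalAt g (s * D.eqn x)) +
        ordAt v (evalAt g (D.eqn (center g v) / D.eqn x))) :=
    finsum_mem_congr rfl fun v hv => hg.ordAt_section D hs hv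
  rw [h1, finsum_mem_add_distrib', hg.ff.sum_ordAt, zero_add, degree]
  · exact hg.ff.finite_support _
  · exact hg.finite_support_term D

theorem GoodPoint.degree_nonneg (hg : GoodPoint f g L) (D : CartierDivisor X)
    {s : X.functionField} (hs : IsUnitAt x (s * D.eqn x))
    (hreg : ∀ v, IsPlace L v → IsRegularAt (center g v) (s * D.eqn (center g v))) :
    0 ≤ degree {v | IsPlace L v} g D := by
  rw [hg.degree_eq D hs]
  refine finsum_mem_induction (fun z => 0 ≤ z) le_rfl (fun _ _ => add_nonneg) ?_
  intro v hv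
  have := hg.ff.isDVR hv
  exact ordAt_nonneg v ((hg.isCenter hv).mem (hreg v hv))

theorem GoodPoint.degree_pos (hg : GoodPoint f g L) (D : CartierDivisor X)
    {s : X.functionField} (hs : IsUnitAt x (s * D.eqn x))
    (hreg : ∀ v, IsPlace L v → IsRegularAt (center g v) (s * D.eqn (center g v)))
    (hnu : ∃ v, IsPlace L v ∧ ¬ IsUnitAt (center g v) (s * D.eqn (center g v))) :
    0 < degree {v | IsPlace L v} g D := by
  rw [hg.degree_eq D hs]
  have hfin := hg.finite_support_section D hs
  rw [finsum_mem_eq_sum (s := {v | IsPlace L v}) _ hfin]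
  have hterm : ∀ v ∈ hfin.toFinset, 0 ≤ ordAt v (evalAt g (s * D.eqn (center g v))) := by
    intro v hv
    rw [Set.Finite.mem_toFinset] at hv
    have := hg.ff.isDVR hv.1
    exact ordAt_nonneg v ((hg.isCenter hv.1).mem (hreg v hv.1))
  obtain ⟨w, hw, hwu⟩ := hnu
  have hDVR := hg.ff.isDVR hw
  have hc := hg.isCenter hw
  obtain ⟨hsp, -⟩ := id hc
  have hne : evalAt g (s * D.eqn (center g w)) ≠ 0 := by
    have h1 : s * D.eqn (center g w) = (s * D.eqn x) * (D.eqn (center g w) / D.eqn x) := by
      have := D.ne_zero x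
      field_simp
    rw [h1]
    exact evalAt_ne_zero g (hs.mul (D.isUnitAt_div hsp))
  have hpos : 0 < ordAt w (evalAt g (s * D.eqn (center g w))) :=
    ordAt_pos w (hc.mem (hreg w hw)) hne (hc.inv_notMem (hreg w hw) hwu hne)
  refine Finset.sum_pos' hterm ⟨w, ?_, hpos⟩
  rw [Set.Finite.mem_toFinset]
  exact ⟨hw, hpos.ne'⟩

theorem GoodPoint.degree_add (hg : GoodPoint f g L) (D E : CartierDivisor X) :
    degree {v | IsPlace L v} g (D + E) =
      degree {v | IsPlace L v} g D + degree {v | IsPlace L v} g E := by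
  rw [degree, degree, degree, ← finsum_mem_add_distrib']
  · apply finsum_mem_congr rfl
    intro v hv
    have hc := hg.isCenter hv
    have := hg.ff.isDVR hv
    obtain ⟨hsp, -⟩ := id hc
    rw [CartierDivisor.add_eqn, CartierDivisor.add_eqn, mul_div_mul_comm,
      evalAt_mul g (D.isUnitAt_div hsp).isRegularAt (E.isUnitAt_div hsp).isRegularAt,
      ordAt_mul v (evalAt_ne_zero g (D.isUnitAt_div hsp)) (evalAt_ne_zero g (E.isUnitAt_div hsp))]
  · exact hg.finite_support_term D
  · exact hg.finite_support_term E

/-- The degree as an additive homomorphism. -/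
noncomputable def GoodPoint.degreeHom (hg : GoodPoint f g L) : CartierDivisor X →+ ℤ :=
  AddMonoidHom.mk' (degree {v | IsPlace L v} g) (hg.degree_add)

theorem GoodPoint.degree_nsmul (hg : GoodPoint f g L) (D : CartierDivisor X) (n : ℕ) :
    degree {v | IsPlace L v} g (n • D) = n * degree {v | IsPlace L v} g D := by
  have := map_nsmul hg.degreeHom n D
  rw [nsmul_eq_mul] at this
  exact this

theorem GoodPoint.degree_zsmul (hg : GoodPoint f g L) (D : CartierDivisor X) (n : ℤ) :
    degree {v | IsPlace L v} g (n • D) = n * degree {v | IsPlace L v} g D := by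
  have := map_zsmul hg.degreeHom n D
  rw [zsmul_eq_mul] at this
  exact this

theorem GoodPoint.degree_eq_zero (hg : GoodPoint f g L) (D : CartierDivisor X)
    {s : X.functionField} (hs : IsUnitAt x (s * D.eqn x))
    (hu : ∀ v, IsPlace L v → IsUnitAt (center g v) (s * D.eqn (center g v))) :
    degree {v | IsPlace L v} g D = 0 := by
  rw [hg.degree_eq D hs]
  apply finsum_mem_eq_zero_of_forall_eq_zero
  intro v hv
  have := hg.ff.isDVR hv
  have hc := hg.isCenter hv
  apply ordAt_eq_zero v (hc.mem (hu v hv).isRegularAt)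
  obtain ⟨hsp, -⟩ := id hc
  rw [← evalAt_inv g ((hu v hv).specializes hsp)]
  exact hc.mem (hu v hv).inv.isRegularAt

end

end Pool.Agent.Lib.MP_cc17a8_ag
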