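import Mathlib
import Pool.Agent.Lib.MP_cc17a8_ag.Degree

open AlgebraicGeometry CategoryTheory

universe u

namespace Pool.Agent.Lib.MP_cc17a8_ag

section

variable {X : Scheme.{u}} [IsIntegral X] {U : X.Opens}

theorem isRegularAt_section [Nonempty U] {x : X} (hx : x ∈ U) (b : Γ(X, U)) :
    IsRegularAt x (algebraMap Γ(X, U) X.functionField b) :=
  ⟨X.presheaf.germ U x hx b, Scheme.algebraMap_germ_eq_germToFunctionField X hx b⟩

theorem isUnitAt_section_iff [Nonempty U] {x : X} (hx : x ∈ U) (b : Γ(X, U)) :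
    IsUnitAt x (algebraMap Γ(X, U) X.functionField b) ↔ x ∈ X.basicOpen b := by
  rw [Scheme.mem_basicOpen X b x hx]
  constructor
  · rintro ⟨a, ha, hab⟩
    have : a = X.presheaf.germ U x hx b := by
      apply stalk_injective x
      rw [hab]
      exact (Scheme.algebraMap_germ_eq_germToFunctionField X hx b).symm
    rwa [← this]
  · intro h
    exact ⟨_, h, Scheme.algebraMap_germ_eq_germToFunctionField X hx b⟩

theorem exists_frac_of_isRegularAt (hU : IsAffineOpen U) [Nonempty U] {x : X} (hx : x ∈ U)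
    {h : X.functionField} (hh : IsRegularAt x h) :
    ∃ b s : Γ(X, U), IsUnitAt x (algebraMap Γ(X, U) X.functionField s) ∧
      h * algebraMap Γ(X, U) X.functionField s = algebraMap Γ(X, U) X.functionField b := by
  obtain ⟨a, rfl⟩ := hh
  let _ := X.presheaf.algebra_section_stalk ⟨x, hx⟩
  have hloc := hU.isLocalization_stalk ⟨x, hx⟩
  have htow := functionField_isScalarTower X U ⟨x, hx⟩
  obtain ⟨⟨b, s⟩, hbs⟩ := IsLocalization.surj (hU.primeIdealOf ⟨x, hx⟩).asIdeal.primeCompl a
  refine ⟨b, s, ?_, ?_⟩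
  · have h1 := IsLocalization.map_units (X.presheaf.stalk x) s
    refine ⟨_, h1, ?_⟩
    exact (IsScalarTower.algebraMap_apply Γ(X, U) (X.presheaf.stalk x) X.functionField _).symm
  · rw [IsScalarTower.algebraMap_apply Γ(X, U) (X.presheaf.stalk x) X.functionField (s : Γ(X, U)),
      ← map_mul, hbs,
      ← IsScalarTower.algebraMap_apply Γ(X, U) (X.presheaf.stalk x) X.functionField]

theorem exists_point_of_prime (hU : IsAffineOpen U) [Nonempty U] (p : Ideal Γ(X, U)) [hp : p.IsPrime] :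
    ∃ x, ∃ hx : x ∈ U, (hU.primeIdealOf ⟨x, hx⟩).asIdeal = p ∧
      ∀ b : Γ(X, U), IsUnitAt x (algebraMap Γ(X, U) X.functionField b) ↔ b ∉ p := by
  let P : PrimeSpectrum Γ(X, U) := ⟨p, hp⟩
  have hx : hU.fromSpec P ∈ U := (hU.isoSpec.inv P).2
  have h1 : hU.primeIdealOf ⟨hU.fromSpec P, hx⟩ = P := by
    have h2 := hU.fromSpec_primeIdealOf ⟨hU.fromSpec P, hx⟩
    exact hU.fromSpec.isOpenEmbedding.injective h2
  refine ⟨hU.fromSpec P, hx, by rw [h1], fun b => ?_⟩
  let _ := X.presheaf.algebra_section_stalk ⟨hU.fromSpec P, hx⟩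
  have hloc := hU.isLocalization_stalk ⟨hU.fromSpec P, hx⟩
  rw [isUnitAt_section_iff hx, Scheme.mem_basicOpen X b _ hx]
  change IsUnit (algebraMap Γ(X, U) (X.presheaf.stalk (hU.fromSpec P)) b) ↔ _
  rw [IsLocalization.AtPrime.isUnit_to_map_iff (S := X.presheaf.stalk (hU.fromSpec P))
    (hU.primeIdealOf ⟨hU.fromSpec P, hx⟩).asIdeal b, Ideal.mem_primeCompl_iff, h1]

/-- A rational function which is regular at all points of an affine open subset where the section
`s` does not vanish is the quotient of a section by a power of `s`. -/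
theorem exists_pow_mul_eq (hU : IsAffineOpen U) [Nonempty U] (s : Γ(X, U)) (h : X.functionField)
    (hh : ∀ y ∈ U, IsUnitAt y (algebraMap Γ(X, U) X.functionField s) → IsRegularAt y h) :
    ∃ (n : ℕ) (b : Γ(X, U)), algebraMap Γ(X, U) X.functionField s ^ n * h =
      algebraMap Γ(X, U) X.functionField b := by
  let I : Ideal Γ(X, U) :=
    { carrier := {r | ∃ b : Γ(X, U), algebraMap Γ(X, U) X.functionField r * h =
        algebraMap Γ(X, U) X.functionField b}
      add_mem' := by
        rintro r r' ⟨b, hb⟩ ⟨b', hb'⟩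
        exact ⟨b + b', by rw [map_add, map_add, add_mul, hb, hb']⟩
      zero_mem' := ⟨0, by simp⟩
      smul_mem' := by
        rintro c r ⟨b, hb⟩
        exact ⟨c * b, by rw [smul_eq_mul, map_mul, map_mul, mul_assoc, hb]⟩ }
  have hrad : s ∈ I.radical := by
    rw [Ideal.radical_eq_sInf, Ideal.mem_sInf]
    rintro p ⟨hIp, hp⟩
    by_contra hsp
    obtain ⟨y, hy, -, hyp⟩ := exists_point_of_prime hU p
    obtain ⟨b, r, hr, hbr⟩ := exists_frac_of_isRegularAt hU hy (hh y hy ((hyp s).mpr hsp))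
    rw [hyp] at hr
    exact hr (hIp ⟨b, by rw [mul_comm]; exact hbr⟩)
  obtain ⟨n, b, hn⟩ := hrad
  exact ⟨n, b, by rw [← map_pow]; exact hn⟩

end

end Pool.Agent.Lib.MP_cc17a8_ag
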