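import Mathlib
import Pool.Agent.Lib.MP_cc17a8_ag.Affine

open AlgebraicGeometry CategoryTheory

universe u

namespace Pool.Agent.Lib.MP_cc17a8_ag

section

variable {X : Scheme.{u}} [IsIntegral X]

omit [IsIntegral X] in
theorem exists_affine_nhd {x : X} {W : X.Opens} (hx : x ∈ W) :
    ∃ V : X.Opens, IsAffineOpen V ∧ x ∈ V ∧ V ≤ W := by
  obtain ⟨_, ⟨V, hV, rfl⟩, hxV, hVW⟩ := X.isBasis_affineOpens.exists_subset_of_mem_open hx W.2
  exact ⟨V, hV, hxV, hVW⟩

/-- Extension of sections: if `s` is a section of `L` and `e` is a section of `D` over `X_s`, then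
`s ^ j * e` is a section of `jL + D` for large `j`. -/
theorem exists_extend [CompactSpace X] (L D : CartierDivisor X) (s e : X.functionField)
    (hs : ∀ y, IsRegularAt y (s * L.eqn y))
    (he : ∀ y, IsUnitAt y (s * L.eqn y) → IsRegularAt y (e * D.eqn y)) :
    ∃ N : ℕ, ∀ j ≥ N, ∀ y, IsRegularAt y ((s * L.eqn y) ^ j * (e * D.eqn y)) := by
  have hloc : ∀ y0 : X, ∃ V : X.Opens, y0 ∈ V ∧ ∃ n : ℕ, ∀ y ∈ V,
      IsRegularAt y ((s * L.eqn y) ^ n * (e * D.eqn y)) := by
    intro y0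
    obtain ⟨U1, h1, hU1⟩ := L.compat y0
    obtain ⟨U2, h2, hU2⟩ := D.compat y0
    obtain ⟨V, hV, hyV, hVU⟩ := exists_affine_nhd (x := y0) (W := U1 ⊓ U2) ⟨h1, h2⟩
    have : Nonempty V := ⟨⟨y0, hyV⟩⟩
    have hL : ∀ y ∈ V, IsUnitAt y (L.eqn y0 / L.eqn y) := fun y hy => hU1 y (hVU hy).1
    have hD : ∀ y ∈ V, IsUnitAt y (D.eqn y0 / D.eqn y) := fun y hy => hU2 y (hVU hy).2
    have hLr : ∀ y ∈ V, IsRegularAt y (s * L.eqn y0) := by
      intro y hy
      have : s * L.eqn y0 = (s * L.eqn y) * (L.eqn y0 / L.eqn y) := by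
        have := L.ne_zero y
        field_simp
      rw [this]
      exact (hs y).mul (hL y hy).isRegularAt
    obtain ⟨n0, l, hl⟩ := exists_pow_mul_eq hV 1 (s * L.eqn y0) (fun y hy _ => hLr y hy)
    rw [map_one, one_pow, one_mul] at hl
    obtain ⟨n, b, hb⟩ := exists_pow_mul_eq hV l (e * D.eqn y0) (by
      intro y hy hu
      rw [← hl] at hu
      have h3 : IsUnitAt y (s * L.eqn y) := by
        have : s * L.eqn y = (s * L.eqn y0) * (L.eqn y0 / L.eqn y)⁻¹ := by
          have := L.ne_zero y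
          have := L.ne_zero y0
          field_simp
        rw [this]
        exact hu.mul (hL y hy).inv
      have h4 : e * D.eqn y0 = (e * D.eqn y) * (D.eqn y0 / D.eqn y) := by
        have := D.ne_zero y
        field_simp
      rw [h4]
      exact (he y h3).mul (hD y hy).isRegularAt)
    refine ⟨V, hyV, n, fun y hy => ?_⟩
    have h5 : (s * L.eqn y) ^ n * (e * D.eqn y) =
        ((s * L.eqn y0) ^ n * (e * D.eqn y0)) * (((L.eqn y0 / L.eqn y)⁻¹) ^ n *
          (D.eqn y0 / D.eqn y)⁻¹) := by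
      have := L.ne_zero y
      have := L.ne_zero y0
      have := D.ne_zero y
      have := D.ne_zero y0
      rw [inv_div, inv_div, div_pow, mul_pow, mul_pow]
      field_simp
    rw [h5, hl, hb]
    exact (isRegularAt_section hy b).mul (((hL y hy).inv.pow n).mul (hD y hy).inv).isRegularAt
  choose V hyV n hn using hloc
  obtain ⟨t, ht⟩ := CompactSpace.elim_nhds_subcover (fun y => (V y : Set X))
    (fun y => (V y).2.mem_nhds (hyV y))
  refine ⟨t.sup n, fun j hj y => ?_⟩
  have h2 : y ∈ ⋃ y ∈ t, (V y : Set X) := by rw [ht]; trivial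
  rw [Set.mem_iUnion₂] at h2
  obtain ⟨z, hzt, hz⟩ := h2
  have h3 : n z ≤ j := (Finset.le_sup hzt).trans hj
  have h4 : (s * L.eqn y) ^ j * (e * D.eqn y) =
      (s * L.eqn y) ^ (j - n z) * ((s * L.eqn y) ^ (n z) * (e * D.eqn y)) := by
    rw [← mul_assoc ((s * L.eqn y) ^ (j - n z)), ← pow_add, Nat.sub_add_cancel h3]
  rw [h4]
  exact ((hs y).pow _).mul (hn z y hz)

theorem IsRegularAt.isUnitAt_of_mul {y : X} {a b : X.functionField} (ha : IsRegularAt y a)
    (hb : IsRegularAt y b) (hab : IsUnitAt y (a * b)) : IsUnitAt y a := by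
  obtain ⟨a, rfl⟩ := ha
  obtain ⟨b, rfl⟩ := hb
  obtain ⟨c, hc, hcab⟩ := hab
  have : c = a * b := stalk_injective y (by rw [hcab, map_mul])
  rw [this] at hc
  exact ⟨a, isUnit_of_mul_isUnit_left hc, rfl⟩

/-- The open sets `X_s` form a basis. -/
theorem CartierDivisor.IsAmple.exists_section [CompactSpace X] {A : CartierDivisor X}
    (hA : A.IsAmple) {x : X} {W : X.Opens} (hxW : x ∈ W) :
    ∃ n : ℕ, 0 < n ∧ ∃ s : X.functionField, (∀ y, IsRegularAt y (s * A.eqn y ^ n)) ∧
      IsUnitAt x (s * A.eqn x ^ n) ∧ ∀ y, IsUnitAt y (s * A.eqn y ^ n) → y ∈ W := by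
  obtain ⟨n, hn, s, hs, U, hU, hxU, hUs⟩ := hA x
  have : Nonempty U := ⟨⟨x, hxU⟩⟩
  obtain ⟨b, hbW, hxb⟩ := hU.exists_basicOpen_le (V := W) ⟨x, hxW⟩ hxU
  obtain ⟨N, hN⟩ := exists_extend (n • A) 0 s (algebraMap Γ(X, U) X.functionField b)
    (fun y => by rw [CartierDivisor.nsmul_eqn]; exact hs y) (fun y hy => by
      rw [CartierDivisor.nsmul_eqn, ← hUs] at hy
      rw [CartierDivisor.zero_eqn, mul_one]
      exact isRegularAt_section hy b)
  have hreg := hN N le_rfl
  simp only [CartierDivisor.nsmul_eqn, CartierDivisor.zero_eqn, mul_one] at hreg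
  have hform : ∀ y, s ^ (N + 1) * algebraMap Γ(X, U) X.functionField b * A.eqn y ^ (n * (N + 1)) =
      (s * A.eqn y ^ n) * ((s * A.eqn y ^ n) ^ N * algebraMap Γ(X, U) X.functionField b) := by
    intro y
    ring
  refine ⟨n * (N + 1), by positivity, s ^ (N + 1) * algebraMap Γ(X, U) X.functionField b,
    fun y => ?_, ?_, fun y hy => ?_⟩
  · rw [hform]
    exact (hs y).mul (hreg y)
  · rw [hform]
    have h1 := (hUs x).mp hxU
    exact h1.mul ((h1.pow N).mul ((isUnitAt_section_iff hxU b).mpr hxb))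
  · rw [hform] at hy
    have h1 : IsUnitAt y (s * A.eqn y ^ n) := (hs y).isUnitAt_of_mul (hreg y) hy
    have hyU := (hUs y).mpr h1
    have h2 : IsUnitAt y ((s * A.eqn y ^ n) ^ N * algebraMap Γ(X, U) X.functionField b) := by
      rw [mul_comm] at hy
      exact (hreg y).isUnitAt_of_mul (hs y) hy
    have h3 : IsUnitAt y (algebraMap Γ(X, U) X.functionField b) := by
      rw [mul_comm] at h2
      exact (isRegularAt_section hyU b).isUnitAt_of_mul ((hs y).pow N) h2
    exact hbW ((isUnitAt_section_iff hyU b).mp h3)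

/-- For every divisor `D`, the divisors `mA + D` have sections not vanishing at a given point. -/
theorem CartierDivisor.IsAmple.exists_section_add [CompactSpace X] {A : CartierDivisor X}
    (hA : A.IsAmple) (D : CartierDivisor X) (x : X) :
    ∃ m : ℕ, ∃ t : X.functionField, (∀ y, IsRegularAt y (t * (m • A + D).eqn y)) ∧
      IsUnitAt x (t * (m • A + D).eqn x) := by
  obtain ⟨W, hxW, hW⟩ := D.compat x
  obtain ⟨n, hn, s, hs, hsx, hsW⟩ := hA.exists_section hxW
  obtain ⟨N, hN⟩ := exists_extend (n • A) D s (D.eqn x)⁻¹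
    (fun y => by rw [CartierDivisor.nsmul_eqn]; exact hs y) (fun y hy => by
      rw [CartierDivisor.nsmul_eqn] at hy
      have h1 := (hW y (hsW y hy)).inv
      rw [inv_div, div_eq_mul_inv, mul_comm] at h1
      exact h1.isRegularAt)
  have hreg := hN N le_rfl
  simp only [CartierDivisor.nsmul_eqn] at hreg
  have hform : ∀ y, s ^ N * (D.eqn x)⁻¹ * ((n * N) • A + D).eqn y =
      (s * A.eqn y ^ n) ^ N * ((D.eqn x)⁻¹ * D.eqn y) := by
    intro y
    rw [CartierDivisor.add_eqn, CartierDivisor.nsmul_eqn]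
    ring
  refine ⟨n * N, s ^ N * (D.eqn x)⁻¹, fun y => ?_, ?_⟩
  · rw [hform]
    exact hreg y
  · rw [hform, inv_mul_cancel₀ (D.ne_zero x), mul_one]
    exact hsx.pow N

end

end Pool.Agent.Lib.MP_cc17a8_ag
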