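import Mathlib

/-!
# Tensor products of domains

Over an algebraically closed field a tensor product of domains is a domain; in characteristic zero
the same holds for `K ⊗[L] B` as soon as the field `L` is algebraically closed in the field `K`.
-/

open TensorProduct Polynomial

namespace Pool.Agent.Lib.MP_cc17a8_ag

/-- Over an algebraically closed field, the tensor product of two domains is a domain. -/
theorem isDomain_tensor_of_isAlgClosed (k A B : Type*) [Field k] [IsAlgClosed k]
    [CommRing A] [IsDomain A] [Algebra k A] [CommRing B] [IsDomain B] [Algebra k B] :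
    IsDomain (A ⊗[k] B) := by
  classical
  have hnt : Nontrivial (A ⊗[k] B) := inferInstance
  refine @NoZeroDivisors.to_isDomain _ _ hnt ⟨?_⟩
  intro α β hαβ
  -- expand in a basis of B
  let b := Module.Basis.ofVectorSpace k B
  let e := (b.baseChange A)
  by_contra hne
  push Not at hne
  obtain ⟨hα, hβ⟩ := hne
  have hα' : e.repr α ≠ 0 := by simpa using hα
  have hβ' : e.repr β ≠ 0 := by simpa using hβ
  obtain ⟨i, hi⟩ := Finsupp.ne_iff.mp hα'
  obtain ⟨j, hj⟩ := Finsupp.ne_iff.mp hβ'
  simp only [Finsupp.coe_zero, Pi.zero_apply, ne_eq] at hi hj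
  -- finitely generated subalgebra containing all the coefficients
  let S : Finset A := (e.repr α).support.image (e.repr α) ∪ (e.repr β).support.image (e.repr β)
  let A₀ : Subalgebra k A := Algebra.adjoin k (S : Set A)
  have hfg : Algebra.FiniteType k A₀ := by
    have := Subalgebra.fg_adjoin_finset (R := k) S
    exact (Subalgebra.fg_iff_finiteType _).mp this
  have hJ : IsJacobsonRing A₀ := isJacobsonRing_of_finiteType (A := k)
  have hmemα : ∀ i, e.repr α i ∈ A₀ := by
    intro i
    by_cases h : e.repr α i = 0
    · rw [h]; exact A₀.zero_mem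
    · apply Algebra.subset_adjoin
      simp only [S, Finset.coe_union, Set.mem_union, Finset.mem_coe, Finset.mem_image, Finsupp.mem_support_iff]
      exact Or.inl ⟨i, h, rfl⟩
  have hmemβ : ∀ i, e.repr β i ∈ A₀ := by
    intro i
    by_cases h : e.repr β i = 0
    · rw [h]; exact A₀.zero_mem
    · apply Algebra.subset_adjoin
      simp only [S, Finset.coe_union, Set.mem_union, Finset.mem_coe, Finset.mem_image, Finsupp.mem_support_iff]
      exact Or.inr ⟨i, h, rfl⟩
  -- lifts to A₀ ⊗ B
  let α₀ : A₀ ⊗[k] B := ∑ i ∈ (e.repr α).support, (⟨e.repr α i, hmemα i⟩ : A₀) ⊗ₜ[k] b i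
  let β₀ : A₀ ⊗[k] B := ∑ i ∈ (e.repr β).support, (⟨e.repr β i, hmemβ i⟩ : A₀) ⊗ₜ[k] b i
  let ι : A₀ ⊗[k] B →ₐ[k] A ⊗[k] B := Algebra.TensorProduct.map A₀.val (AlgHom.id k B)
  have hι : Function.Injective ι := by
    have : Function.Injective (LinearMap.rTensor B A₀.val.toLinearMap) :=
      Module.Flat.rTensor_preserves_injective_linearMap _ Subtype.val_injective
    exact this
  have hια : ι α₀ = α := by
    simp only [α₀, ι, map_sum, Algebra.TensorProduct.map_tmul]
    conv_rhs => rw [← e.linearCombination_repr α, Finsupp.linearCombination_apply, Finsupp.sum]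
    refine Finset.sum_congr rfl fun i _ => ?_
    simp [e, TensorProduct.smul_tmul']
  have hιβ : ι β₀ = β := by
    simp only [β₀, ι, map_sum, Algebra.TensorProduct.map_tmul]
    conv_rhs => rw [← e.linearCombination_repr β, Finsupp.linearCombination_apply, Finsupp.sum]
    refine Finset.sum_congr rfl fun i _ => ?_
    simp [e, TensorProduct.smul_tmul']
  have hprod : α₀ * β₀ = 0 := by
    apply hι
    rw [map_mul, hια, hιβ, hαβ, map_zero]
  -- the product a_i a'_j lies in every maximal ideal
  have hkey : (⟨e.repr α i, hmemα i⟩ : A₀) * ⟨e.repr β j, hmemβ j⟩ ∈ (⊥ : Ideal A₀).jacobson := by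
    rw [Ideal.jacobson, Ideal.mem_sInf]
    rintro m ⟨-, hm⟩
    -- residue field is k
    let : Field (A₀ ⧸ m) := Ideal.Quotient.field m
    have hft : Algebra.FiniteType k (A₀ ⧸ m) :=
      Algebra.FiniteType.of_surjective (Ideal.Quotient.mkₐ k m) (Ideal.Quotient.mkₐ_surjective k m)
    have hfin : Module.Finite k (A₀ ⧸ m) := finite_of_finite_type_of_isJacobsonRing k (A₀ ⧸ m)
    have hbij : Function.Bijective (algebraMap k (A₀ ⧸ m)) :=
      IsAlgClosed.algebraMap_bijective_of_isIntegral
    let eqv : k ≃ₐ[k] (A₀ ⧸ m) := AlgEquiv.ofBijective (Algebra.ofId k (A₀ ⧸ m)) hbij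
    let ε : A₀ →ₐ[k] k := (eqv.symm : (A₀ ⧸ m) →ₐ[k] k).comp (Ideal.Quotient.mkₐ k m)
    have hε : ∀ a, ε a = 0 → a ∈ m := by
      intro a ha
      have h1 : (Ideal.Quotient.mkₐ k m) a = 0 := by
        have : eqv.symm ((Ideal.Quotient.mkₐ k m) a) = 0 := ha
        simpa using this
      exact Ideal.Quotient.eq_zero_iff_mem.mp h1
    let φ : A₀ ⊗[k] B →ₐ[k] B :=
      Algebra.TensorProduct.lift ((Algebra.ofId k B).comp ε) (AlgHom.id k B)
        (fun _ _ => Commute.all _ _)
    have h0 : φ α₀ * φ β₀ = 0 := by rw [← map_mul, hprod, map_zero]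
    have hφα : φ α₀ = ∑ i ∈ (e.repr α).support, ε ⟨e.repr α i, hmemα i⟩ • b i := by
      simp [α₀, φ, map_sum, Algebra.ofId_apply, Algebra.smul_def]
    have hφβ : φ β₀ = ∑ i ∈ (e.repr β).support, ε ⟨e.repr β i, hmemβ i⟩ • b i := by
      simp [β₀, φ, map_sum, Algebra.ofId_apply, Algebra.smul_def]
    have hli := b.linearIndependent
    rw [linearIndependent_iff'] at hli
    rcases mul_eq_zero.mp h0 with h | h
    · have := hli _ _ (hφα ▸ h) i (Finsupp.mem_support_iff.mpr hi)
      exact m.mul_mem_right _ (hε _ this)
    · have := hli _ _ (hφβ ▸ h) j (Finsupp.mem_support_iff.mpr hj)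
      exact m.mul_mem_left _ (hε _ this)
  have hbot : (⊥ : Ideal A₀).jacobson = ⊥ := by
    have : (⊥ : Ideal A₀).IsRadical := (Ideal.isPrime_bot (α := A₀)).isRadical
    exact hJ.out this
  rw [hbot, Ideal.mem_bot] at hkey
  have h2 := congrArg (Subtype.val) hkey
  simp only [MulMemClass.coe_mul, ZeroMemClass.coe_zero, mul_eq_zero] at h2
  exact h2.elim hi hj

/-- If `L` is algebraically closed in `K`, an irreducible polynomial over `L` stays irreducible
over `K`. -/
theorem irreducible_map_of_algClosedIn {L K : Type*} [Field L] [Field K] [Algebra L K]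
    (h : ∀ x : K, IsAlgebraic L x → x ∈ (algebraMap L K).range)
    {p : L[X]} (hp : Irreducible p) (hm : p.Monic) : Irreducible (p.map (algebraMap L K)) := by
  have hm' : (p.map (algebraMap L K)).Monic := hm.map _
  rw [hm'.irreducible_iff_natDegree']
  have h1 : p.map (algebraMap L K) ≠ 1 := by
    intro h
    have := congrArg natDegree h
    rw [natDegree_map, natDegree_one] at this
    exact hp.natDegree_pos.ne' this
  refine ⟨h1, ?_⟩
  rintro f g hf hg hfg hdeg
  have lift : ∀ f : K[X], f.Monic → f ∣ p.map (algebraMap L K) → ∃ f₀ : L[X], f₀.map (algebraMap L K) = f ∧ f₀.Monic := by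
    intro f hf hd
    have := integralClosure.mem_lifts_of_monic_of_dvd_map K hm hf hd
    rw [Polynomial.lifts_iff_coeff_lifts] at this
    have h2 : f ∈ lifts (algebraMap L K) := by
      rw [Polynomial.lifts_iff_coeff_lifts]
      intro n
      obtain ⟨⟨c, hc⟩, hc'⟩ := this n
      have : IsAlgebraic L c := (isAlgebraic_iff_isIntegral).mpr hc
      have h3 := h c this
      rw [← hc']
      exact h3
    obtain ⟨f₀, hf₀, -, hf₀m⟩ := lifts_and_natDegree_eq_and_monic h2 hf
    exact ⟨f₀, hf₀, hf₀m⟩
  obtain ⟨f₀, hf₀, hf₀m⟩ := lift f hf ⟨g, hfg.symm⟩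
  obtain ⟨g₀, hg₀, hg₀m⟩ := lift g hg ⟨f, by rw [← hfg, mul_comm]⟩
  have h4 : f₀ * g₀ = p := by
    apply map_injective (algebraMap L K) (algebraMap L K).injective
    rw [Polynomial.map_mul, hf₀, hg₀, hfg]
  have := (hm.irreducible_iff_natDegree').mp hp
  refine this.2 f₀ g₀ hf₀m hg₀m h4 ?_
  rw [← hg₀, natDegree_map, natDegree_map] at hdeg
  exact hdeg

/-- char 0: if `L` is algebraically closed in `K` then `K ⊗[L] M` is a domain for every
algebraic extension `M` of `L`. -/
theorem isDomain_tensor_algebraic {L K M : Type*} [Field L] [CharZero L] [Field K] [Algebra L K]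
    (h : ∀ x : K, IsAlgebraic L x → x ∈ (algebraMap L K).range)
    [Field M] [Algebra L M] [Algebra.IsAlgebraic L M] : IsDomain (K ⊗[L] M) := by
  let Ω := AlgebraicClosure K
  let j : M →ₐ[L] Ω := IsAlgClosed.lift
  have key : j.range.LinearDisjoint (IsScalarTower.toAlgHom L K Ω).range := by
    have : Algebra.IsIntegral L j.range := by
      have : Algebra.IsIntegral L M := inferInstance
      exact Algebra.IsIntegral.of_surjective j.rangeRestrict j.rangeRestrict_surjective
    apply Subalgebra.LinearDisjoint.of_linearDisjoint_finite_left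
    intro A' hA' hfin
    let A'' : IntermediateField L Ω := Subalgebra.toIntermediateField' A' 
      ((Algebra.IsIntegral.isField_iff_isField (R := L) (S := A') (algebraMap L A').injective).mp (Field.toIsField L))
    have hAA : A''.toSubalgebra = A' := by
      ext; rfl
    have hfin' : FiniteDimensional L A'' := hfin
    let pb := Field.powerBasisOfFiniteOfSeparable L A''
    have : A''.LinearDisjoint K := by
      apply IntermediateField.LinearDisjoint.of_basis_left pb.basis
      have hirr : minpoly K (A''.val pb.gen) = (minpoly L pb.gen).map (algebraMap L K) := by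
        have hi : IsIntegral L pb.gen := pb.isIntegral_gen
        have h1 := irreducible_map_of_algClosedIn h (minpoly.irreducible hi) (minpoly.monic hi)
        refine (minpoly.eq_of_irreducible_of_monic h1 ?_ ((minpoly.monic hi).map _)).symm
        rw [aeval_map_algebraMap]
        have : aeval (A''.val pb.gen) (minpoly L pb.gen) = A''.val (aeval pb.gen (minpoly L pb.gen)) := by
          rw [aeval_algHom_apply]
        rw [this, minpoly.aeval, map_zero]
      have h2 := linearIndependent_pow (K := K) (A''.val pb.gen)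
      have hd : (minpoly K (A''.val pb.gen)).natDegree = pb.dim := by
        rw [hirr, natDegree_map, PowerBasis.natDegree_minpoly]
      rw [hd] at h2
      convert h2 using 1
      ext i
      simp
    rw [IntermediateField.linearDisjoint_iff] at this
    rw [← hAA]
    exact this
  have h3 : IsDomain (M ⊗[L] K) :=
    key.isDomain_of_injective j.injective (IsScalarTower.toAlgHom L K Ω).injective
  exact (Algebra.TensorProduct.comm L K M).toMulEquiv.isDomain



theorem isDomain_tensor_tower (L K M N : Type*) [Field L] [Field K] [Field M] [Field N]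
    [IsAlgClosed N] [Algebra L K] [Algebra L M] [Algebra L N] [Algebra N M] [IsScalarTower L N M]
    [IsDomain (N ⊗[L] K)] : IsDomain (M ⊗[L] K) := by
  have h2 : IsDomain (M ⊗[N] (N ⊗[L] K)) := isDomain_tensor_of_isAlgClosed N M (N ⊗[L] K)
  exact (Algebra.TensorProduct.cancelBaseChange L N N M K).symm.toMulEquiv.isDomain

/-- Characteristic zero: if `L` is algebraically closed in the field `K` then `K ⊗[L] B` is a
domain for every domain `B` over `L`. -/
theorem isDomain_tensor_of_algClosedIn {L K B : Type*} [Field L] [CharZero L] [Field K]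
    [Algebra L K] (h : ∀ x : K, IsAlgebraic L x → x ∈ (algebraMap L K).range)
    [CommRing B] [IsDomain B] [Algebra L B] : IsDomain (K ⊗[L] B) := by
  have hinj : Function.Injective (algebraMap B (AlgebraicClosure (FractionRing B))) := by
    rw [IsScalarTower.algebraMap_eq B (FractionRing B) (AlgebraicClosure (FractionRing B))]
    exact (algebraMap (FractionRing B) _).injective.comp (IsFractionRing.injective B _)
  have aux : ∀ (M : Type _) [Field M] [IsAlgClosed M] [Algebra L M] (j : B →ₐ[L] M)
      (_ : Function.Injective j), IsDomain (K ⊗[L] B) := by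
    intro M _ _ _ j hj
    have hac : IsAlgClosed (algebraicClosure L M) := IsAlgClosure.isAlgClosed L
    have h1 : IsDomain (algebraicClosure L M ⊗[L] K) := 
      have := isDomain_tensor_algebraic (M := algebraicClosure L M) h
      (Algebra.TensorProduct.comm L (algebraicClosure L M) K).toMulEquiv.isDomain
    have h3 : IsDomain (M ⊗[L] K) := isDomain_tensor_tower L K M (algebraicClosure L M)
    have h4 : IsDomain (K ⊗[L] M) := (Algebra.TensorProduct.comm L K M).toMulEquiv.isDomain
    let ι : K ⊗[L] B →ₐ[L] K ⊗[L] M := Algebra.TensorProduct.map (AlgHom.id L K) j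
    have hι : Function.Injective ι := by
      have : Function.Injective (LinearMap.lTensor K j.toLinearMap) :=
        Module.Flat.lTensor_preserves_injective_linearMap _ hj
      exact this
    exact hι.isDomain ι.toRingHom
  exact aux (AlgebraicClosure (FractionRing B)) (IsScalarTower.toAlgHom L B _) hinj

end Pool.Agent.Lib.MP_cc17a8_ag
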