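import Mathlib
import Pool.Agent.Lib.MP_cc17a8_ag.Tensor

/-!
# Generic chains

Let `K / k` be a finitely generated field extension in characteristic zero and `L j`, `j : S`,
subfields of `K`, algebraically closed in `K`, whose intersection is `k`.  Then there is a field `Σ`
and a chain of embeddings `K → Σ`, two successive ones agreeing on some `L j`, such that the first
and the last one are linearly disjoint over `k`.
-/

open TensorProduct

namespace Pool.Agent.Lib.MP_cc17a8_ag

universe u v

/-- Two embeddings of `K` are linked if they are joined by a finite chain of embeddings in which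
successive embeddings agree on one of the subfields `L j`. -/
inductive Linked {k : Type u} {K : Type u} [Field k] [Field K] [Algebra k K] {S : Type v}
    (L : S → IntermediateField k K) {B : Type u} [CommRing B] [Algebra k B] :
    (K →ₐ[k] B) → (K →ₐ[k] B) → Prop
  | refl (a : K →ₐ[k] B) : Linked L a a
  | step (a c b : K →ₐ[k] B) (j : S) (h : ∀ x ∈ L j, a x = c x) (hl : Linked L c b) : Linked L a b

theorem Linked.comp {k : Type u} {K : Type u} [Field k] [Field K] [Algebra k K] {S : Type v}
    {L : S → IntermediateField k K} {B C : Type u} [CommRing B] [Algebra k B]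
    [CommRing C] [Algebra k C] (f : B →ₐ[k] C) {a b : K →ₐ[k] B} (h : Linked L a b) :
    Linked L (f.comp a) (f.comp b) := by
  induction h with
  | refl a => exact Linked.refl _
  | step a c b j h hl ih => exact Linked.step _ (f.comp c) _ j (fun x hx => by simp [h x hx]) ih

variable {k : Type u} {K : Type u} [Field k] [Field K] [Algebra k K] {S : Type v}
  (L : S → IntermediateField k K)

/-- The ideals of `K ⊗[k] K` which are the kernel of `a ⊗ b` for a linked pair `(a, b)` of
embeddings into a domain. -/
def IsChainIdeal (I : Ideal (K ⊗[k] K)) : Prop :=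
  ∃ (B : Type u) (_ : CommRing B) (_ : IsDomain B) (_ : Algebra k B) (a b : K →ₐ[k] B),
    Linked L a b ∧
      RingHom.ker (Algebra.TensorProduct.lift a b (fun _ _ => Commute.all _ _)) = I

variable {L}

theorem IsChainIdeal.isPrime {I : Ideal (K ⊗[k] K)} (h : IsChainIdeal L I) : I.IsPrime := by
  obtain ⟨B, _, _, _, a, b, -, rfl⟩ := h
  exact RingHom.ker_isPrime _

theorem isChainIdeal_exists : ∃ I : Ideal (K ⊗[k] K), IsChainIdeal L I :=
  ⟨_, K, inferInstance, inferInstance, inferInstance, AlgHom.id k K, AlgHom.id k K,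
    Linked.refl _, rfl⟩

theorem IsChainIdeal.step [CharZero k] {I : Ideal (K ⊗[k] K)} (h : IsChainIdeal L I) (j : S)
    (hL : ∀ x : K, IsAlgebraic (L j) x → x ∈ L j) :
    ∃ I' : Ideal (K ⊗[k] K), IsChainIdeal L I' ∧ I' ≤ I ∧
      ∀ (π : K →ₗ[L j] K) (w : K ⊗[k] K), w ∈ I' →
        (π.restrictScalars k).rTensor K w ∈ I' := by
  obtain ⟨B, _, _, _, a, b, hab, rfl⟩ := h
  let algB : Algebra (L j) B := (a.toRingHom.comp (algebraMap (L j) K)).toAlgebra
  have hmap : ∀ x : L j, algebraMap (L j) B x = a x := fun x => rfl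
  have tow : IsScalarTower k (L j) B := IsScalarTower.of_algebraMap_eq fun x => by
    rw [hmap]
    have : ((algebraMap k (L j) x : L j) : K) = algebraMap k K x := rfl
    rw [this, a.commutes]
  have hL' : ∀ x : K, IsAlgebraic (L j) x → x ∈ (algebraMap (L j) K).range := by
    intro x hx
    exact ⟨⟨x, hL x hx⟩, rfl⟩
  have : CharZero (L j) := charZero_of_injective_algebraMap (algebraMap k (L j)).injective
  have dom : IsDomain (K ⊗[L j] B) := isDomain_tensor_of_algClosedIn hL'
  let a' : K →ₐ[k] K ⊗[L j] B :=
    (Algebra.TensorProduct.includeLeft : K →ₐ[k] K ⊗[L j] B)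
  let ir : B →ₐ[k] K ⊗[L j] B :=
    (Algebra.TensorProduct.includeRight : B →ₐ[L j] K ⊗[L j] B).restrictScalars k
  let b' : K →ₐ[k] K ⊗[L j] B := ir.comp b
  have hlink : Linked L a' b' := by
    refine Linked.step _ (ir.comp a) _ j ?_ (hab.comp ir)
    intro x hx
    have h1 : (x ⊗ₜ[L j] (1 : B)) = (1 : K) ⊗ₜ[L j] (a x) := by
      have : x = (⟨x, hx⟩ : L j) • (1 : K) := by
        rw [Algebra.smul_def, mul_one]; rfl
      conv_lhs => rw [this]
      rw [TensorProduct.smul_tmul, Algebra.smul_def, mul_one]
      rfl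
    exact h1
  -- the collapsing map
  let col : K ⊗[L j] B →ₐ[L j] B :=
    Algebra.TensorProduct.lift
      ({ a.toRingHom with commutes' := fun x => rfl } : K →ₐ[L j] B) (AlgHom.id (L j) B)
      (fun _ _ => Commute.all _ _)
  refine ⟨RingHom.ker (Algebra.TensorProduct.lift a' b' (fun _ _ => Commute.all _ _)),
    ⟨K ⊗[L j] B, inferInstance, dom, inferInstance, a', b', hlink, rfl⟩, ?_, ?_⟩
  · -- I' ≤ I
    intro w hw
    have hfac : ∀ w, Algebra.TensorProduct.lift a b (fun _ _ => Commute.all _ _) w =
        col (Algebra.TensorProduct.lift a' b' (fun _ _ => Commute.all _ _) w) := by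
      intro w
      induction w with
      | zero => simp
      | add x y hx hy => rw [map_add, map_add, map_add, hx, hy]
      | tmul x y =>
        simp only [Algebra.TensorProduct.lift_tmul]
        have : a' x * b' y = x ⊗ₜ[L j] (b y) := by
          simp [a', b', ir]
        rw [this]
        rfl
    rw [RingHom.mem_ker] at hw ⊢
    rw [hfac, hw, map_zero]
  · intro π w hw
    have hfac : ∀ w, Algebra.TensorProduct.lift a' b' (fun _ _ => Commute.all _ _)
          ((π.restrictScalars k).rTensor K w) =
        (π.rTensor B) (Algebra.TensorProduct.lift a' b' (fun _ _ => Commute.all _ _) w) := by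
      intro w
      induction w with
      | zero => simp
      | add x y hx hy => rw [map_add, map_add, map_add, map_add, hx, hy]
      | tmul x y =>
        simp [a', b', ir]
    rw [RingHom.mem_ker] at hw ⊢
    rw [hfac, hw, map_zero]


/-- A chain ideal which is stable under all `L j`-linear endomorphisms of the left factor, for all
`j`, vanishes when the intersection of the `L j` is `k`. -/
theorem eq_bot_of_stable {I : Ideal (K ⊗[k] K)} (hI : IsChainIdeal L I)
    (hL : ⨅ j, L j = ⊥)
    (hst : ∀ (j : S) (π : K →ₗ[L j] K) (w : K ⊗[k] K), w ∈ I →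
        (π.restrictScalars k).rTensor K w ∈ I) : I = ⊥ := by
  classical
  by_contra hne
  let bas := Module.Basis.ofVectorSpace k K
  let e := bas.baseChange K
  -- nonzero element with minimal support
  have hex : ∃ n, ∃ w ∈ I, w ≠ 0 ∧ (e.repr w).support.card = n := by
    obtain ⟨w, hw, hw0⟩ := Submodule.exists_mem_ne_zero_of_ne_bot hne
    exact ⟨_, w, hw, hw0, rfl⟩
  obtain ⟨w₀, hw₀, hw₀0, hcard⟩ := Nat.find_spec hex
  have hmin : ∀ w ∈ I, (e.repr w).support.card < (e.repr w₀).support.card → w = 0 := by
    intro w hw hlt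
    by_contra h0
    rw [hcard] at hlt
    exact Nat.find_min hex hlt ⟨w, hw, h0, rfl⟩
  have hr : e.repr w₀ ≠ 0 := by simpa using hw₀0
  obtain ⟨i₀, hi₀⟩ := Finsupp.ne_iff.mp hr
  simp only [Finsupp.coe_zero, Pi.zero_apply, ne_eq] at hi₀
  let c := e.repr w₀ i₀
  let w := c⁻¹ • w₀
  have hw : w ∈ I := by
    have : w = (c⁻¹ ⊗ₜ[k] (1 : K)) * w₀ := by
      simp only [w]
      rw [Algebra.smul_def]; rfl
    rw [this]
    exact I.mul_mem_left _ hw₀
  have hwr : ∀ i, e.repr w i = c⁻¹ * e.repr w₀ i := fun i => by simp [w]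
  have hwi₀ : e.repr w i₀ = 1 := by rw [hwr]; exact inv_mul_cancel₀ hi₀
  have hwsupp : (e.repr w).support ⊆ (e.repr w₀).support := by
    intro i hi
    rw [Finsupp.mem_support_iff] at hi ⊢
    intro h0; apply hi; rw [hwr, h0, mul_zero]
  -- action of π on coordinates
  have hπ : ∀ (j : S) (π : K →ₗ[L j] K) (w : K ⊗[k] K) (i),
      e.repr ((π.restrictScalars k).rTensor K w) i = π (e.repr w i) := by
    intro j π w i
    induction w with
    | zero => simp
    | add x y hx hy => simp [map_add, hx, hy]
    | tmul x y =>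
      simp only [LinearMap.rTensor_tmul, LinearMap.coe_restrictScalars, e,
        Module.Basis.baseChange_repr_tmul]
      have : ∀ r : k, ∀ z : K, π (r • z) = r • π z := by
        intro r z
        exact (π.restrictScalars k).map_smul r z
      rw [this]
  have hmem : ∀ i, e.repr w i ∈ (⊥ : IntermediateField k K) := by
    intro i
    rw [← hL, ← SetLike.mem_coe, IntermediateField.coe_iInf, Set.mem_iInter]
    intro j
    rw [SetLike.mem_coe]
    -- a projection onto L j
    obtain ⟨g, hg⟩ := (Algebra.linearMap (L j) K).exists_leftInverse_of_injective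
      (LinearMap.ker_eq_bot.mpr (algebraMap (L j) K).injective)
    let π : K →ₗ[L j] K := (Algebra.linearMap (L j) K).comp g
    have hπ1 : π 1 = 1 := by
      have h1 : g (algebraMap (L j) K 1) = 1 := by
        have := LinearMap.congr_fun hg 1
        simpa using this
      simp only [π, LinearMap.comp_apply]
      rw [map_one] at h1
      rw [h1]; simp
    have hπm : ∀ x, π x ∈ L j := fun x => (g x).2
    let w' := (π.restrictScalars k).rTensor K w
    have hw' : w' ∈ I := hst j π w hw
    have hdiff : w - w' = 0 := by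
      apply hmin _ (I.sub_mem hw hw')
      apply Finset.card_lt_card
      rw [Finset.ssubset_iff_of_subset]
      · refine ⟨i₀, Finsupp.mem_support_iff.mpr hi₀, ?_⟩
        rw [Finsupp.notMem_support_iff, map_sub, Finsupp.sub_apply, hπ, hwi₀, hπ1, sub_self]
      · intro i' hi'
        by_contra hcon
        have h0 : e.repr w i' = 0 := by
          by_contra h
          exact hcon (hwsupp (Finsupp.mem_support_iff.mpr h))
        rw [Finsupp.mem_support_iff, map_sub, Finsupp.sub_apply, hπ, h0, map_zero, sub_self] at hi'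
        exact hi' rfl
    have : w = w' := sub_eq_zero.mp hdiff
    rw [this, hπ]
    exact hπm _
  -- hence w = 1 ⊗ y
  have hex2 : ∀ i, ∃ r : k, algebraMap k K r = e.repr w i := fun i => by
    have := hmem i
    rw [IntermediateField.mem_bot] at this
    exact this
  choose r hr2 using hex2
  have hy : w = (1 : K) ⊗ₜ[k] (∑ i ∈ (e.repr w).support, r i • bas i) := by
    conv_lhs => rw [← e.linearCombination_repr w, Finsupp.linearCombination_apply, Finsupp.sum]
    rw [TensorProduct.tmul_sum]
    refine Finset.sum_congr rfl fun i _ => ?_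
    rw [← hr2 i, TensorProduct.tmul_smul]
    simp only [e, Module.Basis.baseChange_apply]
    rw [algebraMap_smul]
  obtain ⟨B, _, _, _, a, b, -, rfl⟩ := hI
  have h0 : b (∑ i ∈ (e.repr w).support, r i • bas i) = 0 := by
    rw [RingHom.mem_ker, hy] at hw
    simpa using hw
  have h1 : (∑ i ∈ (e.repr w).support, r i • bas i) = 0 := by
    exact (map_eq_zero_iff b b.toRingHom.injective).mp h0
  have h2 : w = 0 := by rw [hy, h1, TensorProduct.tmul_zero]
  rw [h2] at hwi₀
  simp at hwi₀

/-- **Chain lemma.** -/
theorem exists_generic_chain [CharZero k] [Algebra.EssFiniteType k K]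
    (hL : ⨅ j, L j = ⊥) (hac : ∀ (j : S) (x : K), IsAlgebraic (L j) x → x ∈ L j) :
    ∃ (F : Type u) (_ : Field F) (_ : Algebra k F) (a b : K →ₐ[k] F), Linked L a b ∧
      Function.Injective (Algebra.TensorProduct.lift a b (fun _ _ => Commute.all _ _)) := by
  classical
  have hnoeth : IsNoetherianRing (K ⊗[k] K) := Algebra.EssFiniteType.isNoetherianRing K _
  -- a chain ideal of minimal height
  have hex : ∃ h : ℕ∞, ∃ I : Ideal (K ⊗[k] K), IsChainIdeal L I ∧ I.height = h := by
    obtain ⟨I, hI⟩ := isChainIdeal_exists (L := L)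
    exact ⟨_, I, hI, rfl⟩
  let T : Set ℕ∞ := {h : ℕ∞ | ∃ I : Ideal (K ⊗[k] K), IsChainIdeal L I ∧ I.height = h}
  obtain ⟨h₀, ⟨I, hI, hIh⟩, hmin'⟩ := WellFounded.has_min (wellFounded_lt (α := ℕ∞)) T hex
  have hmin : ∀ J, IsChainIdeal L J → I.height ≤ J.height := by
    intro J hJ
    rw [hIh]
    exact not_lt.mp (hmin' _ ⟨J, hJ, rfl⟩)
  have hbot : I = ⊥ := by
    apply eq_bot_of_stable hI hL
    intro j
    obtain ⟨I', hI', hle, hst⟩ := hI.step j (hac j)
    have := hI'.isPrime
    have : I' = I := Ideal.eq_of_le_of_height_le _ hle (hmin _ hI')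
    rw [this] at hst
    exact hst
  obtain ⟨B, _, _, _, a, b, hab, hker⟩ := hI
  rw [hbot] at hker
  let F := FractionRing B
  let ι : B →ₐ[k] F := IsScalarTower.toAlgHom k B F
  refine ⟨F, inferInstance, inferInstance, ι.comp a, ι.comp b, hab.comp ι, ?_⟩
  have hfac : ∀ w, Algebra.TensorProduct.lift (ι.comp a) (ι.comp b) (fun _ _ => Commute.all _ _) w =
      ι (Algebra.TensorProduct.lift a b (fun _ _ => Commute.all _ _) w) := by
    intro w
    induction w with
    | zero => simp
    | add x y hx hy => rw [map_add, map_add, map_add, hx, hy]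
    | tmul x y => simp
  intro w w' hww
  rw [hfac, hfac] at hww
  have h1 := IsFractionRing.injective B F hww
  exact (RingHom.injective_iff_ker_eq_bot _).mpr hker h1

end Pool.Agent.Lib.MP_cc17a8_ag
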