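import Mathlib
import Pool.Agent.Lib.MP_cc17a8_ag.Chain
import Pool.Agent.Lib.MP_cc17a8_ag.PlacesFF

open TensorProduct Polynomial

universe u v

namespace Pool.Agent.Lib.MP_cc17a8_ag

section

variable {k Ω : Type u} [Field k] [Field Ω] [Algebra k Ω] 

/-- A large algebraically closed subfield over which `t` is transcendental. -/
theorem exists_large_subfield [IsAlgClosed Ω] (M : IntermediateField k Ω) (t : Ω)
    (ht : Transcendental M t) :
    ∃ W : IntermediateField k Ω, M ≤ W ∧ IsAlgClosed W ∧ Transcendental W t ∧
      Algebra.IsAlgebraic (IntermediateField.adjoin W {t}) Ω := by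
  have h1 : AlgebraicIndepOn M id {t} := by
    change AlgebraicIndependent M (fun i : ({t} : Set Ω) => (i : Ω))
    exact algebraicIndependent_unique_type_iff.mpr ht
  obtain ⟨s, hs, hb⟩ := exists_isTranscendenceBasis_superset h1
  have hts : t ∈ s := hs rfl
  let N : IntermediateField M Ω := IntermediateField.adjoin M (s \ {t})
  have htN : Transcendental N t := by
    rw [IntermediateField.transcendental_adjoin_iff]
    have := hb.1.transcendental_adjoin (s := {i : s | (i : Ω) ≠ t}) (i := ⟨t, hts⟩) (by simp)
    have hset : (Subtype.val '' {i : s | (i : Ω) ≠ t} : Set Ω) = s \ {t} := by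
      ext x
      simp [and_comm]
    rw [hset] at this
    exact this
  let W0 : IntermediateField N Ω := algebraicClosure N Ω
  have hW0 : IsAlgClosed W0 := IsAlgClosure.isAlgClosed N
  have htW : Transcendental W0 t := by
    intro h
    apply htN
    exact h.restrictScalars N
  have hmem : ∀ x : M, (x : Ω) ∈ W0 := by
    intro x
    rw [mem_algebraicClosure_iff]
    exact isAlgebraic_algebraMap (algebraMap M N x)
  let W : IntermediateField k Ω := (W0.restrictScalars M).restrictScalars k
  refine ⟨W, ?_, hW0, htW, ?_⟩
  · intro x hx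
    exact hmem ⟨x, hx⟩
  · have h2 : Algebra.IsAlgebraic (IntermediateField.adjoin M s) Ω := by
      have := hb.isAlgebraic_field
      rwa [Subtype.range_coe] at this
    have h3 : ∀ x ∈ IntermediateField.adjoin M s, x ∈ IntermediateField.adjoin W {t} := by
      intro x hx
      induction hx using IntermediateField.adjoin_induction with
      | mem x hx =>
        by_cases hxt : x = t
        · rw [hxt]; exact IntermediateField.mem_adjoin_simple_self W t
        · have h4 : x ∈ N := IntermediateField.subset_adjoin _ _ ⟨hx, hxt⟩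
          have h5 : x ∈ W := by
            change x ∈ W0
            rw [mem_algebraicClosure_iff]
            exact isAlgebraic_algebraMap (⟨x, h4⟩ : N)
          exact (IntermediateField.adjoin W {t}).algebraMap_mem ⟨x, h5⟩
      | algebraMap x =>
        exact (IntermediateField.adjoin W {t}).algebraMap_mem (⟨x, hmem x⟩ : W)
      | add x y _ _ hx hy => exact add_mem hx hy
      | inv x _ hx => exact inv_mem hx
      | mul x y _ _ hx hy => exact mul_mem hx hy
    let j : IntermediateField.adjoin M s →+* IntermediateField.adjoin W {t} :=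
      (algebraMap (IntermediateField.adjoin M s) Ω).codRestrict
        (IntermediateField.adjoin W {t}).toSubring (fun x => h3 x x.2)
    let _ : Algebra (IntermediateField.adjoin M s) (IntermediateField.adjoin W {t}) := j.toAlgebra
    have : IsScalarTower (IntermediateField.adjoin M s) (IntermediateField.adjoin W {t}) Ω :=
      IsScalarTower.of_algebraMap_eq fun _ => rfl
    exact Algebra.IsAlgebraic.tower_top (K := IntermediateField.adjoin M s)
      (IntermediateField.adjoin W {t})

theorem isFunctionField_adjoin (W : IntermediateField k Ω) (t : Ω) (htr : Transcendental W t)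
    (halg : Algebra.IsAlgebraic (IntermediateField.adjoin W {t}) Ω) (S : Finset Ω) (hS : t ∈ S) :
    IsFunctionField W (IntermediateField.adjoin W (S : Set Ω)) := by
  constructor
  · apply le_antisymm
    · refine (trdeg_le_of_injective (IntermediateField.adjoin W (S : Set Ω)).val
        (RingHom.injective _)).trans ?_
      have h1 : Algebra.IsAlgebraic (Algebra.adjoin W {t}) Ω :=
        ⟨fun y => IntermediateField.isAlgebraic_adjoin_iff.mp (halg.isAlgebraic y)⟩
      have h2 := Algebra.IsAlgebraic.trdeg_le_cardinalMk (R := W) (s := {t}) (A := Ω)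
      simpa using h2
    · rw [Cardinal.one_le_iff_ne_zero, trdeg_ne_zero_iff]
      refine ⟨⟨t, IntermediateField.subset_adjoin _ _ hS⟩, ?_⟩
      intro h
      exact htr (h.algHom (IntermediateField.adjoin W (S : Set Ω)).val)
  · rw [IntermediateField.essFiniteType_iff]
    exact IntermediateField.fg_adjoin_finset S

end

section

variable {k K : Type u} [Field k] [Field K] [Algebra k K] {ι : Type v}
  {L : ι → IntermediateField k K} {Ω : Type u} [Field Ω] [Algebra k Ω]

theorem exists_lift_algHom {F : Type u} [Field F] [Algebra k F] (j : F →ₐ[k] Ω) (a : K →ₐ[k] Ω)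
    (h : ∀ x, a x ∈ j.range) : ∃ a' : K →ₐ[k] F, j.comp a' = a := by
  let e : F ≃ₐ[k] j.range := AlgEquiv.ofInjective j j.toRingHom.injective
  refine ⟨(e.symm.toAlgHom).comp (a.codRestrict j.range h), ?_⟩
  ext x
  have h1 : e (e.symm (a.codRestrict j.range h x)) = a.codRestrict j.range h x :=
    e.apply_symm_apply _
  exact congrArg Subtype.val h1

theorem exists_finset_range [Algebra.EssFiniteType k K] (a : K →ₐ[k] Ω) :
    ∃ S : Finset Ω, ∀ (F : Type u) [Field F] [Algebra k F] (j : F →ₐ[k] Ω),
      (S : Set Ω) ⊆ Set.range j → ∀ x, a x ∈ j.range := by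
  classical
  obtain ⟨S0, hS0⟩ := IntermediateField.fg_top k K
  refine ⟨S0.image a, fun F _ _ j hj x => ?_⟩
  have h1 : (⊤ : IntermediateField k K) ≤ j.fieldRange.comap a := by
    rw [← hS0, IntermediateField.adjoin_le_iff]
    intro y hy
    exact hj (by simpa using ⟨y, hy, rfl⟩)
  exact h1 (IntermediateField.mem_top (x := x))

theorem Linked.exists_finset [Algebra.EssFiniteType k K] {a b : K →ₐ[k] Ω} (h : Linked L a b) :
    ∃ S : Finset Ω, ∀ (F : Type u) [Field F] [Algebra k F] (j : F →ₐ[k] Ω),
      (S : Set Ω) ⊆ Set.range j → ∃ a' b' : K →ₐ[k] F, j.comp a' = a ∧ j.comp b' = b ∧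
        Linked L a' b' := by
  classical
  induction h with
  | refl a =>
    obtain ⟨S, hS⟩ := exists_finset_range a
    refine ⟨S, fun F _ _ j hj => ?_⟩
    obtain ⟨a', ha'⟩ := exists_lift_algHom j a (hS F j hj)
    exact ⟨a', a', ha', ha', Linked.refl _⟩
  | step a c b i h hl ih =>
    obtain ⟨S1, hS1⟩ := ih
    obtain ⟨S2, hS2⟩ := exists_finset_range a
    refine ⟨S1 ∪ S2, fun F _ _ j hj => ?_⟩
    rw [Finset.coe_union, Set.union_subset_iff] at hj
    obtain ⟨c', b', hc', hb', hl'⟩ := hS1 F j hj.1
    obtain ⟨a', ha'⟩ := exists_lift_algHom j a (hS2 F j hj.2)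
    refine ⟨a', b', ha', hb', Linked.step _ c' _ i (fun x hx => ?_) hl'⟩
    apply j.toRingHom.injective
    have h1 : j (a' x) = a x := by rw [← ha']; rfl
    have h2 : j (c' x) = c x := by rw [← hc']; rfl
    change j (a' x) = j (c' x)
    rw [h1, h2, h x hx]

end

end Pool.Agent.Lib.MP_cc17a8_ag
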