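import Mathlib
import Pool.Agent.Lib.MP_cc17a8_ag.Chain

open TensorProduct Polynomial

universe u v

namespace Pool.Agent.Lib.MP_cc17a8_ag

variable {k : Type u} {K : Type u} [Field k] [Field K] [Algebra k K]

theorem transcendental_of_injective {Ω : Type u} [Field Ω] [Algebra k Ω] (a b : K →ₐ[k] Ω)
    (hinj : Function.Injective (Algebra.TensorProduct.lift a b (fun _ _ => Commute.all _ _)))
    (Lp : IntermediateField k K) (t : K) (ht : Transcendental Lp t) :
    Transcendental (IntermediateField.adjoin k (Set.range a ∪ b '' Lp)) (b t) := by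
  classical
  rw [IntermediateField.transcendental_adjoin_iff]
  let θ : K ⊗[k] Lp →ₐ[k] Ω := Algebra.TensorProduct.lift a (b.comp Lp.val) (fun _ _ => Commute.all _ _)
  have hθ : ∀ x y, θ (x ⊗ₜ y) = a x * b y := fun x y => by simp [θ]
  have hrange : Algebra.adjoin k (Set.range a ∪ b '' Lp) ≤ θ.range := by
    rw [Algebra.adjoin_le_iff]
    rintro _ (⟨x, rfl⟩ | ⟨y, hy, rfl⟩)
    · exact ⟨x ⊗ₜ 1, by simp [θ]⟩
    · exact ⟨1 ⊗ₜ ⟨y, hy⟩, by simp [θ]⟩
  let B := Module.Basis.ofVectorSpace k K
  let e : K ⊗[k] K ≃ₗ[k] _ := TensorProduct.equivFinsuppOfBasisLeft B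
  let e' : K ⊗[k] Lp ≃ₗ[k] _ := TensorProduct.equivFinsuppOfBasisLeft B
  let ι : K ⊗[k] Lp →ₐ[k] K ⊗[k] K := Algebra.TensorProduct.map (AlgHom.id k K) Lp.val
  have he : ∀ (w : K ⊗[k] Lp) (y : K) α, e (ι w * (1 ⊗ₜ y)) α = (e' w α : K) * y := by
    intro w y α
    induction w with
    | zero => simp
    | add w w' hw hw' =>
      rw [map_add, add_mul, map_add, map_add, Finsupp.add_apply, Finsupp.add_apply, hw, hw']
      push_cast
      ring
    | tmul x z =>
      simp [ι, e, e']
  have hΦ : ∀ (w : K ⊗[k] Lp) (y : K),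
      Algebra.TensorProduct.lift a b (fun _ _ => Commute.all _ _) (ι w * (1 ⊗ₜ y)) =
        θ w * b y := by
    intro w y
    induction w with
    | zero => simp
    | add w w' hw hw' => rw [map_add, add_mul, map_add, hw, hw', map_add, add_mul]
    | tmul x z =>
      simp [ι, θ]
      ring
  rw [transcendental_iff]
  intro P hP
  have hw : ∀ n, ∃ w : K ⊗[k] Lp, θ w = (P.coeff n : Ω) := fun n => hrange (P.coeff n).2
  choose w hw using hw
  have h1 : ∑ n ∈ Finset.range (P.natDegree + 1), ι (w n) * (1 ⊗ₜ (t ^ n)) = 0 := by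
    apply hinj
    rw [map_zero, map_sum, ← hP, Polynomial.aeval_eq_sum_range]
    apply Finset.sum_congr rfl
    intro n _
    rw [hΦ, hw, map_pow, Algebra.smul_def]
    rfl
  have h2 : ∀ n ≤ P.natDegree, w n = 0 := by
    intro n hn
    apply e'.injective
    rw [map_zero]
    ext α
    rw [Finsupp.zero_apply]
    let Q : Lp[X] := ∑ n ∈ Finset.range (P.natDegree + 1), monomial n (e' (w n) α)
    have hQ : aeval t Q = 0 := by
      have h3 := congrArg (fun z => e z α) h1
      simp only [map_sum, map_zero, Finsupp.coe_zero, Pi.zero_apply, Finsupp.finsetSum_apply,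
        he] at h3
      rw [← h3, map_sum]
      apply Finset.sum_congr rfl
      intro n _
      rw [aeval_monomial]
      rfl
    have hQ0 : Q = 0 := (transcendental_iff.mp ht) Q hQ
    have h4 : Q.coeff n = e' (w n) α := by
      rw [finsetSum_coeff]
      simp only [coeff_monomial]
      rw [Finset.sum_ite_eq', if_pos (Finset.mem_range.mpr (Nat.lt_succ_of_le hn))]
    rw [← h4, hQ0, coeff_zero]
  ext n
  rw [coeff_zero, ← hw]
  by_cases hn : n ≤ P.natDegree
  · rw [h2 n hn, map_zero]; rfl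
  · rw [hw, coeff_eq_zero_of_natDegree_lt (not_le.mp hn)]

end Pool.Agent.Lib.MP_cc17a8_ag
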