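import Mathlib
import Pool.Agent.Lib.MP_cc17a8_ag.Transc
import Pool.Agent.Lib.MP_cc17a8_ag.Subfield

open TensorProduct Polynomial

universe u v

namespace Pool.Agent.Lib.MP_cc17a8_ag

theorem chain_core {k K : Type u} [Field k] [CharZero k] [Field K] [Algebra k K]
    [Algebra.EssFiniteType k K] {ι : Type v}
    (L : ι → IntermediateField k K) (hL : ⨅ j, L j = ⊥) (hac : ∀ j x, IsAlgebraic (L j) x → x ∈ L j)
    (Lp : IntermediateField k K) (t : K) (ht : Transcendental Lp t) :
    ∃ (W F : Type u) (_ : Field W) (_ : Field F) (_ : Algebra W F) (_ : Algebra k F)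
      (_ : CharZero W) (_ : IsAlgClosed W) (a b : K →ₐ[k] F), Linked L a b ∧
      IsFunctionField W F ∧ (∀ x, a x ∈ (algebraMap W F).range) ∧
      (∀ x ∈ Lp, b x ∈ (algebraMap W F).range) ∧ b t ∉ (algebraMap W F).range := by
  obtain ⟨F0, _, _, a0, b0, hl0, hinj0⟩ := exists_generic_chain hL hac
  let Ω := AlgebraicClosure F0
  let i : F0 →ₐ[k] Ω := IsScalarTower.toAlgHom k F0 Ω
  let a1 : K →ₐ[k] Ω := i.comp a0
  let b1 : K →ₐ[k] Ω := i.comp b0
  have hl1 : Linked L a1 b1 := hl0.comp i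
  have hinj1 : Function.Injective (Algebra.TensorProduct.lift a1 b1 (fun _ _ => Commute.all _ _)) := by
    have h1 : Algebra.TensorProduct.lift a1 b1 (fun _ _ => Commute.all _ _) =
        i.comp (Algebra.TensorProduct.lift a0 b0 (fun _ _ => Commute.all _ _)) := by
      ext <;> simp [a1, b1]
    rw [h1]
    exact i.toRingHom.injective.comp hinj0
  have htr := transcendental_of_injective a1 b1 hinj1 Lp t ht
  obtain ⟨W, hMW, hWac, htW, halgW⟩ := exists_large_subfield _ _ htr
  obtain ⟨S, hS⟩ := hl1.exists_finset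
  classical
  let F := IntermediateField.adjoin W ((insert (b1 t) S : Finset Ω) : Set Ω)
  have hFF : IsFunctionField W F :=
    isFunctionField_adjoin W (b1 t) htW halgW _ (Finset.mem_insert_self _ _)
  let j : F →ₐ[k] Ω := F.val.restrictScalars k
  have hrange : (S : Set Ω) ⊆ Set.range j := by
    intro y hy
    exact ⟨⟨y, IntermediateField.subset_adjoin _ _ (Finset.mem_insert_of_mem hy)⟩, rfl⟩
  obtain ⟨a, b, ha, hb, hl⟩ := hS F j hrange
  have hcz : CharZero W := charZero_of_injective_algebraMap (algebraMap k W).injective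
  have hja : ∀ x, ((a x : F) : Ω) = a1 x := fun x => by rw [← ha]; rfl
  have hjb : ∀ x, ((b x : F) : Ω) = b1 x := fun x => by rw [← hb]; rfl
  refine ⟨W, F, inferInstance, inferInstance, inferInstance, inferInstance, hcz, hWac, a, b, hl,
    hFF, ?_, ?_, ?_⟩
  · intro x
    have h1 : a1 x ∈ W := hMW (IntermediateField.subset_adjoin _ _ (Or.inl ⟨x, rfl⟩))
    exact ⟨⟨a1 x, h1⟩, Subtype.ext (hja x).symm⟩
  · intro x hx
    have h1 : b1 x ∈ W := hMW (IntermediateField.subset_adjoin _ _ (Or.inr ⟨x, hx, rfl⟩))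
    exact ⟨⟨b1 x, h1⟩, Subtype.ext (hjb x).symm⟩
  · rintro ⟨w, hw⟩
    apply htW
    rw [← hjb t, ← hw]
    exact isAlgebraic_algebraMap w

end Pool.Agent.Lib.MP_cc17a8_ag
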