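import Mathlib
import Pool.Agent.Lib.MP_cc17a8_ag.Ample

open AlgebraicGeometry CategoryTheory

universe u

namespace Pool.Agent.Lib.MP_cc17a8_ag

theorem mem_range_of_forall_mem {L F : Type u} [Field L] [Field F] [Algebra L F] [CharZero L]
    [IsAlgClosed L] (hF : IsFunctionField L F) {y : F}
    (hy : ∀ v : ValuationSubring F, IsPlace L v → y ∈ v) : y ∈ (algebraMap L F).range := by
  by_contra hcon
  have htr : Transcendental L y := by
    intro h
    have h1 : FiniteDimensional L (IntermediateField.adjoin L {y}) :=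
      IntermediateField.adjoin.finiteDimensional h.isIntegral
    have h2 : IntermediateField.adjoin L {y} = ⊥ :=
      IntermediateField.eq_bot_of_isAlgClosed_of_isAlgebraic _
    have h3 : y ∈ IntermediateField.adjoin L {y} := IntermediateField.mem_adjoin_simple_self L y
    rw [h2, IntermediateField.mem_bot] at h3
    exact hcon h3
  have htr' : Transcendental L y⁻¹ := by
    intro h
    apply htr
    have := h.inv
    rwa [inv_inv] at this
  obtain ⟨v, hv, -, hv2⟩ := hF.exists_zero htr'
  rw [inv_inv] at hv2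
  exact hv2 (hy v hv)

section

variable {k L F : Type u} [Field k] [Field L] [Field F] [Algebra L F] [CharZero L] [IsAlgClosed L]
  {X : Scheme.{u}} [IsIntegral X] {f : X ⟶ Spec (.of k)} [IsProper f] {x : X}
  {g : X.presheaf.stalk x →+* F} [IsLocalHom g]

theorem GoodPoint.degree_ample_pos (hg : GoodPoint f g L) {A : CartierDivisor X} (hA : A.IsAmple)
    (hnc : ∃ a, g a ∉ (algebraMap L F).range) : 0 < degree {v | IsPlace L v} g A := by
  obtain ⟨n, hn, s, hs, U, hU, hxU, hUs⟩ := hA x
  have hne : Nonempty U := ⟨⟨x, hxU⟩⟩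
  have key : 0 < degree {v | IsPlace L v} g (n • A) := by
    apply hg.degree_pos (n • A) (s := s)
    · rw [CartierDivisor.nsmul_eqn, ← hUs]; exact hxU
    · intro v hv
      rw [CartierDivisor.nsmul_eqn]; exact hs _
    · by_contra hcon
      push Not at hcon
      simp only [CartierDivisor.nsmul_eqn, ← hUs] at hcon
      obtain ⟨a, ha⟩ := hnc
      apply ha
      obtain ⟨b, r, hr, hbr⟩ := exists_frac_of_isRegularAt hU hxU (h := algebraMap _ _ a) ⟨a, rfl⟩
      have h1 : ∀ b : Γ(X, U), evalAt g (algebraMap Γ(X, U) X.functionField b) ∈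
          (algebraMap L F).range := by
        intro b
        apply mem_range_of_forall_mem hg.ff
        intro v hv
        exact (hg.isCenter hv).mem (isRegularAt_section (hcon v hv) b)
      have h2 := congrArg (evalAt g) hbr
      rw [evalAt_mul g ⟨a, rfl⟩ hr.isRegularAt, evalAt_algebraMap] at h2
      have h3 : g a = evalAt g (algebraMap Γ(X, U) X.functionField b) /
          evalAt g (algebraMap Γ(X, U) X.functionField r) := by
        rw [eq_div_iff (evalAt_ne_zero g hr)]
        exact h2
      rw [h3]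
      obtain ⟨b', hb'⟩ := h1 b
      obtain ⟨r', hr'⟩ := h1 r
      exact ⟨b' / r', by rw [map_div₀, hb', hr']⟩
  rw [hg.degree_nsmul] at key
  exact (pos_iff_pos_of_mul_pos key).mp (by exact_mod_cast hn)

end

theorem essFiniteType_constants {k : Type u} [Field k] {X : Scheme.{u}} (f : X ⟶ Spec (.of k))
    [LocallyOfFiniteType f] (x : X) : (constants f x).EssFiniteType := by
  have h1 : constants f x = (f.stalkMap x).hom.comp
      ((Scheme.ΓSpecIso (.of k)).inv ≫
        (Spec (.of k)).presheaf.germ ⊤ (f x) trivial).hom := by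
    rw [constants, globalConstants, ← CommRingCat.hom_comp, Category.assoc, Category.assoc]
    congr 2
    exact (Scheme.Hom.germ_stalkMap f ⊤ x trivial).symm
  rw [h1]
  refine RingHom.EssFiniteType.comp ?_ (LocallyOfFiniteType.stalkMap f x)
  let _ : Algebra k ((Spec (.of k)).presheaf.stalk (f x)) := ((Scheme.ΓSpecIso (.of k)).inv ≫
        (Spec (.of k)).presheaf.germ ⊤ (f x) trivial).hom.toAlgebra
  have h2 : IsLocalization (f x).asIdeal.primeCompl ((Spec (.of k)).presheaf.stalk (f x)) :=
    StructureSheaf.IsLocalization.to_stalk (.of k : CommRingCat.{u}) (f x)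
  exact Algebra.EssFiniteType.of_isLocalization (R := k)
    ((Spec (.of k)).presheaf.stalk (f x)) (f x).asIdeal.primeCompl

section Open

variable {X : Scheme.{u}} [IsIntegral X]

theorem IsRegularAt.exists_open {x : X} {r : X.functionField} (hr : IsRegularAt x r) :
    ∃ V : X.Opens, ∃ hx : x ∈ V, ∃ b : Γ(X, V),
      letI : Nonempty V := ⟨⟨x, hx⟩⟩
      algebraMap Γ(X, V) X.functionField b = r := by
  obtain ⟨a, rfl⟩ := hr
  obtain ⟨V, hxV, b, hb⟩ := X.presheaf.exists_germ_eq a
  have : Nonempty V := ⟨⟨x, hxV⟩⟩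
  refine ⟨V, hxV, b, ?_⟩
  rw [← hb]
  exact (Scheme.algebraMap_germ_eq_germToFunctionField X hxV b).symm

theorem IsRegularAt.exists_nhd {x : X} {r : X.functionField} (hr : IsRegularAt x r) :
    ∃ W : X.Opens, x ∈ W ∧ ∀ y ∈ W, IsRegularAt y r := by
  obtain ⟨V, hx, b, rfl⟩ := hr.exists_open
  have : Nonempty V := ⟨⟨x, hx⟩⟩
  exact ⟨V, hx, fun y hy => isRegularAt_section hy b⟩

theorem IsUnitAt.exists_nhd {x : X} {r : X.functionField} (hr : IsUnitAt x r) :
    ∃ W : X.Opens, x ∈ W ∧ ∀ y ∈ W, IsUnitAt y r := by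
  obtain ⟨V, hx, b, rfl⟩ := hr.isRegularAt.exists_open
  have : Nonempty V := ⟨⟨x, hx⟩⟩
  refine ⟨X.basicOpen b, (isUnitAt_section_iff hx b).mp hr, fun y hy => ?_⟩
  exact (isUnitAt_section_iff (X.basicOpen_le b hy) b).mpr hy

theorem CartierDivisor.exists_nhd_isUnitAt (E : CartierDivisor X) {x : X} {t : X.functionField}
    (h : IsUnitAt x (t * E.eqn x)) :
    ∃ W : X.Opens, x ∈ W ∧ ∀ y ∈ W, IsUnitAt y (t * E.eqn y) := by
  obtain ⟨W, hxW, hW⟩ := h.exists_nhd
  obtain ⟨U, hxU, hU⟩ := E.compat x
  refine ⟨W ⊓ U, ⟨hxW, hxU⟩, fun y hy => ?_⟩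
  have h1 : t * E.eqn y = (t * E.eqn x) * (E.eqn x / E.eqn y)⁻¹ := by
    have := E.ne_zero x
    have := E.ne_zero y
    field_simp
  rw [h1]
  exact (hW y hy.1).mul (hU y hy.2).inv

end Open

section Curve

variable {k : Type u} [Field k] [CharZero k] [IsAlgClosed k]
  {X : Scheme.{u}} [IsIntegral X] {f : X ⟶ Spec (.of k)} [IsProper f]

instance (x : X) : IsLocalHom (X.residue x).hom :=
  inferInstanceAs (IsLocalHom (IsLocalRing.residue (X.presheaf.stalk x)))

/-- The `k`-algebra structure on the residue field. -/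
noncomputable abbrev resAlg (f : X ⟶ Spec (.of k)) (x : X) : Algebra k (X.residueField x) :=
  ((X.residue x).hom.comp (constants f x)).toAlgebra

omit [CharZero k] [IsAlgClosed k] [IsIntegral X] in
theorem Curve.goodPoint (C : Curve f) :
    @GoodPoint k (X.residueField C.pt) _ _ X f C.pt (X.residue C.pt).hom k _ (resAlg f C.pt) := by
  let _ := resAlg f C.pt
  refine ⟨⟨C.trdeg_eq_one, ?_⟩, fun a => ⟨a, rfl⟩⟩
  have h1 : ((X.residue C.pt).hom.comp (constants f C.pt)).EssFiniteType :=
    (essFiniteType_constants f C.pt).comp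
      (RingHom.FiniteType.of_surjective _ (X.residue_surjective C.pt)).essFiniteType
  exact h1

omit [CharZero k] [IsAlgClosed k] [IsIntegral X] [IsProper f] in
theorem Curve.places_eq (C : Curve f) :
    C.places = {v | @IsPlace k (X.residueField C.pt) _ _ (resAlg f C.pt) v} := by
  ext v
  constructor
  · rintro ⟨h1, h2⟩
    exact ⟨h2, h1⟩
  · rintro ⟨h1, h2⟩
    exact ⟨h2, h1⟩

omit [CharZero k] [IsAlgClosed k] [IsIntegral X] [IsProper f] in
theorem Curve.exists_transcendental (C : Curve f) :
    ∃ a : X.presheaf.stalk C.pt,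
      (@Transcendental k (X.residueField C.pt) _ _ (resAlg f C.pt)) (X.residue C.pt a) := by
  let _ := resAlg f C.pt
  have h1 : Algebra.trdeg k (X.residueField C.pt) = 1 := C.trdeg_eq_one
  have h2 : Algebra.Transcendental k (X.residueField C.pt) := by
    rw [← trdeg_ne_zero_iff, h1]
    exact one_ne_zero
  obtain ⟨y, hy⟩ := h2.transcendental
  obtain ⟨a, rfl⟩ := X.residue_surjective C.pt y
  exact ⟨a, hy⟩

theorem inter_add (D E : CartierDivisor X) (C : Curve f) :
    inter (D + E) C = inter D C + inter E C := by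
  rw [inter, inter, inter, C.places_eq]
  let _ := resAlg f C.pt
  exact C.goodPoint.degree_add D E

theorem inter_nsmul (D : CartierDivisor X) (n : ℕ) (C : Curve f) :
    inter (n • D) C = n * inter D C := by
  rw [inter, inter, C.places_eq]
  let _ := resAlg f C.pt
  exact C.goodPoint.degree_nsmul D n

theorem inter_zsmul (D : CartierDivisor X) (n : ℤ) (C : Curve f) :
    inter (n • D) C = n * inter D C := by
  rw [inter, inter, C.places_eq]
  let _ := resAlg f C.pt
  exact C.goodPoint.degree_zsmul D n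

theorem inter_nonneg (D : CartierDivisor X) (C : Curve f) {s : X.functionField}
    (hs : IsUnitAt C.pt (s * D.eqn C.pt)) (hreg : ∀ y, IsRegularAt y (s * D.eqn y)) :
    0 ≤ inter D C := by
  rw [inter, C.places_eq]
  let _ := resAlg f C.pt
  exact C.goodPoint.degree_nonneg D hs fun v _ => hreg _

theorem inter_ample_pos {A : CartierDivisor X} (hA : A.IsAmple) (C : Curve f) :
    0 < inter A C := by
  rw [inter, C.places_eq]
  let _ := resAlg f C.pt
  apply C.goodPoint.degree_ample_pos hA
  obtain ⟨a, ha⟩ := C.exists_transcendental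
  refine ⟨a, ?_⟩
  rintro ⟨b, hb⟩
  apply ha
  change IsAlgebraic k ((X.residue C.pt).hom a)
  rw [← hb]
  exact isAlgebraic_algebraMap b

theorem exists_bound {A : CartierDivisor X} (hA : A.IsAmple) (D : CartierDivisor X) :
    ∃ m : ℕ, ∀ C : Curve f, 0 ≤ m * inter A C + inter D C := by
  have hcomp : CompactSpace X := by
    have : QuasiCompact f := inferInstance
    exact QuasiCompact.compactSpace_of_compactSpace f
  have hloc : ∀ x : X, ∃ W : X.Opens, x ∈ W ∧ ∃ m : ℕ, ∀ C : Curve f, C.pt ∈ W →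
      0 ≤ m * inter A C + inter D C := by
    intro x
    obtain ⟨m, t, ht, htx⟩ := hA.exists_section_add D x
    obtain ⟨W, hxW, hW⟩ := (m • A + D).exists_nhd_isUnitAt htx
    refine ⟨W, hxW, m, fun C hC => ?_⟩
    rw [← inter_nsmul, ← inter_add]
    exact inter_nonneg (m • A + D) C (hW _ hC) ht
  choose W hxW m hm using hloc
  obtain ⟨t, ht⟩ := CompactSpace.elim_nhds_subcover (fun y => (W y : Set X))
    (fun y => (W y).2.mem_nhds (hxW y))
  refine ⟨t.sup m, fun C => ?_⟩
  have h2 : C.pt ∈ ⋃ y ∈ t, (W y : Set X) := by rw [ht]; trivial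
  rw [Set.mem_iUnion₂] at h2
  obtain ⟨z, hzt, hz⟩ := h2
  have h3 : m z ≤ t.sup m := Finset.le_sup hzt
  have h4 := hm z C hz
  have h5 := inter_ample_pos hA C
  have h6 : (m z : ℤ) ≤ (t.sup m : ℕ) := by exact_mod_cast h3
  nlinarith

end Curve

end Pool.Agent.Lib.MP_cc17a8_ag
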