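import Mathlib

open Polynomial TensorProduct

universe u

namespace Pool.Agent.Lib.MP_cc17a8_ag

theorem exists_basicOpen_subset {R : Type*} [CommRing R] [IsDomain R] {s : Set (PrimeSpectrum R)}
    (hs : Topology.IsConstructible s) (h0 : (⊥ : PrimeSpectrum R) ∈ s) :
    ∃ u : R, u ≠ 0 ∧ ∀ p : PrimeSpectrum R, u ∉ p.asIdeal → p ∈ s := by
  rw [← PrimeSpectrum.exists_constructibleSetData_iff] at hs
  obtain ⟨S, rfl⟩ := hs
  rw [PrimeSpectrum.ConstructibleSetData.toSet, Set.mem_iUnion₂] at h0
  obtain ⟨C, hC, hg, hf⟩ := h0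
  have hf0 : C.f ≠ 0 := by
    intro h
    apply hf
    rw [PrimeSpectrum.mem_zeroLocus, Set.singleton_subset_iff, h]
    exact Ideal.zero_mem _
  have hg0 : ∀ i, C.g i = 0 := by
    intro i
    have h1 : C.g i ∈ (⊥ : PrimeSpectrum R).asIdeal := hg ⟨i, rfl⟩
    exact h1
  refine ⟨C.f, hf0, fun p hp => ?_⟩
  rw [PrimeSpectrum.ConstructibleSetData.toSet, Set.mem_iUnion₂]
  refine ⟨C, hC, ?_, ?_⟩
  · rintro _ ⟨i, rfl⟩
    rw [hg0]
    exact Ideal.zero_mem _
  · intro h
    exact hp (h rfl)

/-- Let `A ⊂ B` be finitely generated domains over an algebraically closed field `k` and `t ∈ B`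
transcendental over `A`.  There is a homomorphism from `B` to a field `E` which maps `A` to `k`,
such that the image of `t` is transcendental over `k` and `E` is algebraic over `k(t)`. -/
theorem exists_curve_hom {k A B : Type u} [Field k] [IsAlgClosed k] [CommRing A] [IsDomain A]
    [CommRing B] [IsDomain B] [Algebra k A] [Algebra k B] [Algebra A B] [IsScalarTower k A B]
    [Algebra.FiniteType k A] [Algebra.FiniteType k B] (t : B) (ht : Transcendental A t) :
    ∃ (E : Type u) (_ : Field E) (_ : Algebra k E) (ρ : B →ₐ[k] E),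
      (∀ a : A, ρ (algebraMap A B a) ∈ (algebraMap k E).range) ∧ Transcendental k (ρ t) ∧
      Algebra.IsAlgebraic (IntermediateField.adjoin k {ρ t}) E := by
  let alg : Algebra A[X] B := (aeval t).toRingHom.toAlgebra
  have halg : ∀ P : A[X], algebraMap A[X] B P = aeval t P := fun _ => rfl
  have hinj : Function.Injective (algebraMap A[X] B) := transcendental_iff_injective.mp ht
  have tow : IsScalarTower k A[X] B := IsScalarTower.of_algebraMap_eq fun c => by
    rw [halg, IsScalarTower.algebraMap_apply k A A[X], algebraMap_eq, aeval_C,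
      ← IsScalarTower.algebraMap_apply]
  have hft : Algebra.FiniteType A[X] B := Algebra.FiniteType.of_restrictScalars_finiteType k A[X] B
  have hnoeth : IsNoetherianRing A := Algebra.FiniteType.isNoetherianRing k A
  have hfp : Algebra.FinitePresentation A[X] B := Algebra.FinitePresentation.of_finiteType.mp hft
  have hcons := PrimeSpectrum.isConstructible_range_comap
    (RingHom.finitePresentation_algebraMap.mpr hfp)
  have hbot : (⊥ : PrimeSpectrum A[X]) ∈ Set.range (PrimeSpectrum.comap (algebraMap A[X] B)) := by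
    refine ⟨⊥, ?_⟩
    ext x
    rw [PrimeSpectrum.comap_asIdeal]
    change algebraMap A[X] B x = 0 ↔ x = 0
    rw [map_eq_zero_iff _ hinj]
  obtain ⟨u, hu0, hu⟩ := exists_basicOpen_subset hcons hbot
  -- choose a maximal ideal of `A`
  obtain ⟨n, hn⟩ : ∃ n, u.coeff n ≠ 0 := by
    by_contra h
    push Not at h
    exact hu0 (Polynomial.ext h)
  have hJ : IsJacobsonRing A := isJacobsonRing_of_finiteType (A := k)
  obtain ⟨m, hm, hnm⟩ : ∃ m : Ideal A, m.IsMaximal ∧ u.coeff n ∉ m := by
    by_contra h
    push Not at h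
    have h1 : u.coeff n ∈ (⊥ : Ideal A).jacobson := by
      rw [Ideal.jacobson, Ideal.mem_sInf]
      rintro J ⟨-, hJ⟩
      exact h J hJ
    rw [hJ.out (Ideal.IsPrime.isRadical inferInstance)] at h1
    exact hn h1
  let P : Ideal A[X] := m.map C
  have hP : P.IsPrime := have := hm.isPrime; Ideal.isPrime_map_C_of_isPrime
  have huP : u ∉ P := by
    intro h
    rw [Ideal.mem_map_C_iff] at h
    exact hnm (h n)
  have hrange := hu ⟨P, hP⟩ huP
  have hnt := (PrimeSpectrum.nontrivial_iff_mem_rangeComap ⟨P, hP⟩).mpr hrange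
  change Nontrivial (P.ResidueField ⊗[A[X]] B) at hnt
  obtain ⟨Q, hQ⟩ := Ideal.exists_maximal (P.ResidueField ⊗[A[X]] B)
  let E := (P.ResidueField ⊗[A[X]] B) ⧸ Q
  let _ : Field E := Ideal.Quotient.field Q
  have hfin : Module.Finite P.ResidueField E := by
    have : Algebra.FiniteType P.ResidueField (P.ResidueField ⊗[A[X]] B) := inferInstance
    exact finite_of_finite_type_of_isJacobsonRing _ _
  -- the homomorphism
  let ρ0 : B →+* E := (Ideal.Quotient.mk Q).comp
    (Algebra.TensorProduct.includeRight : B →ₐ[A[X]] P.ResidueField ⊗[A[X]] B).toRingHom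
  let _ : Algebra k E := (ρ0.comp (algebraMap k B)).toAlgebra
  let ρ : B →ₐ[k] E := { ρ0 with commutes' := fun c => rfl }
  have hρ : ∀ b, ρ b = Ideal.Quotient.mk Q ((1 : P.ResidueField) ⊗ₜ[A[X]] b) := fun b => rfl
  have hρA : ∀ p : A[X], ρ (algebraMap A[X] B p) =
      algebraMap P.ResidueField E (algebraMap A[X] P.ResidueField p) := by
    intro p
    rw [hρ]
    change _ = Ideal.Quotient.mk Q (algebraMap P.ResidueField (P.ResidueField ⊗[A[X]] B) _)
    congr 1
    rw [Algebra.TensorProduct.algebraMap_apply, Algebra.algebraMap_self, RingHom.id_apply,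
      Algebra.algebraMap_eq_smul_one, TensorProduct.tmul_smul, Algebra.algebraMap_eq_smul_one,
      TensorProduct.smul_tmul', TensorProduct.smul_tmul]
  have hker : ∀ p : A[X], ρ (algebraMap A[X] B p) = 0 ↔ p ∈ P := by
    intro p
    rw [hρA, map_eq_zero, Ideal.algebraMap_residueField_eq_zero]
  have hAB : ∀ a : A, algebraMap A B a = algebraMap A[X] B (C a) := fun a => by
    rw [halg, aeval_C]
  have htX : t = algebraMap A[X] B X := by rw [halg, aeval_X]
  have hAk : ∀ a : A, ρ (algebraMap A B a) ∈ (algebraMap k E).range := by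
    intro a
    let _ : Field (A ⧸ m) := Ideal.Quotient.field m
    have : Algebra.FiniteType k (A ⧸ m) := inferInstance
    have hfin : Module.Finite k (A ⧸ m) := finite_of_finite_type_of_isJacobsonRing k (A ⧸ m)
    have hbij : Function.Bijective (algebraMap k (A ⧸ m)) :=
      IsAlgClosed.algebraMap_bijective_of_isIntegral
    obtain ⟨c, hc⟩ := hbij.2 (Ideal.Quotient.mk m a)
    have hmem : algebraMap k A c - a ∈ m := by
      rw [← Ideal.Quotient.eq, ← hc]
      rfl
    refine ⟨c, ?_⟩
    have h1 : algebraMap k E c = ρ (algebraMap A B (algebraMap k A c)) := by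
      rw [← IsScalarTower.algebraMap_apply, ρ.commutes]
    rw [h1, ← sub_eq_zero, ← map_sub, ← map_sub, hAB, hker]
    exact Ideal.mem_map_of_mem C hmem
  let L := IntermediateField.adjoin k {ρ t}
  have htL : ρ t ∈ L := IntermediateField.mem_adjoin_simple_self k _
  have hpoly : ∀ p : A[X], ρ (algebraMap A[X] B p) ∈ L := by
    intro p
    induction p using Polynomial.induction_on' with
    | add p q hp hq => rw [map_add, map_add]; exact add_mem hp hq
    | monomial n a =>
      rw [halg, aeval_monomial, map_mul, map_pow]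
      obtain ⟨c, hc⟩ := hAk a
      rw [← hc]
      exact mul_mem (L.algebraMap_mem c) (pow_mem htL n)
  have hκ : ∀ x : P.ResidueField, algebraMap P.ResidueField E x ∈ L := by
    intro x
    obtain ⟨a, b, hb, rfl⟩ := IsFractionRing.div_surjective (A := A[X] ⧸ P) x
    obtain ⟨a, rfl⟩ := Ideal.Quotient.mk_surjective a
    obtain ⟨b, rfl⟩ := Ideal.Quotient.mk_surjective b
    rw [map_div₀]
    have h3 : ∀ p : A[X], algebraMap P.ResidueField E (algebraMap (A[X] ⧸ P) P.ResidueField
        (Ideal.Quotient.mk P p)) ∈ L := by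
      intro p
      have := hpoly p
      rw [hρA] at this
      exact this
    exact div_mem (h3 a) (h3 b)
  have halgE : Algebra.IsAlgebraic L E := by
    let _ : Algebra P.ResidueField L := ((algebraMap P.ResidueField E).codRestrict L.toSubring hκ).toAlgebra
    have : IsScalarTower P.ResidueField L E := IsScalarTower.of_algebraMap_eq fun x => rfl
    exact Algebra.IsAlgebraic.tower_top (K := P.ResidueField) L
  refine ⟨E, inferInstance, inferInstance, ρ, hAk, ?_, halgE⟩
  rw [transcendental_iff]
  intro p hp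
  have h1 : ρ (algebraMap A[X] B (p.map (algebraMap k A))) = 0 := by
    rw [halg, aeval_map_algebraMap]
    rw [← hp, aeval_algHom_apply]
  rw [hker, Ideal.mem_map_C_iff] at h1
  ext n
  have h2 := h1 n
  rw [coeff_map] at h2
  rw [coeff_zero]
  by_contra hne
  exact hm.ne_top (Ideal.eq_top_of_isUnit_mem _ h2
    ((isUnit_iff_ne_zero.mpr hne).map (algebraMap k A)))

end Pool.Agent.Lib.MP_cc17a8_ag
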