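import Mathlib
import Pool.Agent.Lib.MP_cc17a8_ag.CurveHom
import Pool.Agent.Lib.MP_cc17a8_ag.CurveDegree

open AlgebraicGeometry CategoryTheory

universe u

namespace Pool.Agent.Lib.MP_cc17a8_ag

section

variable {k : Type u} [Field k] {X : Scheme.{u}} [IsIntegral X] (f : X ⟶ Spec (.of k))

/-- The homomorphism from `k` to the ring of sections over `U`. -/
noncomputable def constSec (U : X.Opens) : k →+* Γ(X, U) :=
  ((Scheme.ΓSpecIso (.of k)).inv ≫ f.appTop ≫ X.presheaf.map (homOfLE le_top).op).hom

omit [IsIntegral X] in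
theorem germ_constSec {U : X.Opens} {x : X} (hx : x ∈ U) (a : k) :
    X.presheaf.germ U x hx (constSec f U a) = constants f x a := by
  have h : (Scheme.ΓSpecIso (.of k)).inv ≫ f.appTop ≫ X.presheaf.map (homOfLE le_top).op ≫
      X.presheaf.germ U x hx =
      (Scheme.ΓSpecIso (.of k)).inv ≫ f.appTop ≫ X.presheaf.germ ⊤ x trivial := by
    rw [TopCat.Presheaf.germ_res]
  exact congrArg (fun t => t.hom a) h

/-- A homomorphism from the coordinate ring of an affine open subset to a field of
transcendence degree one gives a curve. -/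
theorem exists_curve_of_hom {U : X.Opens} (hU : IsAffineOpen U) {E : Type u} [Field E]
    [Algebra k E] (ρ : Γ(X, U) →+* E) (hρ : ∀ a, ρ (constSec f U a) = algebraMap k E a)
    (t : Γ(X, U)) (ht : Transcendental k (ρ t))
    (hE : Algebra.IsAlgebraic (IntermediateField.adjoin k {ρ t}) E) :
    ∃ C : Curve f, ∃ hC : C.pt ∈ U, ∃ i : X.residueField C.pt →+* E,
      ∀ b, i (X.residue C.pt (X.presheaf.germ U C.pt hC b)) = ρ b := by
  have hne : Nonempty U := by
    by_contra hcon
    have : Subsingleton Γ(X, U) := by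
      rw [not_nonempty_iff] at hcon
      have hbot : U = ⊥ := by
        ext y
        simp only [TopologicalSpace.Opens.coe_bot, Set.mem_empty_iff_false, iff_false]
        exact fun hy => hcon.elim ⟨y, hy⟩
      subst hbot
      infer_instance
    have h1 : ρ 1 = ρ 0 := congrArg ρ (Subsingleton.elim _ _)
    rw [map_one, map_zero] at h1
    exact one_ne_zero h1
  have hpr : (RingHom.ker ρ).IsPrime := RingHom.ker_isPrime ρ
  obtain ⟨x, hx, hxp, -⟩ := exists_point_of_prime hU (RingHom.ker ρ)
  let alg := X.presheaf.algebra_section_stalk ⟨x, hx⟩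
  have hloc := hU.isLocalization_stalk ⟨x, hx⟩
  have hmap : ∀ b, algebraMap Γ(X, U) (X.presheaf.stalk x) b = X.presheaf.germ U x hx b :=
    fun b => rfl
  have hunit : ∀ y : (hU.primeIdealOf ⟨x, hx⟩).asIdeal.primeCompl, IsUnit (ρ y) := by
    rintro ⟨y, hy⟩
    rw [isUnit_iff_ne_zero]
    intro h0
    apply hy
    rw [hxp]
    exact h0
  let j : X.presheaf.stalk x →+* E := IsLocalization.lift (M := (hU.primeIdealOf ⟨x, hx⟩).asIdeal.primeCompl) hunit
  have hj : ∀ b, j (algebraMap Γ(X, U) (X.presheaf.stalk x) b) = ρ b := fun b =>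
    IsLocalization.lift_eq hunit b
  have hlocal : IsLocalHom j := by
    constructor
    intro a ha
    obtain ⟨⟨b, s⟩, hbs⟩ := IsLocalization.surj (hU.primeIdealOf ⟨x, hx⟩).asIdeal.primeCompl a
    have h1 : j a * ρ s = ρ b := by
      rw [← hj, ← hj, ← hbs, map_mul]
    have h2 : ρ b ≠ 0 := by
      rw [← h1]
      exact mul_ne_zero ha.ne_zero (hunit s).ne_zero
    have h3 : b ∈ (hU.primeIdealOf ⟨x, hx⟩).asIdeal.primeCompl := by
      intro hb
      rw [hxp] at hb
      exact h2 hb
    have h4 := IsLocalization.map_units (X.presheaf.stalk x) (⟨b, h3⟩ : (hU.primeIdealOf ⟨x, hx⟩).asIdeal.primeCompl)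
    change IsUnit (algebraMap Γ(X, U) (X.presheaf.stalk x) b) at h4
    rw [← hbs] at h4
    exact isUnit_of_mul_isUnit_left h4
  let i : X.residueField x →+* E := IsLocalRing.ResidueField.lift j
  have hi : ∀ a : X.presheaf.stalk x, i (X.residue x a) = j a := fun a => rfl
  let _ : Algebra k (X.residueField x) := resAlg f x
  have hcomm : ∀ a : k, i (algebraMap k (X.residueField x) a) = algebraMap k E a := by
    intro a
    change i (X.residue x (constants f x a)) = _
    rw [hi, ← germ_constSec f hx, ← hρ]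
    exact hj _
  let ia : X.residueField x →ₐ[k] E := { i with commutes' := hcomm }
  have htr : Algebra.trdeg k (X.residueField x) = 1 := by
    apply le_antisymm
    · refine (trdeg_le_of_injective ia i.injective).trans ?_
      have h1 : Algebra.IsAlgebraic (Algebra.adjoin k {ρ t}) E :=
        ⟨fun y => IntermediateField.isAlgebraic_adjoin_iff.mp (hE.isAlgebraic y)⟩
      have h2 := Algebra.IsAlgebraic.trdeg_le_cardinalMk (R := k) (s := {ρ t}) (A := E)
      simpa using h2
    · rw [Cardinal.one_le_iff_ne_zero, trdeg_ne_zero_iff]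
      refine ⟨X.residue x (X.presheaf.germ U x hx t), ?_⟩
      intro halg
      apply ht
      have h1 := halg.algHom ia
      have h2 : ia (X.residue x (X.presheaf.germ U x hx t)) = ρ t := by
        change i _ = _
        rw [hi]; exact hj t
      rwa [h2] at h1
  exact ⟨⟨x, htr⟩, hx, i, fun b => by rw [hi]; exact hj b⟩

omit [IsIntegral X] in
theorem finiteType_constSec [LocallyOfFiniteType f] {U : X.Opens} (hU : IsAffineOpen U) :
    (constSec f U).FiniteType := by
  have h1 := HasRingHomProperty.appLE @LocallyOfFiniteType f inferInstance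
    ⟨⊤, isAffineOpen_top (Spec (.of k))⟩ ⟨U, hU⟩ le_top
  have h2 : constSec f U = (f.appLE ⊤ U le_top).hom.comp (Scheme.ΓSpecIso (.of k)).inv.hom := by
    rw [constSec, ← CommRingCat.hom_comp]
    rfl
  rw [h2]
  refine RingHom.FiniteType.comp h1 (RingHom.FiniteType.of_surjective _ ?_)
  exact (Scheme.ΓSpecIso (.of k)).commRingCatIsoToRingEquiv.symm.surjective

end

end Pool.Agent.Lib.MP_cc17a8_ag
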