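import Mathlib
import Pool.Agent.Lib.MP_cc17a8_ag.CurveOfHom

open AlgebraicGeometry CategoryTheory

universe u

namespace Pool.Agent.Lib.MP_cc17a8_ag

section FF

variable {X Y : Scheme.{u}} [IsIntegral X] [IsIntegral Y] (φ : X ⟶ Y)
  (hφ : φ (genericPoint X) = genericPoint Y)

theorem functionFieldMap_algebraMap (x : X) (a : Y.presheaf.stalk (φ x)) :
    functionFieldMap φ hφ (algebraMap (Y.presheaf.stalk (φ x)) Y.functionField a) =
      algebraMap (X.presheaf.stalk x) X.functionField (φ.stalkMap x a) := by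
  have h : genericPoint X ⤳ x := (genericPoint_spec X).specializes (Set.mem_univ x)
  have h1 := Scheme.Hom.stalkSpecializes_stalkMap φ _ _ h
  have h2 : Y.presheaf.stalkSpecializes ((genericPoint_spec Y).specializes (Set.mem_univ (φ x))) ≫
      Y.presheaf.stalkSpecializes (specializes_of_eq hφ) ≫ φ.stalkMap (genericPoint X) =
      φ.stalkMap x ≫ X.presheaf.stalkSpecializes h := by
    rw [← h1, ← Category.assoc, TopCat.Presheaf.stalkSpecializes_comp]
  exact congrArg (fun t => t.hom a) h2

theorem functionFieldMap_section {V : Y.Opens} {U : X.Opens} (e : U ≤ φ ⁻¹ᵁ V) [hU : Nonempty U]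
    [hV : Nonempty V] (a : Γ(Y, V)) :
    functionFieldMap φ hφ (algebraMap Γ(Y, V) Y.functionField a) =
      algebraMap Γ(X, U) X.functionField (φ.appLE V U e a) := by
  obtain ⟨x, hx⟩ := id hU
  have h1 : algebraMap Γ(Y, V) Y.functionField a =
      algebraMap (Y.presheaf.stalk (φ x)) Y.functionField (Y.presheaf.germ V (φ x) (e hx) a) :=
    (Scheme.algebraMap_germ_eq_germToFunctionField Y (e hx) a).symm
  have h2 : algebraMap Γ(X, U) X.functionField (φ.appLE V U e a) =
      algebraMap (X.presheaf.stalk x) X.functionField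
        (X.presheaf.germ U x hx (φ.appLE V U e a)) :=
    (Scheme.algebraMap_germ_eq_germToFunctionField X hx _).symm
  rw [h1, functionFieldMap_algebraMap, h2]
  congr 1
  have h3 : Y.presheaf.germ V (φ x) (e hx) ≫ φ.stalkMap x =
      φ.appLE V U e ≫ X.presheaf.germ U x hx := by
    rw [Scheme.Hom.germ_stalkMap, Scheme.Hom.appLE, Category.assoc, TopCat.Presheaf.germ_res]
  exact congrArg (fun t => t.hom a) h3

end FF

section

variable {k : Type u} [Field k] [IsAlgClosed k] {X Y : Scheme.{u}} [IsIntegral X] [IsIntegral Y]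
  {f : X ⟶ Spec (.of k)} {g : Y ⟶ Spec (.of k)} 
  {φ : X ⟶ Y}

omit [IsAlgClosed k] [IsIntegral X] [IsIntegral Y] in
theorem constSec_comp (hφg : φ ≫ g = f) {V : Y.Opens} {U : X.Opens} (e : U ≤ φ ⁻¹ᵁ V) (a : k) :
    φ.appLE V U e (constSec g V a) = constSec f U a := by
  have h1 : (Scheme.ΓSpecIso (.of k)).inv ≫ g.appTop ≫ Y.presheaf.map (homOfLE le_top).op ≫
      φ.appLE V U e = (Scheme.ΓSpecIso (.of k)).inv ≫ f.appTop ≫
        X.presheaf.map (homOfLE le_top).op := by
    congr 1
    rw [Scheme.Hom.map_appLE, ← hφg, Scheme.Hom.comp_appTop, Category.assoc]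
    rfl
  exact congrArg (fun t => t.hom a) h1

end

section

variable {k : Type u} [Field k] [IsAlgClosed k] {X Y : Scheme.{u}} [IsIntegral X] [IsIntegral Y]
  {f : X ⟶ Spec (.of k)} {g : Y ⟶ Spec (.of k)} [LocallyOfFiniteType f] [LocallyOfFiniteType g]
  {φ : X ⟶ Y}

omit [IsAlgClosed k] [IsIntegral Y] in
/-- A point of an affine open subset whose ideal is maximal is closed. -/
theorem isClosed_singleton_of_isMaximal {V : Y.Opens} (hV : IsAffineOpen V) {y : Y} (hy : y ∈ V)
    (h : (hV.primeIdealOf ⟨y, hy⟩).asIdeal.IsMaximal) (g : Y ⟶ Spec (.of k))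
    [LocallyOfFiniteType g] : IsClosed {y} := by
  have hJ : JacobsonSpace Y := LocallyOfFiniteType.jacobsonSpace g
  apply isClosed_singleton_of_isLocallyClosed_singleton
  let P : Spec Γ(Y, V) := hV.primeIdealOf ⟨y, hy⟩
  have h1 : IsClosed {P} :=
    (PrimeSpectrum.isClosed_singleton_iff_isMaximal _).mpr h
  have h2 : ({y} : Set Y) = hV.fromSpec '' {P} := by
    rw [Set.image_singleton, hV.fromSpec_primeIdealOf]
  rw [h2]
  exact h1.isLocallyClosed.image hV.fromSpec.isOpenEmbedding.isInducing
    hV.fromSpec.isOpenEmbedding.isOpen_range.isLocallyClosed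

omit [IsIntegral X] in
theorem exists_affine_nonempty {W : X.Opens} (hW : (W : Set X).Nonempty) :
    ∃ U : X.Opens, IsAffineOpen U ∧ U ≤ W ∧ Nonempty U := by
  obtain ⟨x, hx⟩ := hW
  obtain ⟨V, hV, hxV, hVW⟩ := exists_affine_nhd hx
  exact ⟨V, hV, hVW, ⟨⟨x, hxV⟩⟩⟩

theorem genericPoint_mem {W : X.Opens} (hW : (W : Set X).Nonempty) : genericPoint X ∈ W :=
  ((genericPoint_spec X).mem_open_set_iff W.isOpen).mpr (by simpa using hW)

/-- Existence of curves in fibres. -/
theorem exists_contracted_curve (hφ : φ (genericPoint X) = genericPoint Y) (hφg : φ ≫ g = f)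
    (hdim : dimension g < dimension f) {W : X.Opens} (hW : (W : Set X).Nonempty) {V : Y.Opens}
    (hV : (V : Set Y).Nonempty) :
    ∃ C : Curve f, C.pt ∈ W ∧ φ C.pt ∈ V ∧ IsClosed {φ C.pt} := by
  obtain ⟨V', hV', hVV, hVn⟩ := exists_affine_nonempty hV
  have hgen : genericPoint X ∈ (W ⊓ φ ⁻¹ᵁ V') := by
    refine ⟨genericPoint_mem hW, ?_⟩
    change φ (genericPoint X) ∈ V'
    rw [hφ]
    exact genericPoint_mem ((Set.nonempty_coe_sort).mp hVn)
  obtain ⟨U, hU, hgU, hUW⟩ := exists_affine_nhd hgen
  have hUn : Nonempty U := ⟨⟨_, hgU⟩⟩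
  have e : U ≤ φ ⁻¹ᵁ V' := fun x hx => (hUW hx).2
  let algA : Algebra k Γ(Y, V') := (constSec g V').toAlgebra
  let algB : Algebra k Γ(X, U) := (constSec f U).toAlgebra
  let algAB : Algebra Γ(Y, V') Γ(X, U) := (φ.appLE V' U e).hom.toAlgebra
  have tow : IsScalarTower k Γ(Y, V') Γ(X, U) := IsScalarTower.of_algebraMap_eq fun a =>
    (constSec_comp hφg e a).symm
  have hA : Algebra.FiniteType k Γ(Y, V') := finiteType_constSec g hV'
  have hB : Algebra.FiniteType k Γ(X, U) := finiteType_constSec f hU
  have ht : ∃ t : Γ(X, U), Transcendental Γ(Y, V') t := by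
    by_contra hcon
    push Not at hcon
    have hcon' : ∀ t : Γ(X, U), IsAlgebraic Γ(Y, V') t := fun t => not_not.mp (hcon t)
    let algK : Algebra Y.functionField X.functionField := (functionFieldMap φ hφ).toAlgebra
    let algkY : Algebra k Y.functionField := (constants g (genericPoint Y)).toAlgebra
    let algkX : Algebra k X.functionField := (constants f (genericPoint X)).toAlgebra
    let algAX : Algebra Γ(Y, V') X.functionField :=
      ((algebraMap Γ(X, U) X.functionField).comp (algebraMap Γ(Y, V') Γ(X, U))).toAlgebra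
    have tow1 : IsScalarTower Γ(Y, V') Γ(X, U) X.functionField :=
      IsScalarTower.of_algebraMap_eq fun a => rfl
    have tow2 : IsScalarTower Γ(Y, V') Y.functionField X.functionField :=
      IsScalarTower.of_algebraMap_eq fun a => (functionFieldMap_section φ hφ e a).symm
    have tow3 : IsScalarTower k Y.functionField X.functionField := by
      refine IsScalarTower.of_algebraMap_eq fun a => ?_
      have h1 : algebraMap k X.functionField a =
          algebraMap Γ(X, U) X.functionField (constSec f U a) := (germ_constSec f hgU a).symm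
      have h2 : algebraMap k Y.functionField a =
          algebraMap Γ(Y, V') Y.functionField (constSec g V' a) :=
        (germ_constSec g (genericPoint_mem ((Set.nonempty_coe_sort).mp hVn)) a).symm
      rw [h1, h2]
      change _ = functionFieldMap φ hφ _
      rw [functionFieldMap_section φ hφ e, constSec_comp hφg]
    have hfrac := functionField_isFractionRing_of_isAffineOpen X U hU
    have hfracY := functionField_isFractionRing_of_isAffineOpen Y V' hV'
    have halg : Algebra.IsAlgebraic Y.functionField X.functionField := by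
      constructor
      intro z
      obtain ⟨b, s, -, rfl⟩ := IsFractionRing.div_surjective (A := Γ(X, U)) z
      have h1 : ∀ b : Γ(X, U), IsAlgebraic Y.functionField (algebraMap Γ(X, U) X.functionField b) := by
        intro b
        have h2 : IsAlgebraic Γ(Y, V') (algebraMap Γ(X, U) X.functionField b) :=
          (hcon' b).algebraMap
        exact h2.extendScalars (IsFractionRing.injective Γ(Y, V') Y.functionField)
      rw [div_eq_mul_inv]
      exact (h1 b).mul (h1 s).inv
    have h3 := trdeg_add_eq (R := k) (S := Y.functionField) (A := X.functionField)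
    rw [trdeg_eq_zero (R := Y.functionField) (A := X.functionField), add_zero] at h3
    exact hdim.ne h3
  obtain ⟨t, ht⟩ := ht
  obtain ⟨E, _, _, ρ, hρA, hρt, hE⟩ := exists_curve_hom (k := k) (A := Γ(Y, V')) t ht
  obtain ⟨C, hC, i, hi⟩ := exists_curve_of_hom f hU ρ.toRingHom (fun a => ρ.commutes a) t hρt hE
  refine ⟨C, (hUW hC).1, hVV (e hC), ?_⟩
  apply isClosed_singleton_of_isMaximal hV' (e hC) _ g
  have hJ : ∀ a : Γ(Y, V'), a ∈ (hV'.primeIdealOf ⟨φ C.pt, e hC⟩).asIdeal ↔
      ρ (algebraMap Γ(Y, V') Γ(X, U) a) = 0 := by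
    intro a
    rw [← IsAffineOpen.comap_primeIdealOf_appLE V' hV' U hU e hC, PrimeSpectrum.comap_asIdeal,
      Ideal.mem_comap]
    let _ := X.presheaf.algebra_section_stalk ⟨C.pt, hC⟩
    have hloc := hU.isLocalization_stalk ⟨C.pt, hC⟩
    have h1 := IsLocalization.AtPrime.isUnit_to_map_iff (X.presheaf.stalk C.pt)
      (hU.primeIdealOf ⟨C.pt, hC⟩).asIdeal (φ.appLE V' U e a)
    rw [Ideal.mem_primeCompl_iff] at h1
    rw [← not_iff_not, ← h1]
    change IsUnit (X.presheaf.germ U C.pt hC (φ.appLE V' U e a)) ↔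
      ¬ (ρ.toRingHom (φ.appLE V' U e a) = 0)
    rw [← hi, map_eq_zero]
    have h2 := IsLocalRing.residue_ne_zero_iff_isUnit (R := X.presheaf.stalk C.pt)
      (X.presheaf.germ U C.pt hC (φ.appLE V' U e a))
    exact h2.symm
  rw [Ideal.isMaximal_iff]
  refine ⟨?_, fun J x hIJ hx hxJ => ?_⟩
  · rw [hJ, map_one, map_one]
    exact one_ne_zero
  · rw [hJ] at hx
    obtain ⟨c, hc⟩ := hρA x
    have h3 : x - algebraMap k Γ(Y, V') c ∈ J := by
      apply hIJ
      rw [hJ, map_sub, map_sub, ← hc, ← IsScalarTower.algebraMap_apply, ρ.commutes, sub_self]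
    have h4 : algebraMap k Γ(Y, V') c ∈ J := by
      have := J.sub_mem hxJ h3
      rwa [sub_sub_cancel] at this
    have hc0 : c ≠ 0 := by
      rintro rfl
      rw [map_zero] at hc
      exact hx hc.symm
    have h5 := J.mul_mem_left (algebraMap k Γ(Y, V') c⁻¹) h4
    rwa [← map_mul, inv_mul_cancel₀ hc0, map_one] at h5

/-- Existence of curves on which a given rational function is not constant. -/
theorem exists_curve_transcendental (h : X.functionField)
    (hh : ∀ a, constants f (genericPoint X) a ≠ h) {W : X.Opens} (hW : (W : Set X).Nonempty) :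
    ∃ C : Curve f, C.pt ∈ W ∧ IsRegularAt C.pt h ∧
      @Transcendental k (X.residueField C.pt) _ _ (resAlg f C.pt)
        (evalAt (X.residue C.pt).hom h) := by
  have h0 : h ≠ 0 := fun h0 => hh 0 (by rw [map_zero, h0])
  obtain ⟨W', hW', hreg⟩ := (isUnitAt_genericPoint h0).isRegularAt.exists_nhd
  obtain ⟨U, hU, hgU, hUW⟩ := exists_affine_nhd (x := genericPoint X) (W := W ⊓ W')
    ⟨genericPoint_mem hW, hW'⟩
  have hUn : Nonempty U := ⟨⟨_, hgU⟩⟩
  obtain ⟨n, t, ht⟩ := exists_pow_mul_eq hU 1 h (fun y hy _ => hreg y (hUW hy).2)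
  rw [map_one, one_pow, one_mul] at ht
  let algB : Algebra k Γ(X, U) := (constSec f U).toAlgebra
  have hB : Algebra.FiniteType k Γ(X, U) := finiteType_constSec f hU
  have htr : Transcendental k t := by
    intro halg
    let algkX : Algebra k X.functionField := (constants f (genericPoint X)).toAlgebra
    have tow : IsScalarTower k Γ(X, U) X.functionField :=
      IsScalarTower.of_algebraMap_eq fun a => (germ_constSec f hgU a).symm
    have h1 : IsAlgebraic k h := by
      rw [ht]
      exact halg.algebraMap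
    have h2 : FiniteDimensional k (IntermediateField.adjoin k {h}) :=
      IntermediateField.adjoin.finiteDimensional h1.isIntegral
    have h3 : IntermediateField.adjoin k {h} = ⊥ :=
      IntermediateField.eq_bot_of_isAlgClosed_of_isAlgebraic _
    have h4 : h ∈ IntermediateField.adjoin k {h} := IntermediateField.mem_adjoin_simple_self k h
    rw [h3, IntermediateField.mem_bot] at h4
    obtain ⟨a, ha⟩ := h4
    exact hh a ha
  obtain ⟨E, _, _, ρ, hρA, hρt, hE⟩ := exists_curve_hom (k := k) (A := k) t htr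
  obtain ⟨C, hC, i, hi⟩ := exists_curve_of_hom f hU ρ.toRingHom (fun a => ρ.commutes a) t hρt hE
  refine ⟨C, (hUW hC).1, hreg _ (hUW hC).2, ?_⟩
  let _ := resAlg f C.pt
  intro halg
  apply hρt
  have hcomm : ∀ a : k, i (algebraMap k (X.residueField C.pt) a) = algebraMap k E a := by
    intro a
    have h1 := hi (constSec f U a)
    rw [germ_constSec] at h1
    exact h1.trans (ρ.commutes a)
  let ia : X.residueField C.pt →ₐ[k] E := { i with commutes' := hcomm }
  have h1 := halg.algHom ia
  have h2 : evalAt (X.residue C.pt).hom h = X.residue C.pt (X.presheaf.germ U C.pt hC t) := by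
    have h4 : algebraMap Γ(X, U) X.functionField t =
        algebraMap (X.presheaf.stalk C.pt) X.functionField (X.presheaf.germ U C.pt hC t) :=
      (Scheme.algebraMap_germ_eq_germToFunctionField X hC t).symm
    rw [ht, h4, evalAt_algebraMap]
  rw [h2] at h1
  have h3 : ia (X.residue C.pt (X.presheaf.germ U C.pt hC t)) = ρ t := hi t
  rwa [h3] at h1

end

end Pool.Agent.Lib.MP_cc17a8_ag
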