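import Mathlib
import Pool.Agent.Lib.MP_cc17a8_ag.CurveExists

open AlgebraicGeometry CategoryTheory

universe u

namespace Pool.Agent.Lib.MP_cc17a8_ag

section

variable {X : Scheme.{u}} [IsIntegral X]

theorem exists_denominator (x : X) [UniqueFactorizationMonoid (X.presheaf.stalk x)]
    (h : X.functionField) : ∃ b : X.functionField, b ≠ 0 ∧ IsRegularAt x b ∧ IsRegularAt x (b * h) ∧
      ∀ s, IsRegularAt x s → IsRegularAt x (s * h) → IsRegularAt x (s / b) := by
  obtain ⟨a, b, hab, hh⟩ := IsFractionRing.exists_reduced_fraction (A := X.presheaf.stalk x) h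
  have hb0 : algebraMap (X.presheaf.stalk x) X.functionField b ≠ 0 := by
    rw [Ne, IsFractionRing.to_map_eq_zero_iff]
    exact nonZeroDivisors.ne_zero b.2
  have hh' : h * algebraMap (X.presheaf.stalk x) X.functionField b =
      algebraMap (X.presheaf.stalk x) X.functionField a := by
    rw [← hh]
    exact IsLocalization.mk'_spec _ _ _
  refine ⟨algebraMap (X.presheaf.stalk x) X.functionField b, hb0, ⟨b, rfl⟩,
    ⟨a, by rw [mul_comm]; exact hh'.symm⟩, ?_⟩
  rintro s ⟨s, rfl⟩ ⟨r, hr⟩
  have h1 : s * a = r * b := by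
    apply stalk_injective x
    rw [map_mul, map_mul, ← hh', hr]
    ring
  have h2 : (b : X.presheaf.stalk x) ∣ s := by
    refine IsRelPrime.dvd_of_dvd_mul_right hab.symm ⟨r, ?_⟩
    rw [h1, mul_comm]
  obtain ⟨c, rfl⟩ := h2
  refine ⟨c, ?_⟩
  rw [map_mul]
  field_simp

variable {k : Type u} [Field k] (f : X ⟶ Spec (.of k)) [LocallyOfFiniteType f]
  (hX : ∀ x : X, UniqueFactorizationMonoid (X.presheaf.stalk x))

include f hX in
theorem exists_poleDivisor (h : X.functionField) : ∃ D : CartierDivisor X,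
    (∀ x, IsRegularAt x (D.eqn x)) ∧ ∀ x, IsUnitAt x (D.eqn x) ↔ IsRegularAt x h := by
  have hex : ∀ x : X, ∃ b : X.functionField, b ≠ 0 ∧ IsRegularAt x b ∧ IsRegularAt x (b * h) ∧
      ∀ s, IsRegularAt x s → IsRegularAt x (s * h) → IsRegularAt x (s / b) := by
    intro x
    have := hX x
    exact exists_denominator x h
  choose b hb0 hb hbh hbs using hex
  have hcompat : ∀ x, ∃ U : X.Opens, x ∈ U ∧ ∀ y ∈ U, IsUnitAt y (b x / b y) := by
    intro x
    obtain ⟨U1, h1, hU1⟩ := (hb x).exists_nhd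
    obtain ⟨U2, h2, hU2⟩ := (hbh x).exists_nhd
    obtain ⟨V, hV, hxV, hVU⟩ := exists_affine_nhd (x := x) (W := U1 ⊓ U2) ⟨h1, h2⟩
    have hVn : Nonempty V := ⟨⟨x, hxV⟩⟩
    let I : Ideal Γ(X, V) :=
      { carrier := {r | ∃ c : Γ(X, V), algebraMap Γ(X, V) X.functionField r * h =
          algebraMap Γ(X, V) X.functionField c}
        add_mem' := by
          rintro r r' ⟨b, hb⟩ ⟨b', hb'⟩
          exact ⟨b + b', by rw [map_add, map_add, add_mul, hb, hb']⟩
        zero_mem' := ⟨0, by simp⟩
        smul_mem' := by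
          rintro c r ⟨b, hb⟩
          exact ⟨c * b, by rw [smul_eq_mul, map_mul, map_mul, mul_assoc, hb]⟩ }
    let algB : Algebra k Γ(X, V) := (constSec f V).toAlgebra
    have hB : Algebra.FiniteType k Γ(X, V) := finiteType_constSec f hV
    have hN : IsNoetherianRing Γ(X, V) := Algebra.FiniteType.isNoetherianRing k _
    obtain ⟨S, hS⟩ := (isNoetherianRing_iff_ideal_fg _).mp hN I
    -- generators of `I` are multiples of `b x` near `x`
    have hgen : ∀ s ∈ S, ∃ W : X.Opens, x ∈ W ∧ ∀ y ∈ W,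
        IsRegularAt y (algebraMap Γ(X, V) X.functionField s / b x) := by
      intro s hs
      have hsI : s ∈ I := by rw [← hS]; exact Ideal.subset_span hs
      obtain ⟨c, hc⟩ := hsI
      have h3 := hbs x (algebraMap Γ(X, V) X.functionField s) (isRegularAt_section hxV s)
        (by rw [hc]; exact isRegularAt_section hxV c)
      exact h3.exists_nhd
    choose! W hxW hW using hgen
    let W0 : X.Opens := ⟨⋂ s ∈ S, (W s : Set X), isOpen_biInter_finset fun s _ => (W s).2⟩
    have hxW0 : x ∈ W0 := Set.mem_iInter₂.mpr fun s hs => hxW s hs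
    refine ⟨W0 ⊓ V, ⟨hxW0, hxV⟩, fun y hy => ?_⟩
    have hyV := hy.2
    have hyW : ∀ s ∈ S, y ∈ W s := fun s hs => Set.mem_iInter₂.mp hy.1 s hs
    rw [isUnitAt_iff]
    refine ⟨div_ne_zero (hb0 x) (hb0 y), ?_, ?_⟩
    · exact hbs y (b x) (hU1 y (hVU hyV).1) (hU2 y (hVU hyV).2)
    · rw [inv_div]
      obtain ⟨s1, c1, hc1, hs1⟩ := exists_frac_of_isRegularAt hV hyV (hb y)
      obtain ⟨s2, c2, hc2, hs2⟩ := exists_frac_of_isRegularAt hV hyV (hbh y)
      have hmem : c2 * s1 ∈ I := by
        refine ⟨c1 * s2, ?_⟩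
        rw [map_mul, map_mul, ← hs1, ← hs2]
        ring
      have hmem' : algebraMap Γ(X, V) X.functionField (c2 * s1) / b x ∈
          (algebraMap (X.presheaf.stalk y) X.functionField).range := by
        rw [← hS] at hmem
        refine Submodule.span_induction (p := fun r _ =>
          algebraMap Γ(X, V) X.functionField r / b x ∈
          (algebraMap (X.presheaf.stalk y) X.functionField).range) ?_ ?_ ?_ ?_ hmem
        · intro s hs
          exact hW s hs y (hyW s hs)
        · rw [map_zero, zero_div]; exact zero_mem _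
        · intro a a' _ _ ha ha'
          rw [map_add, add_div]; exact add_mem ha ha'
        · intro a r _ hr
          rw [smul_eq_mul, map_mul, mul_div_assoc]
          exact mul_mem (isRegularAt_section hyV a) hr
      have h4 : b y / b x = (algebraMap Γ(X, V) X.functionField (c2 * s1) / b x) *
          (algebraMap Γ(X, V) X.functionField c2)⁻¹ * (algebraMap Γ(X, V) X.functionField c1)⁻¹ := by
        have h5 := hc1.ne_zero
        have h6 := hc2.ne_zero
        have h7 := hb0 x
        rw [map_mul, ← hs1]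
        field_simp
      rw [h4]
      exact (IsRegularAt.mul hmem' hc2.inv.isRegularAt).mul hc1.inv.isRegularAt
  refine ⟨⟨b, hb0, hcompat⟩, hb, fun x => ⟨fun hu => ?_, fun hr => ?_⟩⟩
  · have h1 : h = (b x)⁻¹ * (b x * h) := by
      have := hb0 x
      field_simp
    rw [h1]
    exact hu.inv.isRegularAt.mul (hbh x)
  · have h1 := hbs x 1 (isUnitAt_one x).isRegularAt (by rw [one_mul]; exact hr)
    rw [one_div] at h1
    exact isUnitAt_iff.mpr ⟨hb0 x, hb x, h1⟩

end

end Pool.Agent.Lib.MP_cc17a8_ag
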