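import Mathlib
import Pool.Agent.Lib.MP_cc17a8_ag.Pole

open AlgebraicGeometry CategoryTheory

universe u

namespace Pool.Agent.Lib.MP_cc17a8_ag

section Poles

variable {k : Type u} [Field k] [CharZero k] [IsAlgClosed k]
  {X : Scheme.{u}} [IsIntegral X] {f : X ⟶ Spec (.of k)} [IsProper f]

theorem inter_pole_nonneg {D : CartierDivisor X} {h : X.functionField}
    (hD : ∀ x, IsRegularAt x (D.eqn x)) (hDh : ∀ x, IsUnitAt x (D.eqn x) ↔ IsRegularAt x h)
    (C : Curve f) (hC : IsRegularAt C.pt h) : 0 ≤ inter D C := by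
  apply inter_nonneg D C (s := 1)
  · rw [one_mul]; exact (hDh _).mpr hC
  · intro y; rw [one_mul]; exact hD y

theorem inter_pole_pos {D : CartierDivisor X} {h : X.functionField}
    (hD : ∀ x, IsRegularAt x (D.eqn x)) (hDh : ∀ x, IsUnitAt x (D.eqn x) ↔ IsRegularAt x h)
    (C : Curve f) (hC : IsRegularAt C.pt h)
    (htr : @Transcendental k (X.residueField C.pt) _ _ (resAlg f C.pt)
        (evalAt (X.residue C.pt).hom h)) : 0 < inter D C := by
  rw [inter, C.places_eq]
  let _ := resAlg f C.pt
  have htr' : Transcendental k (evalAt (X.residue C.pt).hom h)⁻¹ := by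
    intro hh
    apply htr
    have := hh.inv
    rwa [inv_inv] at this
  obtain ⟨v, hv, hv1, hv2⟩ := C.goodPoint.ff.exists_zero htr'
  rw [inv_inv] at hv2
  apply C.goodPoint.degree_pos D (s := 1)
  · rw [one_mul]; exact (hDh _).mpr hC
  · intro v _; rw [one_mul]; exact hD _
  · refine ⟨v, hv, ?_⟩
    rw [one_mul, hDh]
    intro hreg
    exact hv2 ((C.goodPoint.isCenter hv).mem hreg)

theorem inter_pole_eq_zero {D : CartierDivisor X} {h : X.functionField}
    (hDh : ∀ x, IsUnitAt x (D.eqn x) ↔ IsRegularAt x h)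
    (C : Curve f) (hC : ∀ c, C.pt ⤳ c → IsRegularAt c h) : inter D C = 0 := by
  rw [inter, C.places_eq]
  let _ := resAlg f C.pt
  apply C.goodPoint.degree_eq_zero D (s := 1)
  · rw [one_mul, hDh]; exact hC _ specializes_rfl
  · intro v hv
    rw [one_mul, hDh]
    obtain ⟨hs, -⟩ := C.goodPoint.isCenter hv
    exact hC _ hs

end Poles

section Regular

variable {X Y : Scheme.{u}} [IsIntegral X] [IsIntegral Y] (φ : X ⟶ Y)
  (hφ : φ (genericPoint X) = genericPoint Y)

open Polynomial in
/-- A rational function on `X` which is algebraic over the function field of `Y` is regular on the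
inverse image of a nonempty open subset of `Y`. -/
theorem exists_open_regular (hX : ∀ x : X, IsIntegrallyClosed (X.presheaf.stalk x))
    (h : X.functionField)
    (halg : letI := (functionFieldMap φ hφ).toAlgebra; IsAlgebraic Y.functionField h) :
    ∃ V : Y.Opens, (V : Set Y).Nonempty ∧ ∀ x, φ x ∈ V → IsRegularAt x h := by
  obtain ⟨V, hV, -, hVn⟩ := exists_affine_nonempty (X := Y) (W := ⊤) ⟨genericPoint Y, trivial⟩
  let alg1 : Algebra Y.functionField X.functionField := (functionFieldMap φ hφ).toAlgebra
  have hfrac := functionField_isFractionRing_of_isAffineOpen Y V hV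
  let alg2 : Algebra Γ(Y, V) X.functionField :=
    ((functionFieldMap φ hφ).comp (algebraMap Γ(Y, V) Y.functionField)).toAlgebra
  have tow : IsScalarTower Γ(Y, V) Y.functionField X.functionField :=
    IsScalarTower.of_algebraMap_eq fun a => rfl
  have h1 : IsAlgebraic Γ(Y, V) h :=
    (IsFractionRing.isAlgebraic_iff Γ(Y, V) Y.functionField X.functionField).mpr halg
  obtain ⟨P, hP0, hP⟩ := h1
  have ha : P.leadingCoeff ≠ 0 := leadingCoeff_ne_zero.mpr hP0
  refine ⟨Y.basicOpen P.leadingCoeff, ?_, ?_⟩
  · have h2 : IsUnitAt (genericPoint Y) (algebraMap Γ(Y, V) Y.functionField P.leadingCoeff) := by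
      apply isUnitAt_genericPoint
      rw [Ne, IsFractionRing.to_map_eq_zero_iff]
      exact ha
    rw [isUnitAt_section_iff (genericPoint_mem ((Set.nonempty_coe_sort).mp hVn))] at h2
    exact ⟨_, h2⟩
  · intro x hx
    have hxV : φ x ∈ V := Y.basicOpen_le _ hx
    let θ : Γ(Y, V) →+* X.presheaf.stalk x :=
      (φ.stalkMap x).hom.comp (Y.presheaf.germ V (φ x) hxV).hom
    have hθ : ∀ a, algebraMap (X.presheaf.stalk x) X.functionField (θ a) =
        algebraMap Γ(Y, V) X.functionField a := by
      intro a
      have h3 : algebraMap Γ(Y, V) Y.functionField a =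
          algebraMap (Y.presheaf.stalk (φ x)) Y.functionField (Y.presheaf.germ V (φ x) hxV a) :=
        (Scheme.algebraMap_germ_eq_germToFunctionField Y hxV a).symm
      change _ = functionFieldMap φ hφ (algebraMap Γ(Y, V) Y.functionField a)
      rw [h3, functionFieldMap_algebraMap]
      rfl
    have hu : IsUnit (θ P.leadingCoeff) := by
      rw [Scheme.mem_basicOpen Y _ _ hxV] at hx
      exact hx.map (φ.stalkMap x).hom
    have hlead : (P.map θ).leadingCoeff = θ P.leadingCoeff :=
      leadingCoeff_map_of_leadingCoeff_ne_zero θ hu.ne_zero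
    have hu' : IsUnit (P.map θ).leadingCoeff := by rw [hlead]; exact hu
    have hint : _root_.IsIntegral (X.presheaf.stalk x) h := by
      refine ⟨hu'.unit⁻¹ • P.map θ, monic_of_isUnit_leadingCoeff_inv_smul hu', ?_⟩
      have h4 : eval₂ (algebraMap (X.presheaf.stalk x) X.functionField) h (P.map θ) = 0 := by
        rw [eval₂_map]
        have h5 : (algebraMap (X.presheaf.stalk x) X.functionField).comp θ =
            algebraMap Γ(Y, V) X.functionField := RingHom.ext hθ
        rw [h5]
        exact hP
      rw [Units.smul_def, eval₂_smul, h4, mul_zero]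
    have := hX x
    obtain ⟨a, ha⟩ := IsIntegrallyClosed.isIntegral_iff.mp hint
    exact ⟨a, ha⟩

end Regular

end Pool.Agent.Lib.MP_cc17a8_ag
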