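import Mathlib
import Pool.Agent.Lib.MP_cc17a8_ag.PoleDegree
import Pool.Agent.Lib.MP_cc17a8_ag.Core

open AlgebraicGeometry CategoryTheory

universe u v

namespace Pool.Agent.Lib.MP_cc17a8_ag

section FieldDef

variable {k : Type u} [Field k] {X Y : Scheme.{u}} [IsIntegral X] [IsIntegral Y]
  (f : X ⟶ Spec (.of k)) (g : Y ⟶ Spec (.of k)) (φ : X ⟶ Y)

/-- The `k`-algebra structure on the function field. -/
noncomputable abbrev ffAlg : Algebra k X.functionField :=
  (constants f (genericPoint X)).toAlgebra

theorem functionFieldMap_constants (hφ : φ (genericPoint X) = genericPoint Y) (hφg : φ ≫ g = f)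
    (a : k) : functionFieldMap φ hφ (constants g (genericPoint Y) a) =
      constants f (genericPoint X) a := by
  have hX : Nonempty (⊤ : X.Opens) := ⟨⟨genericPoint X, trivial⟩⟩
  have hY : Nonempty (⊤ : Y.Opens) := ⟨⟨genericPoint Y, trivial⟩⟩
  have e : (⊤ : X.Opens) ≤ φ ⁻¹ᵁ ⊤ := fun x _ => trivial
  have h1 : constants f (genericPoint X) a = algebraMap Γ(X, ⊤) X.functionField (constSec f ⊤ a) :=
    (germ_constSec f (U := ⊤) (x := genericPoint X) trivial a).symm
  have h2 : constants g (genericPoint Y) a = algebraMap Γ(Y, ⊤) Y.functionField (constSec g ⊤ a) :=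
    (germ_constSec g (U := ⊤) (x := genericPoint Y) trivial a).symm
  rw [h1, h2, functionFieldMap_section φ hφ e, constSec_comp hφg]

/-- The algebraic closure in the function field of `X` of the function field of `Y`. -/
noncomputable def contrField (hφ : φ (genericPoint X) = genericPoint Y) (hφg : φ ≫ g = f) :
    @IntermediateField k X.functionField _ _ (ffAlg f) :=
  letI := ffAlg f
  letI := ffAlg g
  letI := (functionFieldMap φ hφ).toAlgebra
  haveI : IsScalarTower k Y.functionField X.functionField :=
    IsScalarTower.of_algebraMap_eq fun a => (functionFieldMap_constants f g φ hφ hφg a).symm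
  (algebraicClosure Y.functionField X.functionField).restrictScalars k

theorem mem_contrField_iff (hφ : φ (genericPoint X) = genericPoint Y) (hφg : φ ≫ g = f)
    (h : X.functionField) :
    h ∈ contrField f g φ hφ hφg ↔
      (letI := (functionFieldMap φ hφ).toAlgebra; IsAlgebraic Y.functionField h) := by
  let _ := ffAlg f
  let _ := ffAlg g
  let _ := (functionFieldMap φ hφ).toAlgebra
  exact mem_algebraicClosure_iff

theorem contrField_isAlgebraic (hφ : φ (genericPoint X) = genericPoint Y) (hφg : φ ≫ g = f)
    (h : X.functionField) (halg : letI := ffAlg f; IsAlgebraic (contrField f g φ hφ hφg) h) :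
    h ∈ contrField f g φ hφ hφg := by
  rw [mem_contrField_iff]
  let _ := ffAlg f
  let _ := ffAlg g
  let _ := (functionFieldMap φ hφ).toAlgebra
  have h1 : IsAlgebraic (algebraicClosure Y.functionField X.functionField) h := halg
  exact h1.restrictScalars Y.functionField

theorem functionFieldMap_mem_contrField (hφ : φ (genericPoint X) = genericPoint Y)
    (hφg : φ ≫ g = f) (y : Y.functionField) :
    functionFieldMap φ hφ y ∈ contrField f g φ hφ hφg := by
  rw [mem_contrField_iff]
  let _ := (functionFieldMap φ hφ).toAlgebra
  exact isAlgebraic_algebraMap y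

theorem exists_notMem_contrField (hφ : φ (genericPoint X) = genericPoint Y)
    (hφg : φ ≫ g = f) (hdim : dimension g < dimension f) :
    ∃ t, t ∉ contrField f g φ hφ hφg := by
  by_contra hcon
  push Not at hcon
  let _ := ffAlg f
  let _ := ffAlg g
  let _ := (functionFieldMap φ hφ).toAlgebra
  have : IsScalarTower k Y.functionField X.functionField :=
    IsScalarTower.of_algebraMap_eq fun a => (functionFieldMap_constants f g φ hφ hφg a).symm
  have halg : Algebra.IsAlgebraic Y.functionField X.functionField :=
    ⟨fun t => (mem_contrField_iff f g φ hφ hφg t).mp (hcon t)⟩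
  have h3 := trdeg_add_eq (R := k) (S := Y.functionField) (A := X.functionField)
  rw [trdeg_eq_zero (R := Y.functionField) (A := X.functionField), add_zero] at h3
  exact hdim.ne h3

end FieldDef

end Pool.Agent.Lib.MP_cc17a8_ag
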