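import Mathlib
import Pool.Agent.Lib.MP_cc17a8_ag.ContrField

open AlgebraicGeometry CategoryTheory

universe u v

namespace Pool.Agent.Lib.MP_cc17a8_ag

section Generic

variable {X : Scheme.{u}} [IsIntegral X] {F : Type u} [Field F]
  (σ : X.presheaf.stalk (genericPoint X) →+* F)

instance isLocalHom_generic : IsLocalHom σ := by
  constructor
  intro a ha
  rw [isUnit_iff_ne_zero]
  rintro rfl
  rw [map_zero] at ha
  exact not_isUnit_zero ha

theorem evalAt_generic (h : X.functionField) : evalAt σ h = σ h := by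
  have := evalAt_algebraMap σ h
  rwa [algebraMap_genericPoint] at this

theorem evalAt_generic_ne_zero {h : X.functionField} (hh : h ≠ 0) : evalAt σ h ≠ 0 :=
  evalAt_ne_zero σ (isUnitAt_genericPoint hh)

end Generic

section

variable {k W F : Type u} [Field k] [Field W] [Field F] [Algebra W F] [CharZero W] [IsAlgClosed W]
  {X Y : Scheme.{u}} [IsIntegral X] [IsIntegral Y] {f : X ⟶ Spec (.of k)} [IsProper f]
  {g : Y ⟶ Spec (.of k)} [IsSeparated g] {φ : X ⟶ Y}
  {σ : X.presheaf.stalk (genericPoint X) →+* F}

/-- The degree along a constant point is zero. -/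
theorem degree_eq_zero_of_const (hσ : GoodPoint f σ W) (hc : ∀ a, σ a ∈ (algebraMap W F).range)
    (D : CartierDivisor X) : degree {v | IsPlace W v} σ D = 0 := by
  have hg := hσ
  apply hσ.degree_eq_zero D (s := (D.eqn (genericPoint X))⁻¹)
  · rw [inv_mul_cancel₀ (D.ne_zero _)]; exact isUnitAt_one _
  · intro v hv
    have hcen : center σ v = genericPoint X := by
      apply IsCenter.center_eq f
      apply isCenter_self
      intro s
      obtain ⟨w, hw⟩ := hc s
      rw [← hw]
      exact hv.1 w
    rw [hcen, inv_mul_cancel₀ (D.ne_zero _)]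
    exact isUnitAt_one _

/-- The degree of a pull-back. -/
theorem degree_pullback (hσ : GoodPoint f σ W) (hφ : φ (genericPoint X) = genericPoint Y)
    (E : CartierDivisor X) (m : ℕ) (G : CartierDivisor Y) (h : X.functionField) (hh : h ≠ 0)
    (hE : ∀ x : X, IsUnitAt x (E.eqn x ^ m / (h * functionFieldMap φ hφ (G.eqn (φ x))))) 
    (hcenter : ∀ v, IsPlace W v → φ (center σ v) =
      center (σ.comp (φ.stalkMap (genericPoint X)).hom) v) :
    m * degree {v | IsPlace W v} σ E = ∑ᶠ v ∈ {v | IsPlace W v},
      ordAt v (σ (functionFieldMap φ hφ (G.eqn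
        (center (σ.comp (φ.stalkMap (genericPoint X)).hom) v)))) := by
  rw [← hσ.degree_nsmul, hσ.degree_eq (m • E) (s := h⁻¹)]
  · apply finsum_mem_congr rfl
    intro v hv
    have hc := hσ.isCenter hv
    have := hσ.ff.isDVR hv
    have h1 := hE (center σ v)
    have hne : functionFieldMap φ hφ (G.eqn (φ (center σ v))) ≠ 0 :=
      (map_ne_zero _).mpr (G.ne_zero _)
    have h2 : h⁻¹ * (m • E).eqn (center σ v) =
        (E.eqn (center σ v) ^ m / (h * functionFieldMap φ hφ (G.eqn (φ (center σ v))))) *
          functionFieldMap φ hφ (G.eqn (φ (center σ v))) := by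
      rw [CartierDivisor.nsmul_eqn]
      field_simp
    obtain ⟨hsp, -⟩ := id hc
    rw [← hcenter v hv, h2, evalAt_mul σ (h1.specializes hsp).isRegularAt
      (isUnitAt_genericPoint hne).isRegularAt, ordAt_mul v
      (evalAt_ne_zero σ (h1.specializes hsp)) (evalAt_generic_ne_zero σ hne), evalAt_generic σ
      (functionFieldMap φ hφ (G.eqn (φ (center σ v)))), add_eq_right]
    apply ordAt_eq_zero v (hc.mem h1.isRegularAt)
    rw [← evalAt_inv σ (h1.specializes hsp)]
    exact hc.mem h1.inv.isRegularAt
  · apply isUnitAt_genericPoint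
    exact mul_ne_zero (inv_ne_zero hh) ((m • E).ne_zero _)

omit [CharZero W] [IsAlgClosed W] [IsIntegral Y] in
theorem map_center (hσ : GoodPoint f σ W) {v : ValuationSubring F} (hv : IsPlace W v) (g : Y ⟶ Spec (.of k))
    [IsSeparated g] :
    φ (center σ v) = center (σ.comp (φ.stalkMap (genericPoint X)).hom) v := by
  have h1 := (hσ.isCenter hv).map φ
  exact (h1.center_eq g).symm

/-- Two points which agree on the function field of `Y` give the same degree to a divisor with a
multiple which is a pull-back from `Y`. -/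
theorem degree_eq_of_agree {σ' : X.presheaf.stalk (genericPoint X) →+* F}
    (hσ : GoodPoint f σ W) (hσ' : GoodPoint f σ' W)
    (hφ : φ (genericPoint X) = genericPoint Y) (g : Y ⟶ Spec (.of k)) [IsSeparated g]
    (E : CartierDivisor X) (m : ℕ) (hm : 0 < m) (G : CartierDivisor Y) (h : X.functionField)
    (hh : h ≠ 0)
    (hE : ∀ x : X, IsUnitAt x (E.eqn x ^ m / (h * functionFieldMap φ hφ (G.eqn (φ x)))))
    (hagree : ∀ y, σ (functionFieldMap φ hφ y) = σ' (functionFieldMap φ hφ y)) :
    degree {v | IsPlace W v} σ E = degree {v | IsPlace W v} σ' E := by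
  have h1 := degree_pullback hσ hφ E m G h hh hE fun v hv => map_center hσ hv g
  have h2 := degree_pullback hσ' hφ E m G h hh hE fun v hv => map_center hσ' hv g
  have h3 : σ.comp (φ.stalkMap (genericPoint X)).hom = σ'.comp (φ.stalkMap (genericPoint X)).hom := by
    ext s
    have h4 : (φ.stalkMap (genericPoint X)).hom s = functionFieldMap φ hφ
        (algebraMap (Y.presheaf.stalk (φ (genericPoint X))) Y.functionField s) := by
      rw [functionFieldMap_algebraMap φ hφ, algebraMap_genericPoint]
    rw [RingHom.comp_apply, RingHom.comp_apply, h4]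
    exact hagree _
  rw [← h3] at h2
  have h4 : (m : ℤ) * degree {v | IsPlace W v} σ E = m * degree {v | IsPlace W v} σ' E := by
    rw [h1, h2]
    apply finsum_mem_congr rfl
    intro v _
    rw [hagree]
  have hm' : (m : ℤ) ≠ 0 := by exact_mod_cast hm.ne'
  exact mul_left_cancel₀ hm' h4

/-- The degree of a pull-back along a point which is constant on the function field of `Y`. -/
theorem degree_eq_zero_of_const_base (hσ : GoodPoint f σ W)
    (hφ : φ (genericPoint X) = genericPoint Y) (g : Y ⟶ Spec (.of k)) [IsSeparated g]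
    (E : CartierDivisor X) (m : ℕ) (hm : 0 < m) (G : CartierDivisor Y) (h : X.functionField)
    (hh : h ≠ 0)
    (hE : ∀ x : X, IsUnitAt x (E.eqn x ^ m / (h * functionFieldMap φ hφ (G.eqn (φ x)))))
    (hconst : ∀ y, σ (functionFieldMap φ hφ y) ∈ (algebraMap W F).range) :
    degree {v | IsPlace W v} σ E = 0 := by
  have h1 := degree_pullback hσ hφ E m G h hh hE fun v hv => map_center hσ hv g
  have h2 : (m : ℤ) * degree {v | IsPlace W v} σ E = 0 := by
    rw [h1]
    apply finsum_mem_eq_zero_of_forall_eq_zero
    intro v hv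
    have := hσ.ff.isDVR hv
    obtain ⟨w, hw⟩ := hconst (G.eqn (center (σ.comp (φ.stalkMap (genericPoint X)).hom) v))
    rw [← hw]
    apply ordAt_eq_zero v (hv.1 w)
    rw [← map_inv₀]
    exact hv.1 w⁻¹
  have hm' : (m : ℤ) ≠ 0 := by exact_mod_cast hm.ne'
  exact (mul_eq_zero.mp h2).resolve_left hm'

end

end Pool.Agent.Lib.MP_cc17a8_ag
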