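import Mathlib
import Pool.Agent.Lib.MP_cc17a8_ag.Pullback

open AlgebraicGeometry CategoryTheory

universe u v

namespace Pool.Agent.Lib.MP_cc17a8_ag

/-- The surjective `k`-morphism `φ : X ⟶ Y` is a contraction of the extremal ray `R`:
it contracts exactly the curves whose class lies in `R`, and a Cartier divisor on `X` which has
degree zero on these curves has a positive multiple which is linearly equivalent to the pull-back
of a Cartier divisor on `Y`. -/
structure IsContractionDesc {k : Type u} [Field k] {X Y : Scheme.{u}} [IsIntegral X] [IsIntegral Y]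
    (f : X ⟶ Spec (.of k))
    (g : Y ⟶ Spec (.of k)) (R : Set (Forms f)) (φ : X ⟶ Y) : Prop where
  comp_eq : φ ≫ g = f
  surjective : Function.Surjective φ
  map_genericPoint : φ (genericPoint X) = genericPoint Y
  isClosed_iff : ∀ C : Curve f, IsClosed {φ C.pt} ↔ curveClass f C ∈ R
  descent : ∀ E : CartierDivisor X, (∀ C : Curve f, curveClass f C ∈ R → inter E C = 0) →
    ∃ m : ℕ, 0 < m ∧ ∃ (G : CartierDivisor Y) (h : X.functionField), h ≠ 0 ∧
      ∀ x : X, IsUnitAt x
        (E.eqn x ^ m / (h * functionFieldMap φ map_genericPoint (G.eqn (φ x))))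

/-- A contraction of fibre type. -/
structure FibreData {k : Type u} [Field k] {X : Scheme.{u}} [IsIntegral X] (f : X ⟶ Spec (.of k))
    (R : Set (N1 f → ℝ)) where
  Y : Scheme.{u}
  int : IsIntegral Y
  g : Y ⟶ Spec (.of k)
  prop : IsProper g
  φ : X ⟶ Y
  contr : IsContractionDesc f g R φ
  dim_lt : dimension g < dimension f

attribute [instance] FibreData.int FibreData.prop

section

variable {k : Type u} [Field k] [CharZero k] [IsAlgClosed k] {X : Scheme.{u}} [IsIntegral X]
  {f : X ⟶ Spec (.of k)} [IsProper f]

/-- The algebraic closure of the function field of the target. -/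
noncomputable def FibreData.field {R : Set (N1 f → ℝ)} (c : FibreData f R) :
    @IntermediateField k X.functionField _ _ (ffAlg f) :=
  contrField f c.g c.φ c.contr.map_genericPoint c.contr.comp_eq

omit [CharZero k] [IsAlgClosed k] in
theorem essFiniteType_functionField (f : X ⟶ Spec (.of k)) [LocallyOfFiniteType f] :
    @Algebra.EssFiniteType k X.functionField _ _ (ffAlg f) :=
  essFiniteType_constants f (genericPoint X)

theorem claim1 {ι : Type v} (R : ι → Set (N1 f → ℝ)) (c : ∀ j, FibreData f (R j))
    (hL : letI := ffAlg f; ⨅ j, (c j).field = ⊥) (E : CartierDivisor X)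
    (hE : ∀ j, ∀ C : Curve f, curveClass f C ∈ R j → inter E C = 0)
    {Rp : Set (N1 f → ℝ)} (cp : FibreData f Rp) {A : CartierDivisor X} (hA : A.IsAmple)
    (Cp : Curve f)
    (hprop : ∀ C : Curve f, curveClass f C ∈ Rp →
      inter A Cp * inter E C = inter E Cp * inter A C) :
    inter E Cp = 0 := by
  let _ := ffAlg f
  have hess := essFiniteType_functionField f
  obtain ⟨t, ht⟩ := exists_notMem_contrField f cp.g cp.φ cp.contr.map_genericPoint
    cp.contr.comp_eq cp.dim_lt
  have htr : Transcendental cp.field t := fun h => ht (contrField_isAlgebraic f cp.g cp.φ _ _ t h)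
  obtain ⟨W, F, _, _, _, _, _, _, a, b, hl, hFF, ha, hb, hbt⟩ := chain_core
    (fun j => (c j).field) hL (fun j x hx => contrField_isAlgebraic f (c j).g (c j).φ _ _ x hx)
    cp.field t htr
  have hkF : ∀ x : k, algebraMap k F x ∈ (algebraMap W F).range := by
    intro x
    have h1 := ha (algebraMap k X.functionField x)
    rwa [a.commutes] at h1
  have hgood : ∀ s : X.functionField →ₐ[k] F, GoodPoint f (x := genericPoint X) s.toRingHom W := by
    intro s
    refine ⟨hFF, fun x => ?_⟩
    have h1 : s.toRingHom (constants f (genericPoint X) x) = algebraMap k F x := s.commutes x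
    rw [h1]
    exact hkF x
  have hstep : ∀ {s s' : X.functionField →ₐ[k] F}, Linked (fun j => (c j).field) s s' →
      degree {v | IsPlace W v} (x := genericPoint X) s.toRingHom E =
      degree {v | IsPlace W v} (x := genericPoint X) s'.toRingHom E := by
    intro s s' h
    induction h with
    | refl s => rfl
    | step s s1 s' j h hl ih =>
      rw [← ih]
      obtain ⟨m, hm, G, q, hq, hmq⟩ := (c j).contr.descent E (hE j)
      exact degree_eq_of_agree (hgood s) (hgood s1) (c j).contr.map_genericPoint (c j).g E m hm G q
        hq hmq (fun y => h _ (functionFieldMap_mem_contrField f (c j).g (c j).φ _ _ y))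
  have h0 : degree {v | IsPlace W v} (x := genericPoint X) a.toRingHom E = 0 :=
    degree_eq_zero_of_const (hgood a) ha E
  have hbE : degree {v | IsPlace W v} (x := genericPoint X) b.toRingHom E = 0 := by
    rw [← hstep hl, h0]
  have hbA : 0 < degree {v | IsPlace W v} (x := genericPoint X) b.toRingHom A :=
    (hgood b).degree_ample_pos hA ⟨t, hbt⟩
  have hcomb : degree {v | IsPlace W v} (x := genericPoint X) b.toRingHom
      (inter A Cp • E + (-inter E Cp) • A) = 0 := by
    obtain ⟨m, hm, G, q, hq, hmq⟩ := cp.contr.descent (inter A Cp • E + (-inter E Cp) • A) (by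
      intro C hC
      rw [inter_add, inter_zsmul, inter_zsmul, hprop C hC]
      ring)
    exact degree_eq_zero_of_const_base (hgood b) cp.contr.map_genericPoint cp.g _ m hm G q hq hmq
      (fun y => hb _ (functionFieldMap_mem_contrField f cp.g cp.φ _ _ y))
  rw [(hgood b).degree_add, (hgood b).degree_zsmul, (hgood b).degree_zsmul, hbE, mul_zero,
    zero_add, mul_eq_zero] at hcomb
  have := hcomb.resolve_right hbA.ne'
  exact neg_eq_zero.mp this

end

end Pool.Agent.Lib.MP_cc17a8_ag
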