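import Mathlib
import Pool.Agent.Lib.MP_cc17a8_ag.Claim1

open AlgebraicGeometry CategoryTheory

universe u v

namespace Pool.Agent.Lib.MP_cc17a8_ag

section

variable {k : Type u} [Field k] [CharZero k] [IsAlgClosed k] {X : Scheme.{u}} [IsIntegral X]
  {f : X ⟶ Spec (.of k)} [IsProper f]

theorem claim2 (hX : ∀ x : X, UniqueFactorizationMonoid (X.presheaf.stalk x))
    (h : X.functionField) (hh : ∀ a, constants f (genericPoint X) a ≠ h) :
    ∃ D : CartierDivisor X, (∃ C : Curve f, inter D C ≠ 0) ∧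
      (∀ (R : Set (N1 f → ℝ)) (_ : FibreData f R), ∃ C : Curve f, curveClass f C ∈ R ∧
        0 ≤ inter D C) ∧
      ∀ (R : Set (N1 f → ℝ)) (c : FibreData f R), h ∈ c.field → ∃ C : Curve f,
        curveClass f C ∈ R ∧ inter D C = 0 := by
  obtain ⟨D, hD, hDh⟩ := exists_poleDivisor f hX h
  have h0 : h ≠ 0 := fun h0 => hh 0 (by rw [map_zero, h0])
  refine ⟨D, ?_, ?_, ?_⟩
  · obtain ⟨C, -, hC, htr⟩ := exists_curve_transcendental (f := f) h hh (W := ⊤)
      ⟨genericPoint X, trivial⟩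
    exact ⟨C, (inter_pole_pos hD hDh C hC htr).ne'⟩
  · intro R c
    obtain ⟨W, hW, hreg⟩ := (isUnitAt_genericPoint h0).isRegularAt.exists_nhd
    obtain ⟨C, hC, -, hcl⟩ := exists_contracted_curve c.contr.map_genericPoint c.contr.comp_eq
      c.dim_lt (W := W) ⟨_, hW⟩ (V := ⊤) ⟨genericPoint c.Y, trivial⟩
    exact ⟨C, (c.contr.isClosed_iff C).mp hcl, inter_pole_nonneg hD hDh C (hreg _ hC)⟩
  · intro R c hc
    have hic : ∀ x : X, IsIntegrallyClosed (X.presheaf.stalk x) := by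
      intro x
      have := hX x
      infer_instance
    obtain ⟨V, hV, hreg⟩ := exists_open_regular c.φ c.contr.map_genericPoint hic h
      ((mem_contrField_iff f c.g c.φ _ c.contr.comp_eq h).mp hc)
    obtain ⟨C, -, hCV, hcl⟩ := exists_contracted_curve c.contr.map_genericPoint c.contr.comp_eq
      c.dim_lt (W := ⊤) ⟨genericPoint X, trivial⟩ (V := V) hV
    refine ⟨C, (c.contr.isClosed_iff C).mp hcl, inter_pole_eq_zero hDh C fun x hx => hreg x ?_⟩
    have h1 : c.φ C.pt ⤳ c.φ x := hx.map c.φ.continuous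
    have h2 : c.φ x ∈ closure {c.φ C.pt} := h1.mem_closure
    rw [hcl.closure_eq, Set.mem_singleton_iff] at h2
    rw [h2]
    exact hCV

end

end Pool.Agent.Lib.MP_cc17a8_ag
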