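import Mathlib

universe u v w

namespace Pool.Agent.Lib.MP_cc17a8_ag

open Module
open scoped NNReal

section Cone

variable {V : Type u} {Γ : Type v} (cur : Γ → V → ℝ)

/-- The closed cone generated by the functions `cur γ`. -/
def absCone : Set (V → ℝ) :=
  closure {z | ∃ (n : ℕ) (a : Fin n → ℝ) (C : Fin n → Γ),
    (∀ i, 0 ≤ a i) ∧ z = ∑ i, a i • cur (C i)}

theorem coe_span_eq : (Submodule.span ℝ≥0 (Set.range cur) : Set (V → ℝ)) =
    {z | ∃ (n : ℕ) (a : Fin n → ℝ) (C : Fin n → Γ),
      (∀ i, 0 ≤ a i) ∧ z = ∑ i, a i • cur (C i)} := by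
  ext z
  rw [SetLike.mem_coe, Submodule.mem_span_set']
  constructor
  · rintro ⟨n, a, g, rfl⟩
    choose C hC using fun i => (g i).2
    refine ⟨n, fun i => a i, C, fun i => (a i).2, ?_⟩
    apply Finset.sum_congr rfl
    intro i _
    rw [hC]
    rfl
  · rintro ⟨n, a, C, ha, rfl⟩
    refine ⟨n, fun i => ⟨a i, ha i⟩, fun i => ⟨cur (C i), ⟨C i, rfl⟩⟩, ?_⟩
    rfl

/-- The closed cone as a submodule over the nonnegative reals. -/
noncomputable def coneSub : Submodule ℝ≥0 (V → ℝ) :=
  (Submodule.span ℝ≥0 (Set.range cur)).topologicalClosure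

theorem coe_coneSub : (coneSub cur : Set (V → ℝ)) = absCone cur := by
  rw [coneSub, Submodule.topologicalClosure_coe, coe_span_eq]
  rfl

theorem mem_coneSub {z : V → ℝ} : z ∈ coneSub cur ↔ z ∈ absCone cur := by
  rw [← SetLike.mem_coe, coe_coneSub]

theorem isClosed_absCone : IsClosed (absCone cur) := isClosed_closure

theorem absCone_add {x y : V → ℝ} (hx : x ∈ absCone cur) (hy : y ∈ absCone cur) :
    x + y ∈ absCone cur := by
  rw [← mem_coneSub] at *
  exact add_mem hx hy

theorem absCone_smul {x : V → ℝ} (hx : x ∈ absCone cur) {r : ℝ} (hr : 0 ≤ r) :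
    r • x ∈ absCone cur := by
  rw [← mem_coneSub] at *
  exact (coneSub cur).smul_mem ⟨r, hr⟩ hx

theorem cur_mem_absCone (γ : Γ) : cur γ ∈ absCone cur := by
  rw [← mem_coneSub]
  exact Submodule.le_topologicalClosure _ (Submodule.subset_span ⟨γ, rfl⟩)

theorem absCone_subset {P : Set (V → ℝ)} (hP : IsClosed P) (h0 : (0 : V → ℝ) ∈ P)
    (hadd : ∀ x ∈ P, ∀ y ∈ P, x + y ∈ P) (hsmul : ∀ (r : ℝ), 0 ≤ r → ∀ x ∈ P, r • x ∈ P)
    (hcur : ∀ γ, cur γ ∈ P) : absCone cur ⊆ P := by
  apply closure_minimal _ hP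
  rw [← coe_span_eq]
  let Q : Submodule ℝ≥0 (V → ℝ) :=
    { carrier := P
      add_mem' := fun {x y} hx hy => hadd x hx y hy
      zero_mem' := h0
      smul_mem' := fun r x hx => hsmul r r.2 x hx }
  have h : Submodule.span ℝ≥0 (Set.range cur) ≤ Q := by
    rw [Submodule.span_le]
    rintro _ ⟨γ, rfl⟩
    exact hcur γ
  exact h

end Cone

section KM

variable {V : Type u} [AddCommGroup V] [Module ℝ V] {Γ : Type v} (cur : Γ → Dual ℝ V) (a : V)
  
theorem absCone_linear {z : V → ℝ} (hz : z ∈ absCone (fun γ => ⇑(cur γ))) :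
    ∃ z' : Dual ℝ V, ⇑z' = z := by
  have h1 : absCone (fun γ => ⇑(cur γ)) ⊆ {z | ∀ x y, z (x + y) = z x + z y} := by
    apply absCone_subset
    · simp only [Set.ofPred_forall]
      exact isClosed_iInter fun x => isClosed_iInter fun y =>
        isClosed_eq (by fun_prop) (by fun_prop)
    · intro x y; simp
    · intro z hz w hw x y
      rw [Pi.add_apply, Pi.add_apply, Pi.add_apply, hz, hw]; ring
    · intro r _ z hz x y
      rw [Pi.smul_apply, Pi.smul_apply, Pi.smul_apply, hz, smul_add]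
    · intro γ x y
      exact map_add _ _ _
  have h2 : absCone (fun γ => ⇑(cur γ)) ⊆ {z | ∀ (c : ℝ) x, z (c • x) = c • z x} := by
    apply absCone_subset
    · simp only [Set.ofPred_forall]
      exact isClosed_iInter fun x => isClosed_iInter fun y =>
        isClosed_eq (by fun_prop) (by fun_prop)
    · intro x y; simp
    · intro z hz w hw x y
      rw [Pi.add_apply, Pi.add_apply, hz, hw, smul_add]
    · intro r _ z hz x y
      rw [Pi.smul_apply, Pi.smul_apply, hz, smul_comm]
    · intro γ x y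
      exact map_smul _ _ _
  exact ⟨{ toFun := z, map_add' := h1 hz, map_smul' := h2 hz }, rfl⟩

/-- The base of the cone. -/
def base : Set (V → ℝ) := {z | z ∈ absCone (fun γ => ⇑(cur γ)) ∧ z a = 1}

variable (hbound : ∀ δ : V, ∃ M : ℝ, ∀ γ, |cur γ δ| ≤ M * cur γ a)

include hbound in
theorem absCone_bound (δ : V) : ∃ M : ℝ, ∀ z ∈ absCone (fun γ => ⇑(cur γ)), |z δ| ≤ M * z a := by
  obtain ⟨M, hM⟩ := hbound δ
  refine ⟨M, ?_⟩
  apply absCone_subset (P := {z : V → ℝ | |z δ| ≤ M * z a})
  · exact isClosed_le (by fun_prop) (by fun_prop)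
  · simp
  · intro z hz w hw
    change |z δ + w δ| ≤ M * (z a + w a)
    rw [mul_add]
    exact (abs_add_le _ _).trans (add_le_add hz hw)
  · intro r hr z hz
    change |r * z δ| ≤ M * (r * z a)
    rw [abs_mul, abs_of_nonneg hr, mul_left_comm]
    exact mul_le_mul_of_nonneg_left hz hr
  · exact hM

variable (hpos : ∀ γ, 0 < cur γ a)

include hpos in
theorem absCone_nonneg {z : V → ℝ} (hz : z ∈ absCone (fun γ => ⇑(cur γ))) : 0 ≤ z a := by
  have h1 : absCone (fun γ => ⇑(cur γ)) ⊆ {z | 0 ≤ z a} := by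
    apply absCone_subset
    · exact isClosed_le (by fun_prop) (by fun_prop)
    · simp
    · intro z hz w hw
      exact add_nonneg (α := ℝ) hz hw
    · intro r hr z hz
      exact mul_nonneg (α := ℝ) hr hz
    · intro γ
      exact (hpos γ).le
  exact h1 hz

include hbound hpos in
theorem absCone_eq_zero {z : V → ℝ} (hz : z ∈ absCone (fun γ => ⇑(cur γ))) (h : z a = 0) :
    z = 0 := by
  ext δ
  obtain ⟨M, hM⟩ := absCone_bound cur a hbound δ
  have := hM z hz
  rw [h, mul_zero] at this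
  exact abs_nonpos_iff.mp this

theorem absCone_zero : (0 : V → ℝ) ∈ absCone (fun γ => ⇑(cur γ)) := by
  rw [← mem_coneSub]
  exact zero_mem _

include hbound in
theorem isCompact_base : IsCompact (base cur a) := by
  choose M hM using absCone_bound cur a hbound
  have h1 : IsCompact (Set.pi Set.univ fun δ : V => Set.Icc (-M δ) (M δ)) :=
    isCompact_univ_pi fun δ => isCompact_Icc
  refine h1.of_isClosed_subset ?_ ?_
  · have h2 : base cur a = absCone (fun γ => ⇑(cur γ)) ∩ {z | z a = 1} := rfl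
    rw [h2]
    exact (isClosed_absCone _).inter (isClosed_eq (by fun_prop) (by fun_prop))
  · rintro z ⟨hz, hza⟩ δ -
    have := hM δ z hz
    rw [hza, mul_one] at this
    exact abs_le.mp this

theorem convex_base : Convex ℝ (base cur a) := by
  rintro z ⟨hz, hza⟩ w ⟨hw, hwa⟩ s t hs ht hst
  refine ⟨absCone_add _ (absCone_smul _ hz hs) (absCone_smul _ hw ht), ?_⟩
  change s * z a + t * w a = 1
  rw [hza, hwa, mul_one, mul_one, hst]

include hbound hpos in
/-- The ray spanned by an extreme point of the base is an extremal ray. -/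
theorem extremal_of_extremePoint {z : V → ℝ} (hz : z ∈ (base cur a).extremePoints ℝ)
    {x y : V → ℝ} (hx : x ∈ absCone (fun γ => ⇑(cur γ)))
    (hy : y ∈ absCone (fun γ => ⇑(cur γ))) (h : ∃ t : ℝ, 0 ≤ t ∧ x + y = t • z) :
    ∃ t : ℝ, 0 ≤ t ∧ x = t • z := by
  obtain ⟨t, ht, hxy⟩ := h
  have hza : z a = 1 := hz.1.2
  have hxa := absCone_nonneg cur a hpos hx
  have hya := absCone_nonneg cur a hpos hy
  have hsum : x a + y a = t := by
    have := congrFun hxy a
    rw [Pi.add_apply, Pi.smul_apply, hza, smul_eq_mul, mul_one] at this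
    exact this
  by_cases hx0 : x a = 0
  · refine ⟨0, le_rfl, ?_⟩
    rw [zero_smul]
    exact absCone_eq_zero cur a hbound hpos hx hx0
  by_cases hy0 : y a = 0
  · refine ⟨t, ht, ?_⟩
    rw [← hxy, absCone_eq_zero cur a hbound hpos hy hy0, add_zero]
  have hxp : 0 < x a := lt_of_le_of_ne hxa (Ne.symm hx0)
  have hyp : 0 < y a := lt_of_le_of_ne hya (Ne.symm hy0)
  have htp : 0 < t := by linarith
  have hxB : (x a)⁻¹ • x ∈ base cur a := by
    refine ⟨absCone_smul _ hx (by positivity), ?_⟩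
    rw [Pi.smul_apply, smul_eq_mul, inv_mul_cancel₀ hx0]
  have hyB : (y a)⁻¹ • y ∈ base cur a := by
    refine ⟨absCone_smul _ hy (by positivity), ?_⟩
    rw [Pi.smul_apply, smul_eq_mul, inv_mul_cancel₀ hy0]
  have hseg : z ∈ openSegment ℝ ((x a)⁻¹ • x) ((y a)⁻¹ • y) := by
    refine ⟨x a / t, y a / t, by positivity, by positivity, by rw [← add_div, hsum, div_self htp.ne'], ?_⟩
    rw [smul_smul, smul_smul]
    have h1 : x a / t * (x a)⁻¹ = t⁻¹ := by field_simp
    have h2 : y a / t * (y a)⁻¹ = t⁻¹ := by field_simp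
    rw [h1, h2, ← smul_add, hxy, smul_smul, inv_mul_cancel₀ htp.ne', one_smul]
  have h3 := (mem_extremePoints.mp hz).2 _ hxB _ hyB hseg
  refine ⟨x a, hxa, ?_⟩
  rw [← h3.1, smul_smul, mul_inv_cancel₀ hx0, one_smul]

include hbound hpos in
/-- A class which is nonnegative on the extreme points of the base is nonnegative. -/
theorem nonneg_of_extremePoints {δ : V} (h : ∀ z ∈ (base cur a).extremePoints ℝ, 0 ≤ z δ) (γ : Γ) :
    0 ≤ cur γ δ := by
  have h1 : base cur a ⊆ {z | 0 ≤ z δ} := by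
    rw [← closure_convexHull_extremePoints (isCompact_base cur a hbound) (convex_base cur a)]
    apply closure_minimal
    · apply convexHull_min
      · exact h
      · intro z hz w hw s t hs ht _
        change 0 ≤ s * z δ + t * w δ
        exact add_nonneg (mul_nonneg hs hz) (mul_nonneg ht hw)
    · exact isClosed_le (by fun_prop) (by fun_prop)
  have h2 : (cur γ a)⁻¹ • (cur γ : V → ℝ) ∈ base cur a := by
    refine ⟨absCone_smul _ (cur_mem_absCone _ γ) (inv_nonneg.mpr (hpos γ).le), ?_⟩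
    rw [Pi.smul_apply, smul_eq_mul, inv_mul_cancel₀ (hpos γ).ne']
  have h3 := h1 h2
  change 0 ≤ (cur γ a)⁻¹ * cur γ δ at h3
  exact (mul_nonneg_iff_of_pos_left (inv_pos.mpr (hpos γ))).mp h3

include hpos in
/-- An extreme point of the base which is a nonnegative combination of elements of the base is one
of them. -/
theorem eq_of_nonneg_combination {w : V → ℝ} (hw : w ∈ (base cur a).extremePoints ℝ) (n : ℕ)
    (v : Fin n → V → ℝ) (c : Fin n → ℝ) (hv : ∀ i, v i ∈ base cur a) (hc : ∀ i, 0 ≤ c i)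
    (h : w = ∑ i, c i • v i) : ∃ i, w = v i := by
  have hsum : ∑ i, c i = 1 := by
    have h1 := congrFun h a
    rw [hw.1.2, Finset.sum_apply] at h1
    rw [h1]
    apply Finset.sum_congr rfl
    intro i _
    rw [Pi.smul_apply, (hv i).2, smul_eq_mul, mul_one]
  have h2 : w ∈ convexHull ℝ (Set.range v) := by
    rw [h]
    exact (convex_convexHull ℝ _).sum_mem (fun i _ => hc i) hsum
      (fun i _ => subset_convexHull ℝ _ ⟨i, rfl⟩)
  have h3 : convexHull ℝ (Set.range v) ⊆ base cur a :=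
    convexHull_min (by rintro _ ⟨i, rfl⟩; exact hv i) (convex_base cur a)
  have h4 := inter_extremePoints_subset_extremePoints_of_subset h3 ⟨h2, hw⟩
  obtain ⟨i, hi⟩ := extremePoints_convexHull_subset h4
  exact ⟨i, hi.symm⟩

end KM

end Pool.Agent.Lib.MP_cc17a8_ag
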