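import Mathlib

universe u v w

namespace Pool.Agent.Lib.MP_cc17a8_ag

theorem exists_finite_inf {k K : Type u} [Field k] [Field K] [Algebra k K]
    (hfin : Algebra.trdeg k K < Cardinal.aleph0) {τ : Type v} (T : Set τ)
    (L : τ → IntermediateField k K) (hac : ∀ z ∈ T, ∀ x, IsAlgebraic (L z) x → x ∈ L z)
    (hbot : ∀ h, (∀ z ∈ T, h ∈ L z) → h ∈ (⊥ : IntermediateField k K)) :
    ∃ S : Finset τ, (S : Set τ) ⊆ T ∧ ∀ h, (∀ z ∈ S, h ∈ L z) → h ∈ (⊥ : IntermediateField k K) := by
  classical
  let M : Finset τ → IntermediateField k K := fun S => ⨅ z ∈ S, L z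
  have hM : ∀ S h, h ∈ M S ↔ ∀ z ∈ S, h ∈ L z := by
    intro S h
    rw [← SetLike.mem_coe]
    simp only [M, IntermediateField.coe_iInf, Set.mem_iInter, SetLike.mem_coe]
  let A : Set Cardinal.{u} := {c | ∃ S : Finset τ, (S : Set τ) ⊆ T ∧ Algebra.trdeg k (M S) = c}
  have hA : A.Nonempty := ⟨_, ∅, by simp, rfl⟩
  obtain ⟨c, ⟨S, hST, hSc⟩, hmin⟩ := WellFounded.has_min (wellFounded_lt (α := Cardinal.{u})) A hA
  refine ⟨S, hST, fun h hh => hbot h fun z hz => ?_⟩
  -- compare with `insert z S`
  have hle : M (insert z S) ≤ M S := by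
    intro x hx
    rw [hM] at hx ⊢
    exact fun w hw => hx w (Finset.mem_insert_of_mem hw)
  let j : M (insert z S) →ₐ[k] M S := IntermediateField.inclusion hle
  let _ : Algebra (M (insert z S)) (M S) := j.toRingHom.toAlgebra
  have tow : IsScalarTower k (M (insert z S)) (M S) :=
    IsScalarTower.of_algebraMap_eq fun x => (j.commutes x).symm
  have tow2 : IsScalarTower (M (insert z S)) (M S) K :=
    IsScalarTower.of_algebraMap_eq fun x => rfl
  have hadd := trdeg_add_eq (R := k) (S := M (insert z S)) (A := M S)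
  have hge : Algebra.trdeg k (M S) ≤ Algebra.trdeg k (M (insert z S)) := by
    rw [hSc]
    have := hmin (Algebra.trdeg k (M (insert z S))) ⟨insert z S, by
      rw [Finset.coe_insert]; exact Set.insert_subset hz hST, rfl⟩
    exact not_lt.mp this
  have hfinS : Algebra.trdeg k (M S) < Cardinal.aleph0 :=
    (trdeg_le_of_injective (M S).val (M S).val.toRingHom.injective).trans_lt hfin
  have hzero : Algebra.trdeg (M (insert z S)) (M S) = 0 := by
    have h1 : Algebra.trdeg k (M (insert z S)) ≤ Algebra.trdeg k (M S) := by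
      rw [← hadd]; exact self_le_add_right _ _
    have h2 : Algebra.trdeg k (M (insert z S)) = Algebra.trdeg k (M S) := le_antisymm h1 hge
    rw [h2] at hadd
    have h3 := hfinS
    have h4 : Algebra.trdeg (M (insert z S)) (M S) < Cardinal.aleph0 := by
      refine lt_of_le_of_lt ?_ hfinS
      conv_rhs => rw [← hadd]
      exact self_le_add_left _ _
    obtain ⟨a, ha⟩ := Cardinal.lt_aleph0.mp h3
    obtain ⟨b, hb⟩ := Cardinal.lt_aleph0.mp h4
    rw [ha, hb] at hadd
    rw [hb]
    have h5 : a + b = a := by exact_mod_cast hadd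
    have h6 : b = 0 := by omega
    rw [h6]; simp
  rw [trdeg_eq_zero_iff] at hzero
  have hhS : h ∈ M S := (hM S h).mpr hh
  have h7 : IsAlgebraic (M (insert z S)) (⟨h, hhS⟩ : M S) := hzero.isAlgebraic _
  have h8 : IsAlgebraic (M (insert z S)) h := h7.algebraMap (A := K)
  apply hac z hz
  have hle' : M (insert z S) ≤ L z := by
    intro x hx
    rw [hM] at hx
    exact hx z (Finset.mem_insert_self _ _)
  let j' : M (insert z S) →ₐ[k] L z := IntermediateField.inclusion hle'
  let _ : Algebra (M (insert z S)) (L z) := j'.toRingHom.toAlgebra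
  have tow3 : IsScalarTower (M (insert z S)) (L z) K :=
    IsScalarTower.of_algebraMap_eq fun x => rfl
  exact h8.tower_top (L z)

theorem trdeg_lt_aleph0_of_essFiniteType (k K : Type u) [Field k] [Field K] [Algebra k K]
    [Algebra.EssFiniteType k K] : Algebra.trdeg k K < Cardinal.aleph0 := by
  obtain ⟨S, hS⟩ := IntermediateField.fg_top k K
  have h1 : Algebra.IsAlgebraic (Algebra.adjoin k (S : Set K)) K := by
    constructor
    intro x
    rw [← IntermediateField.isAlgebraic_adjoin_iff]
    have hx : x ∈ IntermediateField.adjoin k (S : Set K) := by rw [hS]; trivial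
    exact isAlgebraic_algebraMap (⟨x, hx⟩ : IntermediateField.adjoin k (S : Set K))
  refine (Algebra.IsAlgebraic.trdeg_le_cardinalMk (R := k) (S : Set K) (A := K)).trans_lt ?_
  simp

end Pool.Agent.Lib.MP_cc17a8_ag
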