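import Mathlib

universe u v w

namespace Pool.Agent.Lib.MP_cc17a8_ag

open Module

section Rational

variable {V : Type u} [AddCommGroup V] [Module ℝ V] {Dv : Type v} [AddCommGroup Dv] {Γ : Type w}
  (cls : Dv →+ V) (cur : Γ → Dual ℝ V)

/-- Rationality: a set of rational functionals which separates the lattice separates the real
vector space it spans. -/
theorem separates_of_lattice (hspan : Submodule.span ℝ (Set.range cls) = ⊤)
    (hcur : ∀ δ, (∀ γ, cur γ δ = 0) → δ = 0)
    (hint : ∀ γ D, ∃ n : ℤ, cur γ (cls D) = n)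
    (S : Set Γ) (hS : ∀ D, (∀ γ ∈ S, cur γ (cls D) = 0) → cls D = 0)
    (δ : V) (hδ : ∀ γ ∈ S, cur γ δ = 0) : δ = 0 := by
  obtain ⟨c, hc⟩ : ∃ c : Dv →₀ ℝ, c.sum (fun D a => a • cls D) = δ := by
    have h1 : δ ∈ Submodule.span ℝ (Set.range cls) := by rw [hspan]; trivial
    rw [Finsupp.mem_span_range_iff_exists_finsupp] at h1
    exact h1
  choose n hn using hint
  apply hcur
  intro γ
  rw [← Module.forall_dual_apply_eq_zero_iff ℚ]
  intro ψ
  -- common denominator
  classical
  obtain ⟨⟨N, hN⟩, hNψ⟩ := IsLocalization.exist_integer_multiples_of_finset (nonZeroDivisors ℤ)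
    (c.support.image (fun D => ψ (c D)))
  have hN0 : N ≠ 0 := nonZeroDivisors.ne_zero hN
  have hm : ∀ D, ∃ m : ℤ, D ∈ c.support → (m : ℚ) = N * ψ (c D) := by
    intro D
    by_cases hD : D ∈ c.support
    · obtain ⟨m, hm⟩ := hNψ (ψ (c D)) (Finset.mem_image_of_mem _ hD)
      refine ⟨m, fun _ => ?_⟩
      rw [← zsmul_eq_mul]
      exact hm
    · exact ⟨0, fun h => absurd h hD⟩
  choose m hm using hm
  let Dψ : Dv := ∑ D ∈ c.support, m D • D
  have hval : ∀ γ, cur γ (cls Dψ) = ((N : ℚ) * ψ (cur γ δ) : ℚ) := by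
    intro γ
    have h1 : cur γ δ = ∑ D ∈ c.support, (n γ D : ℚ) • c D := by
      rw [← hc, Finsupp.sum, map_sum]
      apply Finset.sum_congr rfl
      intro D _
      rw [map_smul, hn, smul_eq_mul, Rat.smul_def]
      push_cast
      ring
    have h2 : cur γ (cls Dψ) = ∑ D ∈ c.support, (m D : ℝ) * (n γ D : ℝ) := by
      rw [map_sum, map_sum]
      apply Finset.sum_congr rfl
      intro D _
      rw [map_zsmul, map_zsmul, hn, zsmul_eq_mul]
    rw [h1, h2, map_sum, Finset.mul_sum]
    push_cast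
    apply Finset.sum_congr rfl
    intro D hD
    have h3 : (m D : ℝ) = ((N * ψ (c D) : ℚ) : ℝ) := by
      rw [← hm D hD]
      push_cast
      rfl
    rw [h3, map_smul]
    push_cast
    simp only [smul_eq_mul]
    push_cast
    ring
  have hzero : cls Dψ = 0 := by
    apply hS
    intro γ hγ
    rw [hval, hδ γ hγ, map_zero, mul_zero, Rat.cast_zero]
  have h4 := hval γ
  rw [hzero, map_zero] at h4
  have h5 : (N : ℚ) * ψ (cur γ δ) = 0 := by exact_mod_cast h4.symm
  have hN' : (N : ℚ) ≠ 0 := by exact_mod_cast hN0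
  exact (mul_eq_zero.mp h5).resolve_left hN'

end Rational

end Pool.Agent.Lib.MP_cc17a8_ag
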