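import Mathlib

universe u v w

namespace Pool.Agent.Lib.MP_cc17a8_ag

open Module

theorem exists_simplicial_basis {V : Type u} [AddCommGroup V] [Module ℝ V]
    (T : Set (Dual ℝ V)) (S : Finset (Dual ℝ V)) (hST : (S : Set (Dual ℝ V)) ⊆ T)
    (hS : ∀ δ : V, (∀ z ∈ S, z δ = 0) → δ = 0)
    (hext : ∀ w ∈ T, ∀ (n : ℕ) (v : Fin n → Dual ℝ V) (c : Fin n → ℝ), (∀ i, v i ∈ T) →
      (∀ i, 0 ≤ c i) → w = ∑ i, c i • v i → ∃ i, w = v i)
    (key : ∀ U ⊆ (S : Set (Dual ℝ V)), U.Finite → (∃ δ : V, δ ≠ 0 ∧ ∀ z ∈ U, z δ = 0) →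
      ∃ δ : V, δ ≠ 0 ∧ (∀ z ∈ T, 0 ≤ z δ) ∧ ∀ z ∈ U, z δ = 0) :
    ∃ (n : ℕ) (b : Basis (Fin n) ℝ V), ∀ δ, (∀ z ∈ T, 0 ≤ z δ) ↔ ∀ i, 0 ≤ b.repr δ i := by
  -- finite dimensionality
  let ev : V →ₗ[ℝ] (S → ℝ) := LinearMap.pi fun z => z.1
  have hev : Function.Injective ev := by
    rw [injective_iff_map_eq_zero]
    intro δ hδ
    apply hS
    intro z hz
    exact congrFun hδ ⟨z, hz⟩
  have hfd : FiniteDimensional ℝ V := FiniteDimensional.of_injective ev hev
  have hspan : Submodule.span ℝ (S : Set (Dual ℝ V)) = ⊤ := by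
    have h1 : (Submodule.span ℝ (S : Set (Dual ℝ V))).dualCoannihilator = ⊥ := by
      rw [Submodule.eq_bot_iff]
      intro δ hδ
      apply hS
      intro z hz
      rw [Submodule.mem_dualCoannihilator] at hδ
      exact hδ z (Submodule.subset_span hz)
    rw [← Subspace.dualCoannihilator_dualAnnihilator_eq
      (W := Submodule.span ℝ (S : Set (Dual ℝ V))), h1, Submodule.dualAnnihilator_bot]
  obtain ⟨B, hBS, hBspan, hBli⟩ := exists_linearIndependent ℝ (S : Set (Dual ℝ V))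
  have hBfin : B.Finite := S.finite_toSet.subset hBS
  let _ : Fintype B := hBfin.fintype
  let n := Fintype.card B
  let e : Fin n ≃ B := (Fintype.equivFin B).symm
  let β : Basis (Fin n) ℝ (Dual ℝ V) := (Basis.mk hBli (by
    rw [Subtype.range_coe, hBspan, hspan])).reindex e.symm
  have hβ : ∀ i, β i = (e i : Dual ℝ V) := by
    intro i
    simp [β]
  have hβT : ∀ i, β i ∈ T := fun i => by rw [hβ]; exact hST (hBS (e i).2)
  -- the dual basis
  let b : Basis (Fin n) ℝ V := β.dualBasis.map (evalEquiv ℝ V).symm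
  have hb : ∀ δ i, b.repr δ i = β i δ := by
    intro δ i
    simp [b]
  refine ⟨n, b, fun δ => ⟨fun h i => by rw [hb]; exact h _ (hβT i), fun h w hw => ?_⟩⟩
  have hw' : ∃ i, w = β i := by
    by_contra hcon
    push Not at hcon
    let c := β.repr w
    have hc : w = ∑ i, c i • β i := (β.sum_repr w).symm
    have hneg : ∃ j, c j < 0 := by
      by_contra hneg
      push Not at hneg
      obtain ⟨i, hi⟩ := hext w hw n β c hβT hneg hc
      exact hcon i hi
    obtain ⟨j, hj⟩ := hneg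
    obtain ⟨δ, hδ0, hδ, hδU⟩ := key (β '' {i | 0 ≤ c i}) (by
      rintro _ ⟨i, -, rfl⟩
      rw [hβ]
      exact hBS (e i).2) (Set.toFinite _) ⟨b j, b.ne_zero j, by
        rintro _ ⟨i, hi, rfl⟩
        have hij : j ≠ i := by
          rintro rfl
          exact absurd hi (not_le.mpr hj)
        rw [← hb, Basis.repr_self, Finsupp.single_apply, if_neg hij]⟩
    apply hδ0
    have h1 : w δ = ∑ i, c i * β i δ := by
      conv_lhs => rw [hc]
      simp
    have h2 : ∀ i, c i * β i δ ≤ 0 := by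
      intro i
      by_cases hi : 0 ≤ c i
      · rw [hδU _ ⟨i, hi, rfl⟩, mul_zero]
      · exact mul_nonpos_of_nonpos_of_nonneg (not_le.mp hi).le (hδ _ (hβT i))
    have h3 : ∑ i, c i * β i δ = 0 := le_antisymm (Finset.sum_nonpos fun i _ => h2 i)
      (h1 ▸ hδ w hw)
    have h4 : ∀ i, c i * β i δ = 0 := by
      intro i
      exact (Finset.sum_eq_zero_iff_of_nonpos fun i _ => h2 i).mp h3 i (Finset.mem_univ i)
    apply b.repr.injective
    ext i
    rw [hb, map_zero, Finsupp.zero_apply]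
    by_cases hi : 0 ≤ c i
    · exact hδU _ ⟨i, hi, rfl⟩
    · exact (mul_eq_zero.mp (h4 i)).resolve_left (not_le.mp hi).ne
  obtain ⟨i, rfl⟩ := hw'
  rw [← hb]
  exact h i

end Pool.Agent.Lib.MP_cc17a8_ag
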