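import Mathlib
import Pool.Agent.Lib.MP_cc17a8_ag.Claim2
import Pool.Agent.Lib.MP_cc17a8_ag.ConvexCone
import Pool.Agent.Lib.MP_cc17a8_ag.Simplicial
import Pool.Agent.Lib.MP_cc17a8_ag.FiniteInf
import Pool.Agent.Lib.MP_cc17a8_ag.Rational

open AlgebraicGeometry CategoryTheory Module

universe u v

namespace Pool.Agent.Lib.MP_cc17a8_ag

section

variable {k : Type u} [Field k] [CharZero k] [IsAlgClosed k] {X : Scheme.{u}} [IsIntegral X]
  (f : X ⟶ Spec (.of k)) [IsProper f]

/-- The class of a Cartier divisor. -/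
noncomputable def cls : CartierDivisor X →+ N1 f :=
  AddMonoidHom.mk' (fun D => ⟨fun C => (inter D C : ℝ), Submodule.subset_span ⟨D, rfl⟩⟩) (by
    intro D E
    apply Subtype.ext
    funext C
    change ((inter (D + E) C : ℤ) : ℝ) = (inter D C : ℝ) + (inter E C : ℝ)
    rw [inter_add]
    push_cast
    ring)

/-- The linear form defined by a curve. -/
noncomputable def cur (C : Curve f) : Dual ℝ (N1 f) :=
  (LinearMap.proj C).comp (N1 f).subtype

theorem cur_cls (C : Curve f) (D : CartierDivisor X) : cur f C (cls f D) = inter D C := rfl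

theorem coe_cur (C : Curve f) : ⇑(cur f C) = curveClass f C := rfl

theorem NEbar_eq : NEbar f = absCone (fun C => ⇑(cur f C)) := rfl

theorem span_cls : Submodule.span ℝ (Set.range (cls f)) = ⊤ := by
  have h1 : Set.range (cls f) = (Subtype.val ⁻¹'
      (Set.range fun (D : CartierDivisor X) (C : Curve f) => (inter D C : ℝ)) : Set (N1 f)) := by
    ext x
    constructor
    · rintro ⟨D, rfl⟩
      exact ⟨D, rfl⟩
    · rintro ⟨D, hD⟩
      exact ⟨D, Subtype.ext hD⟩
  rw [h1]
  exact Submodule.span_span_coe_preimage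

theorem eq_zero_of_cur (δ : N1 f) (h : ∀ C, cur f C δ = 0) : δ = 0 := by
  apply Subtype.ext
  funext C
  exact h C

variable {f}

theorem exists_bound_real {A : CartierDivisor X} (hA : A.IsAmple) (δ : N1 f) :
    ∃ M : ℝ, ∀ C, |cur f C δ| ≤ M * cur f C (cls f A) := by
  have hpos : ∀ C : Curve f, (0 : ℝ) < inter A C := fun C => by
    exact_mod_cast inter_ample_pos hA C
  have h : ∀ x ∈ N1 f, ∃ M : ℝ, ∀ C : Curve f, |x C| ≤ M * inter A C := by
    intro x hx
    induction hx using Submodule.span_induction with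
    | mem x hx =>
      obtain ⟨D, rfl⟩ := hx
      obtain ⟨m1, h1⟩ := exists_bound (f := f) hA D
      obtain ⟨m2, h2⟩ := exists_bound (f := f) hA (-D)
      refine ⟨m1 + m2, fun C => ?_⟩
      have h3 : (0 : ℝ) ≤ m1 * inter A C + inter D C := by exact_mod_cast h1 C
      have h4 : (0 : ℝ) ≤ m2 * inter A C - inter D C := by
        have h5 := h2 C
        have h6 : inter (-D) C = - inter D C := by
          have h7 := inter_add D (-D) C
          have h8 := inter_nsmul (f := f) D 0 C
          rw [add_neg_cancel] at h7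
          rw [zero_smul] at h8
          rw [h8] at h7
          push_cast at h7
          linarith
        rw [h6] at h5
        have h9 : (0 : ℤ) ≤ m2 * inter A C - inter D C := by linarith
        exact_mod_cast h9
      have h5 : (0 : ℝ) ≤ m1 * inter A C := mul_nonneg (Nat.cast_nonneg _) (hpos C).le
      have h6 : (0 : ℝ) ≤ m2 * inter A C := mul_nonneg (Nat.cast_nonneg _) (hpos C).le
      rw [abs_le, add_mul]
      constructor <;> linarith
    | zero => exact ⟨0, fun C => by simp⟩
    | add x y _ _ hx hy =>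
      obtain ⟨M, hM⟩ := hx
      obtain ⟨N, hN⟩ := hy
      refine ⟨M + N, fun C => ?_⟩
      rw [add_mul]
      exact (abs_add_le _ _).trans (add_le_add (hM C) (hN C))
    | smul r x _ hx =>
      obtain ⟨M, hM⟩ := hx
      refine ⟨|r| * M, fun C => ?_⟩
      rw [Pi.smul_apply, smul_eq_mul, abs_mul, mul_assoc]
      exact mul_le_mul_of_nonneg_left (hM C) (abs_nonneg r)
  exact h δ.1 δ.2

end

end Pool.Agent.Lib.MP_cc17a8_ag
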