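import Mathlib
import Pool.Agent.Lib.MP_cc17a8_ag.Classes

open AlgebraicGeometry CategoryTheory Module

universe u v

namespace Pool.Agent.Lib.MP_cc17a8_ag

section

variable {k : Type u} [Field k] [CharZero k] [IsAlgClosed k] {X : Scheme.{u}} [IsIntegral X]
  (f : X ⟶ Spec (.of k)) [IsProper f]

theorem main_theorem (A : CartierDivisor X) (hA : A.IsAmple)
    (hX : ∀ x : X, UniqueFactorizationMonoid (X.presheaf.stalk x))
    (hc : ∀ R, IsExtremalRay f R → Nonempty (FibreData f R)) :
    ∃ (n : ℕ) (b : Basis (Fin n) ℝ (N1 f)), Nef f = {δ | ∀ i, 0 ≤ b.repr δ i} := by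
  let _ := ffAlg f
  have hess := essFiniteType_functionField f
  let a : N1 f := cls f A
  have hbound : ∀ δ : N1 f, ∃ M : ℝ, ∀ C, |cur f C δ| ≤ M * cur f C a := exists_bound_real hA
  have hpos : ∀ C, 0 < cur f C a := fun C => by
    rw [cur_cls]; exact_mod_cast inter_ample_pos hA C
  let T : Set (Dual ℝ (N1 f)) := {z | ⇑z ∈ (base (cur f) a).extremePoints ℝ}
  -- the extremal ray of an extreme point
  let ray : (Dual ℝ (N1 f)) → Set (N1 f → ℝ) := fun z => {y | ∃ t : ℝ, 0 ≤ t ∧ y = t • ⇑z}
  have hray : ∀ z ∈ T, IsExtremalRay f (ray z) := by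
    intro z hz
    have hza : z a = 1 := hz.1.2
    refine ⟨⟨⇑z, hz.1.1, ?_, rfl⟩, ?_⟩
    · intro h0
      have : (⇑z) a = (0 : N1 f → ℝ) a := congrFun h0 a
      rw [hza] at this
      exact one_ne_zero this
    · intro x hx y hy hxy
      refine ⟨extremal_of_extremePoint (cur f) a hbound hpos hz hx hy hxy, ?_⟩
      rw [add_comm] at hxy
      exact extremal_of_extremePoint (cur f) a hbound hpos hz hy hx hxy
  let c : ∀ z : T, FibreData f (ray z.1) := fun z => Classical.choice (hc _ (hray z.1 z.2))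
  let L : T → IntermediateField k X.functionField := fun z => (c z).field
  -- curves whose class lies in a ray
  have hclass : ∀ (z : T) (C : Curve f), curveClass f C ∈ ray z.1 → ∀ δ : N1 f,
      cur f C δ = (inter A C : ℝ) * z.1 δ := by
    rintro z C ⟨t, ht, hC⟩ δ
    have h1 : ∀ δ, cur f C δ = t * z.1 δ := fun δ => congrFun hC δ
    have h2 : (inter A C : ℝ) = t := by
      have h3 := h1 a
      have h4 : z.1 a = 1 := z.2.1.2
      rw [h4, mul_one] at h3
      exact h3
    rw [h1, h2]
  have hexC : ∀ z : T, ∃ C : Curve f, curveClass f C ∈ ray z.1 := by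
    intro z
    obtain ⟨C, -, -, hcl⟩ := exists_contracted_curve (c z).contr.map_genericPoint
      (c z).contr.comp_eq (c z).dim_lt (W := ⊤) ⟨genericPoint X, trivial⟩ (V := ⊤)
      ⟨genericPoint (c z).Y, trivial⟩
    exact ⟨C, ((c z).contr.isClosed_iff C).mp hcl⟩
  choose Cz hCz using hexC
  have hAC : ∀ C : Curve f, (0 : ℝ) < inter A C := fun C => by exact_mod_cast inter_ample_pos hA C
  -- separation by the extreme points
  have hsep : ∀ δ : N1 f, (∀ z : T, z.1 δ = 0) → δ = 0 := by
    intro δ hδ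
    apply eq_zero_of_cur f
    intro C
    apply le_antisymm
    · have h1 := nonneg_of_extremePoints (cur f) a hbound hpos (δ := -δ) (by
        intro z hz
        obtain ⟨z', rfl⟩ := absCone_linear (cur f) hz.1.1
        rw [map_neg, hδ ⟨z', hz⟩, neg_zero]) C
      rw [map_neg] at h1
      linarith
    · exact nonneg_of_extremePoints (cur f) a hbound hpos (δ := δ) (by
        intro z hz
        obtain ⟨z', rfl⟩ := absCone_linear (cur f) hz.1.1
        rw [hδ ⟨z', hz⟩]) C
  -- Claim 1
  have hC1 : ∀ S : Set T, (∀ h, (∀ z ∈ S, h ∈ L z) → h ∈ (⊥ : IntermediateField k X.functionField)) →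
      ∀ D, (∀ z ∈ S, z.1 (cls f D) = 0) → cls f D = 0 := by
    intro S hS D hD
    apply hsep
    intro p
    have hL : ⨅ j : S, (c j.1).field = ⊥ := by
      rw [eq_bot_iff]
      intro h hh
      apply hS
      intro z hz
      have : ⨅ j : S, (c j.1).field ≤ (c z).field := iInf_le (fun j : S => (c j.1).field) ⟨z, hz⟩
      exact this hh
    have key := claim1 (fun j : S => ray j.1.1) (fun j => c j.1) hL D (by
      intro j C hC
      have h1 := hclass j.1 C hC (cls f D)
      rw [hD j.1 j.2, mul_zero, cur_cls] at h1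
      exact_mod_cast h1) (c p) hA (Cz p) (by
      intro C hC
      have h1 := hclass p C hC (cls f D)
      have h2 := hclass p (Cz p) (hCz p) (cls f D)
      rw [cur_cls] at h1 h2
      have h3 : (inter A (Cz p) : ℝ) * inter D C = inter D (Cz p) * inter A C := by
        rw [h1, h2]; ring
      exact_mod_cast h3)
    have h2 := hclass p (Cz p) (hCz p) (cls f D)
    rw [cur_cls, key, Int.cast_zero] at h2
    exact (mul_eq_zero.mp h2.symm).resolve_left (hAC _).ne'
  -- Claim 2
  have hC2 : ∀ h : X.functionField, h ∉ (⊥ : IntermediateField k X.functionField) →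
      ∃ D, cls f D ≠ 0 ∧ (∀ z : T, 0 ≤ z.1 (cls f D)) ∧ ∀ z : T, h ∈ L z → z.1 (cls f D) = 0 := by
    intro h hh
    obtain ⟨D, ⟨C0, hC0⟩, hD1, hD2⟩ := claim2 (f := f) hX h (by
      rintro x rfl
      exact hh ((⊥ : IntermediateField k X.functionField).algebraMap_mem x))
    refine ⟨D, ?_, ?_, ?_⟩
    · intro h0
      apply hC0
      have h1 := cur_cls f C0 D
      rw [h0, map_zero] at h1
      exact_mod_cast h1.symm
    · intro z
      obtain ⟨C, hC, hCD⟩ := hD1 _ (c z)
      have h1 := hclass z C hC (cls f D)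
      rw [cur_cls] at h1
      have h2 : (0 : ℝ) ≤ inter D C := by exact_mod_cast hCD
      rw [h1] at h2
      exact (mul_nonneg_iff_of_pos_left (hAC C)).mp h2
    · intro z hz
      obtain ⟨C, hC, hCD⟩ := hD2 _ (c z) hz
      have h1 := hclass z C hC (cls f D)
      rw [cur_cls, hCD, Int.cast_zero] at h1
      exact (mul_eq_zero.mp h1.symm).resolve_left (hAC C).ne'
  -- rationality
  have hrat : ∀ S : Set T, (∀ h, (∀ z ∈ S, h ∈ L z) → h ∈ (⊥ : IntermediateField k X.functionField)) →
      ∀ δ, (∀ z ∈ S, z.1 δ = 0) → δ = 0 := by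
    intro S hS δ hδ
    refine separates_of_lattice (cls f) (cur f) (span_cls f) (eq_zero_of_cur f)
      (fun C D => ⟨inter D C, cur_cls f C D⟩) (Cz '' S) ?_ δ ?_
    · intro D hD
      apply hC1 S hS
      intro z hz
      have h1 := hD _ ⟨z, hz, rfl⟩
      rw [hclass z _ (hCz z)] at h1
      exact (mul_eq_zero.mp h1).resolve_left (hAC _).ne'
    · rintro _ ⟨z, hz, rfl⟩
      rw [hclass z _ (hCz z), hδ z hz, mul_zero]
  -- a finite separating set
  obtain ⟨S, -, hS⟩ := exists_finite_inf (trdeg_lt_aleph0_of_essFiniteType k X.functionField)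
    (Set.univ : Set T) L (fun z _ x hx => contrField_isAlgebraic f (c z).g (c z).φ _ _ x hx) (by
      intro h hh
      by_contra hcon
      obtain ⟨D, hD0, -, hD⟩ := hC2 h hcon
      exact hD0 (hsep _ fun z => hD z (hh z trivial)))
  classical
  have hST : ((S.image Subtype.val : Finset (Dual ℝ (N1 f))) : Set (Dual ℝ (N1 f))) ⊆ T := by
    intro z hz
    rw [Finset.coe_image] at hz
    obtain ⟨w, -, rfl⟩ := hz
    exact w.2
  obtain ⟨n, b, hb⟩ := exists_simplicial_basis T (S.image Subtype.val) hST (by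
      intro δ hδ
      exact hrat S hS δ fun z hz => hδ z.1 (Finset.mem_image_of_mem _ hz)) (by
      intro w hw n v d hv hd hwv
      obtain ⟨i, hi⟩ := eq_of_nonneg_combination (cur f) a hpos hw n (fun i => ⇑(v i)) d
        (fun i => (hv i).1) hd (by rw [hwv]; ext δ; simp)
      exact ⟨i, DFunLike.coe_injective hi⟩) (by
      rintro U hU - ⟨δ, hδ0, hδ⟩
      by_cases hcase : ∀ h, (∀ z : T, z.1 ∈ U → h ∈ L z) → h ∈ (⊥ : IntermediateField k X.functionField)
      · exact absurd (hrat {z | z.1 ∈ U} hcase δ fun z hz => hδ _ hz) hδ0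
      · push Not at hcase
        obtain ⟨h, hh, hhb⟩ := hcase
        obtain ⟨D, hD0, hD1, hD2⟩ := hC2 h hhb
        exact ⟨cls f D, hD0, fun z hz => hD1 ⟨z, hz⟩, fun z hz => hD2 ⟨z, hST (hU hz)⟩ (hh ⟨z, hST (hU hz)⟩ hz)⟩)
  refine ⟨n, b, ?_⟩
  ext δ
  rw [Set.mem_ofPred_eq, ← hb]
  constructor
  · intro hδ z hz
    have h1 : absCone (fun C => ⇑(cur f C)) ⊆ {z | 0 ≤ z δ} := by
      apply absCone_subset
      · exact isClosed_le (by fun_prop) (by fun_prop)
      · simp
      · intro z hz w hw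
        exact add_nonneg (α := ℝ) hz hw
      · intro r hr z hz
        exact mul_nonneg (α := ℝ) hr hz
      · intro C
        exact hδ C
    exact h1 hz.1.1
  · intro hδ C
    refine nonneg_of_extremePoints (cur f) a hbound hpos (δ := δ) ?_ C
    intro z hz
    obtain ⟨z', rfl⟩ := absCone_linear (cur f) hz.1.1
    exact hδ z' hz

end

end Pool.Agent.Lib.MP_cc17a8_ag
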